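import Pool.Agent.Helper55.FT.Def

set_option autoImplicit false

/-!
# `r ≡ -1 (mod p)`: definitions

`b = - 1 / q (mod p)`, `v = - D (mod p q)` where `D r ≡ 1 (mod p q)`; here `v ≡ 1 (mod p)`.
-/

namespace Pool.Agent.Helper10.TB

open Pool.Agent.Helper55.FT

/-- The side conditions. -/
structure H (p q : ℕ) (b v : ℤ) : Prop where
  hp : p.Prime
  hq : q.Prime
  h11 : 11 ≤ p
  hpq : p < q
  hb2 : 2 ≤ b
  hbp : b ≤ p - 2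
  hbq : (p : ℤ) ∣ b * q + 1
  hv1 : 1 < v
  hvM : v < p * q
  hvp : (p : ℤ) ∣ v - 1
  hvq : ¬ (q : ℤ) ∣ v

/-- a violation of flatness for the progression with difference `- v` -/
def VV (p q : ℕ) (v : ℤ) : Prop :=
  ∃ N k : ℤ, 0 ≤ N ∧ N < p * q ∧ 2 ≤ |G p q (-v) N k|

/-- `b m - 1` modulo `p` -/
def al (p : ℕ) (b m : ℤ) : ℤ := (b * m - 1) % p

/-- `- m v - q` modulo `p q` -/
def be (p q : ℕ) (v m : ℤ) : ℤ := (-m * v - q) % (p * q)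

/-- No other point of the progression `n v`, `0 ≤ n < p`, lies less than `q` to the left of
the point `e v` on the circle `ℤ / p q`. -/
def gapok (p q : ℕ) (v : ℤ) (e : ℕ) : Prop :=
  ∀ n : ℕ, n < p → n ≠ e → (q : ℤ) ≤ (((e : ℤ) - n) * v) % (p * q)

/-- `q · (c m mod p) - m Θ` -/
def Z (p q : ℕ) (c Θ : ℤ) (m : ℕ) : ℤ := q * ((c * m) % p) - m * Θ

/-- `e` is good for `(c, Θ)` -/
def good (p q : ℕ) (c Θ : ℤ) (e : ℕ) : Prop :=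
  (∀ m : ℕ, 1 ≤ m → e + m < p → ¬ (0 < Z p q c Θ m ∧ Z p q c Θ m < q)) ∧
  (∀ m : ℕ, 1 ≤ m → m ≤ e → ¬ (-(q : ℤ) < Z p q c Θ m ∧ Z p q c Θ m < 0))

/-- the pair configuration -/
structure PairH (p q : ℕ) (c Θ : ℤ) (μ : ℕ) : Prop where
  h1 : 2 ≤ μ
  h2 : μ + 2 ≤ p
  z1 : 0 < Z p q c Θ μ
  z2 : Z p q c Θ μ < q
  hlt : ∀ m : ℕ, 1 ≤ m → m < μ → (q : ℤ) ≤ Z p q c Θ m
  hneg : ∀ m : ℕ, 1 ≤ m → m + μ < p → ¬ (-(q : ℤ) < Z p q c Θ m ∧ Z p q c Θ m < 0)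
  r1 : (c * μ) % p < c
  r2 : (c * μ) % p ≤ p - c - 1

end Pool.Agent.Helper10.TB
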