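import Pool.Agent.Helper10.TB.Defs

set_option autoImplicit false

/-!
# Some point has no left neighbour closer than `q`

PROOF. The `p` points `n v mod p q` (`n < p`) of the circle `ℤ / p q` are distinct (`gcd (v, p q) = 1`: `p ∣ v - 1`, `q ∤ v`).
The `p` left gaps have sum `p q`, so one of them is at least `q`.
Possible formal proof: suppose not; then for every `e` there is `n ≠ e` with `0 < ((e - n) v) % (p q) < q` (`≠ 0` by distinctness).
Choose (for example) the sorted list of the residues `x_0 < x_1 < ... < x_{p-1}` in `[0, p q)` (`Finset.orderEmbOfFin`): every `x_i` with `i ≥ 1`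
satisfies `x_i - x_{i-1} < q` or `x_i < q` (a residue `y` with `(x_i - y) mod p q ∈ (0, q)` is either `< x_i`, then `y ≤ x_{i-1}`, so `x_i - x_{i-1} < q`,
or `> x_i`, `x_i + p q - y < q`); and `x_0 + p q - x_{p-1} < q`.  In the latter kind for `i ≥ 1`: `x_i + p q - y < q` with `y ≤ x_{p-1}` gives
`x_i + p q - x_{p-1} < q` so `x_i - x_0 < q`, and then still `x_i - x_{i-1} < q`.  Sum: `x_{p-1} - x_0 ≤ (p-1)(q-1)`, and `x_0 + p q - x_{p-1} ≤ q - 1`,
contradiction `p q ≤ p (q-1)`.
Alternative: induction producing a walk: from any point one can go left by `d ∈ (0,q)`; after `p` steps two of the `p + 1` visited points agree,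
so at most `p` steps with total length a positive multiple of `p q`, but total length `< p q`.  (This is probably the shortest: `f : range p → range p`,
iterate `f`, `i < j ≤ p` with `f^[i] e = f^[j] e`, the sum of the `j - i ≤ p` distances is `≡ 0 (mod p q)`, positive and `≤ p (q-1)`.)
-/

namespace Pool.Agent.Helper10.TB

open Finset

theorem gap_exists {p q : ℕ} {b v : ℤ} (h : H p q b v) : ∃ e : ℕ, e < p ∧ gapok p q v e := by
  by_contra hcon
  push Not at hcon
  have hp0 : 0 < p := h.hp.pos
  have hq0 : 0 < q := h.hq.pos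
  have hpz : (0 : ℤ) < p := by exact_mod_cast hp0
  have hqz : (0 : ℤ) < q := by exact_mod_cast hq0
  have hM : (0 : ℤ) < (p : ℤ) * q := mul_pos hpz hqz
  have step : ∀ e : ℕ, e < p → ∃ n : ℕ, n < p ∧ 0 < (((e : ℤ) - n) * v) % (p * q) ∧
      (((e : ℤ) - n) * v) % (p * q) < q := by
    intro e he
    have h1 := hcon e he
    unfold gapok at h1
    push Not at h1
    obtain ⟨n, hn, hne, hlt⟩ := h1
    refine ⟨n, hn, ?_, hlt⟩
    have h2 : 0 ≤ (((e : ℤ) - n) * v) % (p * q) := Int.emod_nonneg _ hM.ne'
    rcases h2.lt_or_eq with h3 | h3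
    · exact h3
    · exfalso
      have h4 : (p : ℤ) * q ∣ ((e : ℤ) - n) * v := Int.dvd_of_emod_eq_zero h3.symm
      have h5 : (p : ℤ) ∣ ((e : ℤ) - n) * v := dvd_trans (dvd_mul_right _ _) h4
      have h6 : (p : ℤ) ∣ ((e : ℤ) - n) := by
        have h7 : (p : ℤ) ∣ ((e : ℤ) - n) * (v - 1) := dvd_mul_of_dvd_right h.hvp _
        have h8 := dvd_sub h5 h7
        have h9 : ((e : ℤ) - n) * v - ((e : ℤ) - n) * (v - 1) = (e : ℤ) - n := by ring
        rwa [h9] at h8
      obtain ⟨c, hc⟩ := h6
      have hc0 : c = 0 := by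
        by_contra hc0
        rcases lt_or_gt_of_ne hc0 with hc1 | hc1
        · have : c ≤ -1 := by omega
          nlinarith
        · have : 1 ≤ c := by omega
          nlinarith
      subst hc0
      apply hne
      rw [mul_zero] at hc
      omega
  choose! f hf1 hf2 hf3 using step
  have hx : ∀ k : ℕ, f^[k] 0 < p := by
    intro k
    induction k with
    | zero => exact hp0
    | succ k ih =>
      rw [Function.iterate_succ_apply']
      exact hf1 _ ih
  have key : ∀ i k : ℕ, ∃ S T : ℤ, ((f^[i] 0 : ℕ) - (f^[i + k] 0 : ℕ) : ℤ) * v = S + (p * q) * T ∧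
      (k : ℤ) ≤ S ∧ S ≤ k * (q - 1) := by
    intro i k
    induction k with
    | zero => exact ⟨0, 0, by simp, by simp, by simp⟩
    | succ k ih =>
      obtain ⟨S, T, h1, h2, h3⟩ := ih
      have a1 := hf2 (f^[i + k] 0) (hx _)
      have a2 := hf3 (f^[i + k] 0) (hx _)
      have a3 := Int.emod_add_mul_ediv
        ((((f^[i + k] 0 : ℕ) : ℤ) - (f (f^[i + k] 0) : ℕ)) * v) (p * q)
      refine ⟨S + ((((f^[i + k] 0 : ℕ) : ℤ) - (f (f^[i + k] 0) : ℕ)) * v) % (p * q),
        T + ((((f^[i + k] 0 : ℕ) : ℤ) - (f (f^[i + k] 0) : ℕ)) * v) / (p * q), ?_, ?_, ?_⟩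
      · have h4 : f^[i + (k + 1)] 0 = f (f^[i + k] 0) := by
          rw [← add_assoc, Function.iterate_succ_apply']
        rw [h4]
        linear_combination h1 - a3
      · push_cast
        linarith
      · push_cast
        have : ((((f^[i + k] 0 : ℕ) : ℤ) - (f (f^[i + k] 0) : ℕ)) * v) % (p * q) ≤ (q : ℤ) - 1 := by
          omega
        linarith
  obtain ⟨i, hi, j, hj, hij, hfij⟩ := Finset.exists_ne_map_eq_of_card_lt_of_maps_to
    (s := Finset.range (p + 1)) (t := Finset.range p) (f := fun k => f^[k] 0)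
    (by simp) (fun k _ => Finset.mem_range.2 (hx k))
  rw [Finset.mem_range] at hi hj
  have fin : ∀ i j : ℕ, i < j → j < p + 1 → f^[i] 0 = f^[j] 0 → False := by
    intro i j hlt hj he
    obtain ⟨S, T, h1, h2, h3⟩ := key i (j - i)
    have h4 : i + (j - i) = j := by omega
    rw [h4, he, sub_self, zero_mul] at h1
    have h5 : (1 : ℤ) ≤ ((j - i : ℕ) : ℤ) := by
      have : 1 ≤ j - i := by omega
      exact_mod_cast this
    have h6 : ((j - i : ℕ) : ℤ) ≤ p := by
      have : j - i ≤ p := by omega
      exact_mod_cast this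
    have h7 : S < p * q := by
      have hq1 : (0 : ℤ) ≤ (q : ℤ) - 1 := by omega
      have := mul_le_mul_of_nonneg_right h6 hq1
      nlinarith
    have h8 : 0 < S := by linarith
    have h9 : T < 0 := by
      by_contra hT
      push Not at hT
      nlinarith
    have h10 : T ≤ -1 := by omega
    nlinarith
  rcases lt_or_gt_of_ne hij with hlt | hlt
  · exact fin i j hlt hj hfij
  · exact fin j i hlt hi hfij.symm

end Pool.Agent.Helper10.TB
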