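import Pool.Agent.Helper10.TB.MTel

set_option autoImplicit false

/-!
# The pair test, `v + Θ = (p - b) q`

PROOF.  `c = p - b`.  `e = μ`, `e' = 0 = e - μ`, `N = (b - 1) q + 1 < p q - q`, `k = N - e v`, `A = e` (`A + 1 = μ + 1 < p`).
Put `y_n = (k + n v) % (p q)`, `k0 = (c μ) % p < c`, `k0 ≤ p - c - 1 = b - 1`.
`p ∣ k + A v + q = N + q = b q + 1`.  ✓    `p ∣ Θ` (`Θ = p q - b q - v ≡ 1 - 1`), so `Θ ≥ p ≥ 2`.
`y_e = N`.  For `n = e - m`, `m ≥ 1`: `N - y_n ≡ m v ≡ m c q - m Θ ≡ Z m (mod p q)`;  for `n = e + m`: `N - y_n ≡ - m v ≡ - Z m`.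
`N - q < y_n ≤ N` iff `(N - y_n) % (p q) < q` (note `N ≥ q`, as `b ≥ 2`).  `Z m ∈ (- p q + q, p q - q)` for `1 ≤ m < p`, `Z m ≠ 0` for these `m` (as `q ∤ Θ m`).  For `m ≤ e = μ`: `(Z m) % (p q) < q` iff `0 < Z m < q` iff `m = μ`
(`hlt`, `z1`, `z2`); for `1 ≤ m ≤ p - 1 - μ`: `(- Z m) % (p q) < q` iff `- q < Z m < 0` (or `Z m = 0`): never (`hneg`).  So the sum in `tel` has exactly the terms `n = e, e'`.
* `av y_e = -1`: `av_eval` with `l = p - 1`, `l' = b - 1`: `N - l q = b q + 1 - p q` and `N - 1 - l' q = 0` are divisible by `p`; `l q > N` (`b ≤ p - 2`: `(p-1) q > (b-1) q + 1`), `l' q ≤ N`.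
* `y_{e'} = N - Z μ`, `av y_{e'} = -1`: `l = p - 1 - k0`, `l' = b - 1 - k0 ≥ 0`; `y_{e'} = (b-1) q + 1 - q k0 + μ Θ = q l' + 1 + μ Θ`;
  `p ∣ y_{e'} - 1 - l' q = μ Θ`; `y_{e'} - l q = b q + 1 - p q + μ Θ` divisible by `p`; `l' q ≤ y_{e'}`; `l q > y_{e'}` iff `(p - b) q > 1 + μ Θ`: `μ Θ < q k0 ≤ q (c - 1)` (`z1`, `r1`). ✓
* `y'_A = (N + q) % (p q) = N + q > N`; `y'_{A+1} = (N + v + q) % (p q)`: `N + v + q = b q + 1 + (p - b) q - Θ = p q + 1 - Θ < p q`, and `p q + 1 - Θ > N` (`Θ < q`, `b ≤ p - 2`).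
So `G = - 2`.
-/

namespace Pool.Agent.Helper10.TB

open Finset Pool.Agent.Helper55.FT

private theorem emv_MPairM {M x y c : ℤ} (h0 : 0 ≤ y) (h1 : y < M) (h : x = y + M * c) :
    x % M = y := by
  rw [h, Int.add_mul_emod_self_left]
  exact Int.emod_eq_of_lt h0 h1

theorem pairM {p q : ℕ} {b v Θ : ℤ} (h : H p q b v) (hΘ : v + Θ = (p - b) * q)
    (h0 : 0 < Θ) (hq : Θ < q) {μ : ℕ} (hμ : PairH p q (p - b) Θ μ) : VV p q v := by
  have hp := h.hp
  have hqp := h.hq
  have hpq := h.hpq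
  have hb2 := h.hb2
  have hbp := h.hbp
  have hq0 : (0 : ℤ) < q := by exact_mod_cast hqp.pos
  have hp0 : (0 : ℤ) < p := by exact_mod_cast hp.pos
  have hpqz : (p : ℤ) < q := by exact_mod_cast hpq
  have hp11 : (11 : ℤ) ≤ p := by exact_mod_cast h.h11
  have hμ1 := hμ.h1
  have hμ2 := hμ.h2
  obtain ⟨b1, hb1⟩ := h.hbq
  obtain ⟨v1, hv1⟩ := h.hvp
  have hpΘ : (p : ℤ) ∣ Θ := ⟨q - b1 - v1, by linear_combination hΘ - hv1 - hb1⟩
  have hΘp : (p : ℤ) ≤ Θ := Int.le_of_dvd h0 hpΘ
  have hmv : ∀ m : ℕ, ∃ c : ℤ, (m : ℤ) * v = Z p q (p - b) Θ m + p * q * c := by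
    intro m
    refine ⟨((p - b) * m) / p, ?_⟩
    have h1 := Int.emod_add_mul_ediv ((p - b) * m) p
    unfold Z
    linear_combination (m : ℤ) * hΘ - (q : ℤ) * h1
  have hr0 : ∀ m : ℕ, 0 ≤ (((p : ℤ) - b) * m) % p := fun m => Int.emod_nonneg _ hp0.ne'
  have hr1 : ∀ m : ℕ, (((p : ℤ) - b) * m) % p < p := fun m => Int.emod_lt_of_pos _ hp0
  have hZlt : ∀ m : ℕ, 1 ≤ m → Z p q (p - b) Θ m < p * q - q := by
    intro m hm
    have h1 : (q : ℤ) * ((((p : ℤ) - b) * m) % p) ≤ q * (p - 1) :=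
      mul_le_mul_of_nonneg_left (by have := hr1 m; omega) hq0.le
    have h2 : 0 < (m : ℤ) * Θ := by positivity
    unfold Z
    linarith
  have hpp : Prime (p : ℤ) := Nat.prime_iff_prime_int.1 hp
  have hqq : Prime (q : ℤ) := Nat.prime_iff_prime_int.1 hqp
  have hZgt : ∀ m : ℕ, 1 ≤ m → m < p → q - p * q < Z p q (p - b) Θ m := by
    intro m hm hmp
    have h1 : (((p : ℤ) - b) * m) % p ≠ 0 := by
      intro h2
      rcases hpp.dvd_or_dvd (Int.dvd_of_emod_eq_zero h2) with h3 | h3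
      · have := Int.le_of_dvd (by omega) h3
        omega
      · have := Int.le_of_dvd (by omega) h3
        omega
    have h2 : 1 ≤ (((p : ℤ) - b) * m) % p := by have := hr0 m; omega
    have h3 : (q : ℤ) * 1 ≤ q * ((((p : ℤ) - b) * m) % p) := mul_le_mul_of_nonneg_left h2 hq0.le
    have h4 : (m : ℤ) * Θ < p * q := by
      have h5 : (m : ℤ) < p := by exact_mod_cast hmp
      calc (m : ℤ) * Θ ≤ p * Θ := mul_le_mul_of_nonneg_right h5.le h0.le
        _ < p * q := mul_lt_mul_of_pos_left hq hp0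
    unfold Z
    linarith
  have hZne : ∀ m : ℕ, 1 ≤ m → m < p → Z p q (p - b) Θ m ≠ 0 := by
    intro m hm hmp h1
    have h2 : (q : ℤ) ∣ m * Θ := by
      unfold Z at h1
      exact ⟨(((p : ℤ) - b) * m) % p, by linarith⟩
    rcases hqq.dvd_or_dvd h2 with h3 | h3
    · have := Int.le_of_dvd (by omega) h3
      omega
    · have := Int.le_of_dvd h0 h3
      omega
  obtain ⟨N, hN⟩ : ∃ N : ℤ, N = (b - 1) * q + 1 := ⟨_, rfl⟩
  have hNq : (q : ℤ) < N := by
    have : 1 * (q : ℤ) ≤ (b - 1) * q := mul_le_mul_of_nonneg_right (by omega) hq0.le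
    linarith
  have hNM : N + 2 * q ≤ p * q := by
    have : (b - 1) * (q : ℤ) ≤ (p - 3) * q := mul_le_mul_of_nonneg_right (by omega) hq0.le
    have h2 : ((p : ℤ) - 3) * q = p * q - 3 * q := by ring
    linarith
  have hM : (0 : ℤ) < p * q := by positivity
  have hAk : (p : ℤ) ∣ (N - μ * v) + (μ : ℕ) * v + q := ⟨b1, by rw [hN]; linear_combination hb1⟩
  have hG := tel h (N := N) (k := N - μ * v) (by linarith) (by linarith) (A := μ) (by omega) hAk
  have i1 : ((N - μ * v) + (((μ : ℕ) : ℤ) + 1) * v + q) % (p * q) = p * q + 1 - Θ :=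
    emv_MPairM (c := 0) (by linarith) (by linarith) (by rw [hN]; linear_combination hΘ)
  have i2 : ((N - μ * v) + ((μ : ℕ) : ℤ) * v + q) % (p * q) = N + q :=
    emv_MPairM (c := 0) (by linarith) (by linarith) (by ring)
  rw [i1, i2, if_neg (by linarith), if_neg (by linarith), add_zero, sub_zero] at hG
  have hpN : (p : ℤ) ∣ N - (p - 1) * q := ⟨b1 - q, by rw [hN]; linear_combination hb1⟩
  have a1 : av p q N = -1 := by
    rw [av_eval hp hqp hpq (l := p - 1) (l' := b - 1) (by omega) (by omega) (by omega) (by omega)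
      hpN ⟨0, by rw [hN]; ring⟩, if_neg, if_pos]
    · norm_num
    · rw [hN]; linarith
    · rw [hN]
      intro h2
      have h3 : (b - 1) * (q : ℤ) ≤ (p - 3) * q := mul_le_mul_of_nonneg_right (by omega) hq0.le
      have h4 : ((p : ℤ) - 1) * q = (p - 3) * q + 2 * q := by ring
      linarith
  have hz1 := hμ.z1
  have hz2 := hμ.z2
  obtain ⟨k0, hk0⟩ : ∃ k0 : ℤ, k0 = (((p : ℤ) - b) * μ) % p := ⟨_, rfl⟩
  have hr1' := hμ.r1
  have hr2' := hμ.r2
  have hZμ : Z p q (p - b) Θ μ = q * k0 - μ * Θ := by unfold Z; rw [hk0]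
  rw [← hk0] at hr1' hr2'
  have hk00 : 0 ≤ k0 := by rw [hk0]; exact hr0 μ
  have a2 : av p q (N - Z p q (p - b) Θ μ) = -1 := by
    rw [av_eval hp hqp hpq (l := p - 1 - k0) (l' := b - 1 - k0) (by omega) (by omega) (by omega)
      (by omega) (by
        have : N - Z p q (p - b) Θ μ - (p - 1 - k0) * q = (N - (p - 1) * q) + μ * Θ := by
          rw [hZμ]; ring
        rw [this]
        exact dvd_add hpN (Dvd.dvd.mul_left hpΘ _)) (by
        have : N - Z p q (p - b) Θ μ - 1 - (b - 1 - k0) * q = μ * Θ := by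
          rw [hZμ, hN]; ring
        rw [this]
        exact Dvd.dvd.mul_left hpΘ _), if_neg, if_pos]
    · norm_num
    · rw [hZμ, hN]
      have : 0 ≤ (μ : ℤ) * Θ := by positivity
      linarith
    · rw [hZμ, hN]
      intro h2
      have h3 : (q : ℤ) * k0 ≤ q * (p - b - 1) := mul_le_mul_of_nonneg_left (by omega) hq0.le
      rw [hZμ] at hz1
      have h4 : (q : ℤ) * (p - b - 1) = (p - b) * q - q := by ring
      have h5 : ((p : ℤ) - 1 - k0) * q = (b - 1) * q - q * k0 + (p - b) * q := by ring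
      linarith
  have hterm : ∀ n ∈ range p, (if N - q < ((N - μ * v) + (n : ℤ) * v) % (p * q) ∧
      ((N - μ * v) + (n : ℤ) * v) % (p * q) ≤ N
      then av p q (((N - μ * v) + (n : ℤ) * v) % (p * q)) else 0) =
      (if n = μ then (-1 : ℤ) else 0) + (if n = 0 then (-1 : ℤ) else 0) := by
    intro n hn
    have hn' := mem_range.1 hn
    rcases lt_trichotomy n μ with hlt | heq | hgt
    · obtain ⟨m, hm⟩ : ∃ m : ℕ, n + m = μ := ⟨μ - n, by omega⟩
      obtain ⟨c, hc⟩ := hmv m
      have hx : (N - μ * v) + (n : ℤ) * v = N - Z p q (p - b) Θ m + p * q * (-c) := by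
        rw [← hm]
        push_cast
        linear_combination -hc
      have hm1 : 1 ≤ m := by omega
      have hl := hZlt m hm1
      by_cases hn0 : n = 0
      · have hmμ : m = μ := by omega
        subst hmμ
        have hy := emv_MPairM (M := (p : ℤ) * q) (by linarith) (by linarith) hx
        rw [hy, if_pos ⟨by linarith, by linarith⟩, a2, if_neg (by omega), if_pos hn0, zero_add]
      · have hq' := hμ.hlt m hm1 (by omega)
        rw [if_neg, if_neg (by omega), if_neg hn0, add_zero]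
        rintro ⟨h2, h3⟩
        by_cases hZN : Z p q (p - b) Θ m ≤ N
        · have hy := emv_MPairM (M := (p : ℤ) * q) (by linarith) (by linarith) hx
          rw [hy] at h2
          linarith
        · have hy := emv_MPairM (M := (p : ℤ) * q) (y := N - Z p q (p - b) Θ m + p * q)
            (c := -c - 1) (by linarith) (by linarith) (hx.trans (by ring))
          rw [hy] at h3
          linarith
    · subst heq
      have hy := emv_MPairM (M := (p : ℤ) * q) (x := (N - n * v) + (n : ℤ) * v) (y := N) (c := 0)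
        (by linarith) (by linarith) (by ring)
      rw [hy, if_pos ⟨by linarith, le_rfl⟩, a1, if_pos rfl, if_neg (by omega), add_zero]
    · obtain ⟨m, hm⟩ : ∃ m : ℕ, n = μ + m := ⟨n - μ, by omega⟩
      obtain ⟨c, hc⟩ := hmv m
      have hx : (N - μ * v) + (n : ℤ) * v = N + Z p q (p - b) Θ m + p * q * c := by
        rw [hm]
        push_cast
        linear_combination hc
      have hm1 : 1 ≤ m := by omega
      have hmp : m < p := by omega
      have hl := hZlt m hm1
      have hg := hZgt m hm1 hmp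
      have hne := hZne m hm1 hmp
      have hng := hμ.hneg m hm1 (by omega)
      rw [if_neg, if_neg (by omega), if_neg (by omega), add_zero]
      rintro ⟨h2, h3⟩
      rcases lt_or_gt_of_ne hne with hZ | hZ
      · have hZ2 : Z p q (p - b) Θ m ≤ -q := by
          by_contra h4
          exact hng ⟨by linarith, hZ⟩
        by_cases hZN : 0 ≤ N + Z p q (p - b) Θ m
        · have hy := emv_MPairM (M := (p : ℤ) * q) hZN (by linarith) hx
          rw [hy] at h2
          linarith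
        · have hy := emv_MPairM (M := (p : ℤ) * q) (y := N + Z p q (p - b) Θ m + p * q)
            (c := c - 1) (by linarith) (by linarith) (hx.trans (by ring))
          rw [hy] at h3
          linarith
      · by_cases hZN : N + Z p q (p - b) Θ m < p * q
        · have hy := emv_MPairM (M := (p : ℤ) * q) (by linarith) hZN hx
          rw [hy] at h3
          linarith
        · have hy := emv_MPairM (M := (p : ℤ) * q) (y := N + Z p q (p - b) Θ m - p * q)
            (c := c + 1) (by linarith) (by linarith) (hx.trans (by ring))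
          rw [hy] at h2
          linarith
  rw [sum_congr rfl hterm, sum_add_distrib, sum_ite_eq', sum_ite_eq',
    if_pos (mem_range.2 (by omega)), if_pos (mem_range.2 (by omega))] at hG
  refine ⟨N, N - μ * v, by linarith, by linarith, ?_⟩
  rw [hG]
  norm_num

end Pool.Agent.Helper10.TB
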