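import Pool.Agent.Helper10.TB.Defs

set_option autoImplicit false

/-!
# Combinatorics of a strip

`Z m = q ((c m) % p) - m Θ`, `2 ≤ c ≤ p - 2`, `0 < Θ < q`, `Z m ≠ 0` for `1 ≤ m < p`.
`V+ = {m : 0 < Z m < q}`, `V- = {m : - q < Z m < 0}`; `good e`: no `m ∈ V+` with `1 ≤ m ≤ p - 1 - e`, no `m ∈ V-` with `1 ≤ m ≤ e`.

PROOF.  Let `κ ∈ [1, p-1]` with `c κ ≡ 1 (mod p)`; `Z κ = q - κ Θ < q`; `κ ≠ p - 1` as `c ≠ p - 1`, so `κ ≤ p - 2`.
(1) `V+ ∩ [1, p-1]` empty: `e = 0` is good, and `m = κ`: `κ ∉ V+`, `Z κ < q`, `Z κ ≠ 0`, so `Z κ < 0`.  First alternative (`e + m < p`).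
(2) Otherwise let `μ` be the least element of `V+`, `1 ≤ μ ≤ p - 1`.  From the given good `e0`: `μ ≥ p - e0`, i.e. `e0 ≥ p - μ`, and every `ν ∈ V-` has
`ν > e0 ≥ p - μ`.  So `e1 := p - μ` is good (`e1 < p`): `m ≤ p - 1 - e1 = μ - 1` is not in `V+`, `m ≤ e1` is not in `V-`.
 If some `1 ≤ m < μ` has `Z m < 0`: first alternative with `e1`, `m` (`e1 + m < p`).  So assume `Z m > 0`, hence `Z m ≥ q` for all `1 ≤ m < μ`.
 Then `κ ≥ μ` (`Z κ < q`), so `μ ≤ p - 2`.  `μ ≥ 2`: `Z 1 = q c - Θ > q`.  Let `k = (c μ) % p`, `1 ≤ k`.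
 `k ≠ c` because `μ ≠ 1` (`p ∤ c (μ - 1)`).
 If `k > c`: `(c (μ-1)) % p = k - c`, `Z (μ-1) = Z μ - q c + Θ < q - 2 q + q = 0`, contradiction (`1 ≤ μ - 1 < μ`).  So `k < c`.
 If `k ≤ p - c - 1`: second alternative (`hneg`: `m + μ < p` means `m < p - μ = e1`, fine as `e1` is good).
 If `k ≥ p - c`: `k + c ≠ p` (as `p ∤ c (μ+1)`, `μ + 1 < p`), `(c (μ+1)) % p = k + c - p`, `Z (μ+1) = Z μ - q (p - c) - Θ < q - 2 q - Θ < - q`.
   If `μ + 1 ≤ p - μ`: first alternative with `e1` and `m = μ + 1 ≤ e1`.  Otherwise `e2 := μ + 1 > p - μ`, `e2 < p`; `e2` is good: `m ≤ p - 1 - e2 < μ - 1` is not in `V+`;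
   `m ≤ μ + 1` is not in `V-`: `m < μ`: `Z m ≥ q`; `m = μ`: `Z μ > 0`; `m = μ+1`: `Z < -q`.  First alternative with `e2`, `m = μ + 1 ≤ e2`.
-/

namespace Pool.Agent.Helper10.TB

private theorem exists_kappa_MSC {p : ℕ} {c : ℤ} (hp : p.Prime) (hc2 : 2 ≤ c)
    (hcp : c ≤ p - 2) : ∃ κ : ℕ, 1 ≤ κ ∧ κ + 2 ≤ p ∧ (c * κ) % p = 1 := by
  have hcop : IsCoprime (p : ℤ) c := by
    rw [Prime.coprime_iff_not_dvd (Nat.prime_iff_prime_int.1 hp)]
    intro h
    have := Int.le_of_dvd (by omega) h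
    omega
  obtain ⟨a, b, hab⟩ := hcop
  have hpI : (0 : ℤ) < p := by omega
  have hb0 : 0 ≤ b % p := Int.emod_nonneg _ (by omega)
  have hbp : b % p < p := Int.emod_lt_of_pos _ hpI
  have hmod : (c * (b % p)) % p = 1 := by
    have h1 : c * b = 1 + p * (-a) := by linarith
    rw [Int.mul_emod, Int.emod_emod_of_dvd _ (dvd_refl _), ← Int.mul_emod, h1,
      Int.add_mul_emod_self_left, Int.emod_eq_of_lt (by omega) (by omega)]
  have hκ : (((b % p).toNat : ℕ) : ℤ) = b % p := Int.toNat_of_nonneg hb0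
  refine ⟨(b % p).toNat, ?_, ?_, by rw [hκ]; exact hmod⟩
  · by_contra h
    have h1 : b % p = 0 := by omega
    rw [h1, mul_zero, Int.zero_emod] at hmod
    omega
  · by_contra h
    have h1 : b % p = p - 1 := by omega
    have h2 : c * (b % p) = (p - c) + p * (c - 1) := by rw [h1]; ring
    rw [h2, Int.add_mul_emod_self_left, Int.emod_eq_of_lt (by omega) (by omega)] at hmod
    omega

theorem sc {p q : ℕ} {c Θ : ℤ} (hp : p.Prime) (h5 : 5 ≤ p) (hc2 : 2 ≤ c) (hcp : c ≤ p - 2)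
    (h0 : 0 < Θ) (hq : Θ < q) (hZ : ∀ m : ℕ, 1 ≤ m → m < p → Z p q c Θ m ≠ 0)
    (hgap : ∃ e : ℕ, e < p ∧ good p q c Θ e) :
    (∃ e m : ℕ, e < p ∧ good p q c Θ e ∧ 1 ≤ m ∧ m < p ∧ (m ≤ e ∨ e + m < p) ∧ Z p q c Θ m < 0) ∨
    (∃ μ : ℕ, PairH p q c Θ μ) := by
  obtain ⟨e0, he0, hg0⟩ := hgap
  have hpI : (5 : ℤ) ≤ p := by exact_mod_cast h5
  have hpp : Prime (p : ℤ) := Nat.prime_iff_prime_int.1 hp
  have hpc : ¬ (p : ℤ) ∣ c := fun h => by
    have := Int.le_of_dvd (by omega) h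
    omega
  have hpm : ∀ m : ℤ, 0 < m → m < p → ¬ (p : ℤ) ∣ m := fun m h1 h2 h => by
    have := Int.le_of_dvd h1 h
    omega
  obtain ⟨κ, hκ1, hκp, hκ⟩ := exists_kappa_MSC hp hc2 hcp
  have hZκ : Z p q c Θ κ = q - κ * Θ := by unfold Z; rw [hκ]; ring
  have hZκq : Z p q c Θ κ < q := by
    rw [hZκ]
    have : 0 < (κ : ℤ) * Θ := mul_pos (by exact_mod_cast hκ1) h0
    omega
  by_cases hV : ∀ m : ℕ, 1 ≤ m → m < p → ¬ (0 < Z p q c Θ m ∧ Z p q c Θ m < q)
  · left
    refine ⟨0, κ, by omega, ⟨fun m h1 h2 => hV m h1 (by omega), fun m h1 h2 => by omega⟩,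
      hκ1, by omega, Or.inr (by omega), ?_⟩
    have h1 := hV κ hκ1 (by omega)
    have h2 := hZ κ hκ1 (by omega)
    omega
  · push Not at hV
    have hex : ∃ m : ℕ, 1 ≤ m ∧ m < p ∧ 0 < Z p q c Θ m ∧ Z p q c Θ m < q := hV.imp
      (fun m hm => ⟨hm.1, hm.2.1, hm.2.2.1, hm.2.2.2⟩)
    classical
    obtain ⟨μ, ⟨hμ1, hμp, hz1, hz2⟩, hmin⟩ : ∃ μ : ℕ, (1 ≤ μ ∧ μ < p ∧ 0 < Z p q c Θ μ ∧
        Z p q c Θ μ < q) ∧ ∀ m : ℕ, 1 ≤ m → m < μ → ¬ (0 < Z p q c Θ m ∧ Z p q c Θ m < q) :=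
      ⟨Nat.find hex, Nat.find_spec hex, fun m h1 h2 h3 =>
        Nat.find_min hex h2 ⟨h1, lt_trans h2 (Nat.find_spec hex).2.1, h3⟩⟩
    have he0μ : p ≤ e0 + μ := by
      by_contra h
      exact hg0.1 μ hμ1 (by omega) ⟨hz1, hz2⟩
    have hge1 : good p q c Θ (p - μ) :=
      ⟨fun m h1 h2 => hmin m h1 (by omega), fun m h1 h2 => hg0.2 m h1 (by omega)⟩
    by_cases hneg : ∃ m : ℕ, 1 ≤ m ∧ m < μ ∧ Z p q c Θ m < 0
    · obtain ⟨m, h1, h2, h3⟩ := hneg
      left
      exact ⟨p - μ, m, by omega, hge1, h1, by omega, Or.inr (by omega), h3⟩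
    · push Not at hneg
      have hlt : ∀ m : ℕ, 1 ≤ m → m < μ → (q : ℤ) ≤ Z p q c Θ m := fun m h1 h2 => by
        have h3 := hneg m h1 h2
        have h4 := hmin m h1 h2
        have h5 := hZ m h1 (by omega)
        omega
      have hμκ : μ ≤ κ := by
        by_contra h
        have := hlt κ hκ1 (by omega)
        omega
      have hμ2 : 2 ≤ μ := by
        by_contra h
        have h1 : μ = 1 := by omega
        subst h1
        unfold Z at hz2
        rw [Nat.cast_one, mul_one, Int.emod_eq_of_lt (by omega) (by omega)] at hz2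
        nlinarith
      set k : ℤ := (c * μ) % p with hk
      have hk0 : 0 ≤ k := Int.emod_nonneg _ (by omega)
      have hkp : k < p := Int.emod_lt_of_pos _ (by omega)
      obtain ⟨t, ht⟩ : ∃ t : ℤ, c * μ = p * t + k :=
        ⟨(c * μ) / p, (Int.mul_ediv_add_emod (c * μ) p).symm⟩
      have hZμ : Z p q c Θ μ = q * k - μ * Θ := rfl
      have hkne0 : k ≠ 0 := fun h => by
        rw [h, add_zero] at ht
        rcases hpp.dvd_or_dvd ⟨t, ht⟩ with h1 | h1
        · exact hpc h1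
        · exact hpm μ (by omega) (by omega) h1
      have hkc : k ≠ c := fun h => by
        have h2 : c * ((μ : ℤ) - 1) = p * t := by rw [h] at ht; linarith
        rcases hpp.dvd_or_dvd ⟨t, h2⟩ with h1 | h1
        · exact hpc h1
        · exact hpm _ (by omega) (by omega) h1
      have hkcp : k + c ≠ p := fun h => by
        have h2 : c * ((μ : ℤ) + 1) = p * (t + 1) := by rw [← h] at ht ⊢; linarith
        rcases hpp.dvd_or_dvd ⟨t + 1, h2⟩ with h1 | h1
        · exact hpc h1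
        · exact hpm _ (by omega) (by omega) h1
      have hq0 : (0 : ℤ) < q := by omega
      have hklt : k < c := by
        by_contra h
        have h1 : c < k := by omega
        have h2 : (c * ((μ - 1 : ℕ) : ℤ)) % p = k - c := by
          have h3 : ((μ - 1 : ℕ) : ℤ) = μ - 1 := by omega
          have h4 : c * ((μ - 1 : ℕ) : ℤ) = (k - c) + p * t := by rw [h3]; linarith
          rw [h4, Int.add_mul_emod_self_left, Int.emod_eq_of_lt (by omega) (by omega)]
        have h3 := hlt (μ - 1) (by omega) (by omega)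
        unfold Z at h3
        rw [h2] at h3
        have h4 : ((μ - 1 : ℕ) : ℤ) = μ - 1 := by omega
        rw [h4] at h3
        rw [hZμ] at hz2
        nlinarith
      by_cases hr2 : k ≤ p - c - 1
      · right
        exact ⟨μ, ⟨hμ2, by omega, hz1, hz2, hlt, fun m h1 h2 => hge1.2 m h1 (by omega), hklt,
          hr2⟩⟩
      · left
        have h2 : (c * ((μ + 1 : ℕ) : ℤ)) % p = k + c - p := by
          have h4 : c * ((μ + 1 : ℕ) : ℤ) = (k + c - p) + p * (t + 1) := by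
            push_cast
            linarith
          rw [h4, Int.add_mul_emod_self_left, Int.emod_eq_of_lt (by omega) (by omega)]
        have h3 : Z p q c Θ (μ + 1) < -q := by
          unfold Z
          rw [h2]
          rw [hZμ] at hz2
          push_cast
          nlinarith
        by_cases h4 : μ + 1 ≤ p - μ
        · exact ⟨p - μ, μ + 1, by omega, hge1, by omega, by omega, Or.inl h4, by omega⟩
        · refine ⟨μ + 1, μ + 1, by omega, ⟨fun m h5 h6 => hmin m h5 (by omega),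
            fun m h5 h6 h7 => ?_⟩, by omega, by omega, Or.inl le_rfl, by omega⟩
          rcases lt_trichotomy m μ with h8 | h8 | h8
          · have := hlt m h5 h8
            omega
          · subst h8
            omega
          · have h9 : m = μ + 1 := by omega
            subst h9
            omega

end Pool.Agent.Helper10.TB
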