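import Pool.Agent.Helper10.TB.MSideI
import Pool.Agent.Helper10.TB.MGap
import Pool.Agent.Helper10.TB.MSC
import Pool.Agent.Helper10.TB.MPairM

set_option autoImplicit false

/-!
# The strip `0 < Θ < q`, `v + Θ = (p - b) q`

PROOF.  `c = p - b`, `2 ≤ c ≤ p - 2`, `m v = m c q - m Θ ≡ Z m (mod p q)` with `Z = Z p q c Θ`, and `- p q + q < Z m < p q - q`, `Z m ≠ 0` for `1 ≤ m < p`
(`q ∤ Θ` because `q ∤ v`).
(a) For `e < p`: `gapok p q v (p - 1 - e) ↔ good p q c Θ e`: with `e* = p - 1 - e`: for `n = e* + m` (`m ≤ e`): `((e* - n) v) % (p q) = (- Z m) % (p q) < q` iff `- q < Z m < 0`;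
for `n = e* - m` (`m ≤ p - 1 - e`): `((e* - n) v) % (p q) = (Z m) % (p q) < q` iff `0 < Z m < q`.
(b) `gap_exists` gives the hypothesis of `sc` (with `c`).  Second alternative of `sc`: `pairM`.
First alternative: `e` good, `e* = p - 1 - e`, `Z m < 0`, `1 ≤ m < p`.  `(m v) % (p q) = Z m + p q > q ((c m) % p) = q (p - (b m) % p)`.
 * `e + m < p`, i.e. `m ≤ e*`: `sideIN` (left alternative; `q < v = c q - Θ` as `c ≥ 2`).
 * `m ≤ e`, i.e. `e* + m < p`: `good` gives `Z m ≤ - q`, so `(m v) % (p q) ≤ p q - q`: `sideIP`.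
`v + b q = p q - Θ < p q`.
-/

namespace Pool.Agent.Helper10.TB

/-- basic facts about `Z` -/
private theorem zfacts_MStripCm {p q : ℕ} {b v Θ : ℤ} (h : H p q b v) (hΘ : v + Θ = (p - b) * q)
    (h0 : 0 < Θ) (hq : Θ < q) (m : ℕ) (hm : 1 ≤ m) (hmp : m < p) :
    (∃ t : ℤ, (m : ℤ) * v = Z p q (p - b) Θ m + (p * q) * t) ∧
    -((p : ℤ) * q) + q < Z p q (p - b) Θ m ∧ Z p q (p - b) Θ m < p * q - q ∧
    Z p q (p - b) Θ m ≠ 0 ∧ (((p : ℤ) - b) * m) % p = p - (b * m) % p ∧
    (m : ℤ) * Θ < p * q := by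
  have hp0 : (0 : ℤ) < p := by exact_mod_cast h.hp.pos
  have hq0 : (0 : ℤ) < q := by exact_mod_cast h.hq.pos
  have hpp : Prime (p : ℤ) := Nat.prime_iff_prime_int.1 h.hp
  have hqq : Prime (q : ℤ) := Nat.prime_iff_prime_int.1 h.hq
  have hm' : (1 : ℤ) ≤ m := by exact_mod_cast hm
  have hmp' : (m : ℤ) ≤ p - 1 := by
    have : (m : ℤ) < p := by exact_mod_cast hmp
    omega
  have hpq' : (p : ℤ) < q := by exact_mod_cast h.hpq
  have hb2 := h.hb2
  have hbp := h.hbp
  have hpm : ¬ (p : ℤ) ∣ m := fun hd => by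
    have := Int.le_of_dvd (by omega) hd
    omega
  have hpb : ¬ (p : ℤ) ∣ b := fun hd => by
    have := Int.le_of_dvd (by omega) hd
    omega
  have hpbm : ¬ (p : ℤ) ∣ b * m := fun hd => (hpp.dvd_or_dvd hd).elim hpb hpm
  have hr0 : 0 ≤ (b * m) % (p : ℤ) := Int.emod_nonneg _ hp0.ne'
  have hr1 : (b * m) % (p : ℤ) < p := Int.emod_lt_of_pos _ hp0
  have hrne : (b * m) % (p : ℤ) ≠ 0 := fun h1 => hpbm (Int.dvd_of_emod_eq_zero h1)
  have hcm : (((p : ℤ) - b) * m) % p = p - (b * m) % p := by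
    have e1 : ((p : ℤ) - b) * m = (p - (b * m) % p) + p * (m - 1 - (b * m) / p) := by
      have := Int.emod_add_mul_ediv (b * m) (p : ℤ)
      linear_combination this
    rw [e1, Int.add_mul_emod_self_left]
    exact Int.emod_eq_of_lt (by omega) (by omega)
  have hmt : (m : ℤ) * Θ ≤ (p - 1) * (q - 1) := by
    have h1 : (m : ℤ) * Θ ≤ (p - 1) * Θ := by nlinarith
    have h2 : ((p : ℤ) - 1) * Θ ≤ (p - 1) * (q - 1) := by nlinarith
    linarith
  have hmt0 : 0 < (m : ℤ) * Θ := by positivity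
  have hzdef : Z p q (p - b) Θ m = q * (p - (b * m) % p) - m * Θ := by
    unfold Z
    rw [hcm]
  set r : ℤ := (b * m) % p with hr
  have hr2 : 1 ≤ r := by omega
  have hqr : (q : ℤ) * 1 ≤ q * r := mul_le_mul_of_nonneg_left hr2 hq0.le
  have hqr2 : (q : ℤ) * r ≤ q * (p - 1) := mul_le_mul_of_nonneg_left (by omega) hq0.le
  refine ⟨⟨(((p : ℤ) - b) * m) / p, ?_⟩, ?_, ?_, ?_, hcm, ?_⟩
  · have h1 := Int.emod_add_mul_ediv (((p : ℤ) - b) * m) (p : ℤ)
    unfold Z
    have h2 : v = (p - b) * q - Θ := by linarith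
    rw [h2]
    linear_combination (-(q : ℤ)) * h1
  · rw [hzdef]; nlinarith
  · rw [hzdef]; nlinarith
  · rw [hzdef]
    intro h1
    have h2 : (q : ℤ) ∣ m * Θ := ⟨p - r, by linarith⟩
    rcases hqq.dvd_or_dvd h2 with h3 | h3
    · have := Int.le_of_dvd (by omega) h3
      omega
    · have := Int.le_of_dvd h0 h3
      omega
  · nlinarith

/-- residues -/
private theorem emod_MStripCm {M x y t : ℤ} (h : x = y + M * t) (h1 : -M < y) (h2 : y < M)
    (h3 : y ≠ 0) : (0 < y ∧ x % M = y) ∨ (y < 0 ∧ x % M = y + M) := by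
  have hM : 0 < M := by linarith
  rcases lt_or_gt_of_ne h3 with h4 | h4
  · right
    refine ⟨h4, ?_⟩
    have e : x = (y + M) + M * (t - 1) := by rw [h]; ring
    rw [e, Int.add_mul_emod_self_left]
    exact Int.emod_eq_of_lt (by linarith) (by linarith)
  · left
    refine ⟨h4, ?_⟩
    rw [h, Int.add_mul_emod_self_left]
    exact Int.emod_eq_of_lt h4.le h2

theorem stripCm {p q : ℕ} {b v Θ : ℤ} (h : H p q b v) (hΘ : v + Θ = (p - b) * q)
    (h0 : 0 < Θ) (hq : Θ < q) : VV p q v := by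
  have hp0 : (0 : ℤ) < p := by exact_mod_cast h.hp.pos
  have hq0 : (0 : ℤ) < q := by exact_mod_cast h.hq.pos
  have h11 : (11 : ℤ) ≤ p := by exact_mod_cast h.h11
  have hb2 := h.hb2
  have hbp := h.hbp
  have hpq2 : (q : ℤ) ≤ p * q := by nlinarith
  have key := zfacts_MStripCm h hΘ h0 hq
  -- left neighbours
  have hL : ∀ m : ℕ, 1 ≤ m → m < p →
      ((q : ℤ) ≤ ((m : ℤ) * v) % (p * q) ↔
        ¬ (0 < Z p q (p - b) Θ m ∧ Z p q (p - b) Θ m < q)) := by
    intro m hm hmp
    obtain ⟨⟨t, ht⟩, k1, k2, k3, -, -⟩ := key m hm hmp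
    rcases emod_MStripCm ht (by linarith) (by linarith) k3 with ⟨s1, s2⟩ | ⟨s1, s2⟩
    · rw [s2]
      constructor
      · rintro h1 ⟨-, h2⟩
        linarith
      · intro h1
        by_contra h2
        exact h1 ⟨s1, by linarith⟩
    · rw [s2]
      constructor
      · rintro - ⟨h2, -⟩
        linarith
      · intro _
        linarith
  have hR : ∀ m : ℕ, 1 ≤ m → m < p →
      ((q : ℤ) ≤ (-(m : ℤ) * v) % (p * q) ↔
        ¬ (-(q : ℤ) < Z p q (p - b) Θ m ∧ Z p q (p - b) Θ m < 0)) := by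
    intro m hm hmp
    obtain ⟨⟨t, ht⟩, k1, k2, k3, -, -⟩ := key m hm hmp
    have ht' : -(m : ℤ) * v = -(Z p q (p - b) Θ m) + (p * q) * (-t) := by linarith
    rcases emod_MStripCm ht' (by linarith) (by linarith) (neg_ne_zero.2 k3) with
      ⟨s1, s2⟩ | ⟨s1, s2⟩
    · rw [s2]
      constructor
      · rintro h1 ⟨h2, -⟩
        linarith
      · intro h1
        by_contra h2
        exact h1 ⟨by linarith, by linarith⟩
    · rw [s2]
      constructor
      · rintro - ⟨-, h2⟩
        linarith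
      · intro _
        linarith
  -- gapok and good
  have hgg : ∀ e e' : ℕ, e + e' + 1 = p → (gapok p q v e' ↔ good p q (p - b) Θ e) := by
    intro e e' hee
    constructor
    · intro hg
      refine ⟨fun m hm hm2 => ?_, fun m hm hm2 => ?_⟩
      · rw [← hL m hm (by omega)]
        have h1 := hg (e' - m) (by omega) (by omega)
        have h2 : (((e' : ℕ) : ℤ) - ((e' - m : ℕ) : ℤ)) = m := by
          rw [Nat.cast_sub (by omega)]
          ring
        rw [h2] at h1
        exact h1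
      · rw [← hR m hm (by omega)]
        have h1 := hg (e' + m) (by omega) (by omega)
        have h2 : (((e' : ℕ) : ℤ) - ((e' + m : ℕ) : ℤ)) = -(m : ℤ) := by
          push_cast
          ring
        rw [h2] at h1
        exact h1
    · rintro ⟨g1, g2⟩ n hn hne
      rcases lt_or_gt_of_ne hne with h1 | h1
      · obtain ⟨m, rfl⟩ : ∃ m, e' = n + m := ⟨e' - n, by omega⟩
        have h2 : (((n + m : ℕ) : ℤ) - (n : ℤ)) = m := by
          push_cast
          ring
        rw [h2]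
        exact (hL m (by omega) (by omega)).2 (g1 m (by omega) (by omega))
      · obtain ⟨m, rfl⟩ : ∃ m, n = e' + m := ⟨n - e', by omega⟩
        have h2 : (((e' : ℕ) : ℤ) - ((e' + m : ℕ) : ℤ)) = -(m : ℤ) := by
          push_cast
          ring
        rw [h2]
        exact (hR m (by omega) (by omega)).2 (g2 m (by omega) (by omega))
  have hgap : ∃ e : ℕ, e < p ∧ good p q (p - b) Θ e := by
    obtain ⟨e', he', hg⟩ := gap_exists h
    exact ⟨p - 1 - e', by omega, (hgg (p - 1 - e') e' (by omega)).1 hg⟩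
  have hI : v + b * q < p * q := by
    have : v + b * q = p * q - Θ := by linarith
    linarith
  have hqv : (q : ℤ) < v := by
    have h1 : (2 : ℤ) * q ≤ (p - b) * q := by nlinarith
    linarith
  rcases sc h.hp (by have := h.h11; omega) (by omega) (by omega) h0 hq
    (fun m hm hmp => (key m hm hmp).2.2.2.1) hgap with ⟨e, m, hep, hge, hm, hmp, hor, hneg⟩ | ⟨μ, hμ⟩
  · have hg := (hgg e (p - 1 - e) (by omega)).2 hge
    obtain ⟨⟨t, ht⟩, k1, k2, k3, k4, k5⟩ := key m hm hmp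
    have hmod : ((m : ℤ) * v) % (p * q) = Z p q (p - b) Θ m + p * q := by
      rcases emod_MStripCm ht (by linarith) (by linarith) k3 with ⟨s1, s2⟩ | ⟨s1, s2⟩
      · linarith
      · exact s2
    have hx : (q : ℤ) * (p - (b * m) % p) < ((m : ℤ) * v) % (p * q) := by
      rw [hmod, ← k4]
      unfold Z
      linarith
    rcases hor with hor | hor
    · have h1 : Z p q (p - b) Θ m ≤ -(q : ℤ) := by
        by_contra h2
        exact hge.2 m hm hor ⟨by linarith, hneg⟩
      exact sideIP h hI hg hm (by omega) hx (by rw [hmod]; linarith)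
    · exact sideIN h hI hqv (by omega) hg hm (by omega) (Or.inl hx)
  · exact pairM h hΘ h0 hq hμ

end Pool.Agent.Helper10.TB
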