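import Pool.Agent.Helper10.TB.MTel

set_option autoImplicit false

/-!
# The pair test, `v + b q = Θ + p q`

PROOF.  `c = b`.  `e = p - 1 - μ` (`1 ≤ e`), `e' = e + μ = p - 1`, `N = q (p - b - 1) < p q - q`, `k = N - e v`, `A = e - 1` (`A + 1 = e < p`).
Put `y_n = (k + n v) % (p q)`, `k0 = (b μ) % p < b`, `k0 ≤ p - b - 1`.
`p ∣ k + A v + q = N - v + q`: `N - v + q ≡ - q b - 1 ≡ 0` (`N ≡ - q b - q`, `v ≡ 1`).  ✓
`y_e = N`.  For `n = e + m`, `m ≥ 1`: `N - y_n ≡ - m v ≡ m b q - m Θ ≡ Z m (mod p q)`;  for `n = e - m`: `N - y_n ≡ m v ≡ - Z m`.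
`N - q < y_n ≤ N` iff `(N - y_n) % (p q) < q` (as `0 ≤ y_n < p q`, `N < p q - q`; indeed `y_n > N` gives `(N - y_n) % (p q) = N - y_n + p q > q`... if `y_n < p q`:
`N - y_n + p q > N ≥ q`, because `b ≤ p - 2`).  `Z m ∈ (- p q + q, p q - q)` for `1 ≤ m < p`, `Z m ≠ 0`, so for `m ≤ p - 1 - e = μ`: `(Z m) % (p q) < q` iff `0 < Z m < q` iff `m = μ` (`hlt`, `z1`, `z2`), and
for `m ≤ e = p - 1 - μ`: `(- Z m) % (p q) < q` iff `- q < Z m < 0`: never (`hneg`).  So the sum in `tel` has exactly the terms `n = e, e'` (`μ ≥ 1`).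
* `av y_e = 1`: `av_eval` with `l = p - b - 1`, `l' = p - 1`: `N - l q = 0`; `N - 1 - l' q = - b q - 1` divisible by `p`; `l q ≤ N`, `l' q > N`.
* `y_{e'} = N - Z μ` (`≥ 0`, see below), `av y_{e'} = 1`: `l = p - b - 1 - k0 ≥ 0`, `l' = p - 1 - k0`: `y_{e'} = q (p - b - 1) - q k0 + μ Θ = q l + μ Θ ≥ q l`;
  `p ∣ y_{e'} - l q = μ Θ` (`p ∣ Θ` since `Θ = v + b q - p q ≡ 1 + b q ≡ 0`); `y_{e'} - 1 - l' q = μ Θ - 1 - b q` divisible by `p`; `l' q > y_{e'}` iff `b q > μ Θ`, true since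
  `μ Θ < q k0 < q b` (`z1`).
* `y'_{A+1} = (N + q) % (p q) = N + q > N`; `y'_A = (N - v + q) % (p q)`: `v - q = q (p - b - 1) + Θ = N + Θ`, so `N - v + q = - Θ`, `y'_A = p q - Θ > N`.
So `G = 2`.
-/

namespace Pool.Agent.Helper10.TB

open Finset Pool.Agent.Helper55.FT

private theorem cond_MPairP {N z M Q : ℤ} (hNQ : N < M - Q) (hM : 0 < M)
    (h1 : -M + Q < z) (h2 : z < M) (hc1 : N - Q < (N - z) % M)
    (hc2 : (N - z) % M ≤ N) : 0 ≤ z ∧ z < Q := by
  have e1 : (N - z) % M + M * ((N - z) / M) = N - z := Int.emod_add_mul_ediv _ _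
  set t := (N - z) / M with ht
  set y := (N - z) % M with hy
  have hy0 : 0 ≤ y := Int.emod_nonneg _ hM.ne'
  rcases lt_trichotomy t 0 with h | h | h
  · exfalso
    have : M * t ≤ M * (-1) := mul_le_mul_of_nonneg_left (by omega) hM.le
    linarith
  · rw [h, mul_zero] at e1
    constructor <;> linarith
  · exfalso
    have : M * 1 ≤ M * t := mul_le_mul_of_nonneg_left (by omega) hM.le
    linarith

private theorem zb_MPairP {p q : ℕ} {b v Θ : ℤ} (h : H p q b v)
    (h0 : 0 < Θ) (hq : Θ < q) {m : ℕ} (hm1 : 1 ≤ m) (hm2 : m < p) :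
    -((p : ℤ) * q) + q < Z p q b Θ m ∧ Z p q b Θ m < (p : ℤ) * q - q ∧ Z p q b Θ m ≠ 0 := by
  have hp := h.hp
  have hP : (0 : ℤ) < p := by exact_mod_cast hp.pos
  have hQ : (0 : ℤ) < q := by exact_mod_cast h.hq.pos
  have hr0 : 0 ≤ (b * m) % (p : ℤ) := Int.emod_nonneg _ hP.ne'
  have hr1 : (b * m) % (p : ℤ) < p := Int.emod_lt_of_pos _ hP
  have hpi : Prime (p : ℤ) := Nat.prime_iff_prime_int.mp hp
  have hqi : Prime (q : ℤ) := Nat.prime_iff_prime_int.mp h.hq
  have hrne : (b * m) % (p : ℤ) ≠ 0 := by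
    intro hz
    have hd : (p : ℤ) ∣ b * m := Int.dvd_of_emod_eq_zero hz
    rcases hpi.dvd_or_dvd hd with hd | hd
    · have := Int.le_of_dvd (by linarith [h.hb2]) hd
      linarith [h.hbp]
    · have := Int.le_of_dvd (by exact_mod_cast hm1) hd
      have : p ≤ m := by exact_mod_cast this
      omega
  have hr2 : 1 ≤ (b * m) % (p : ℤ) := by omega
  have hm1' : (1 : ℤ) ≤ m := by exact_mod_cast hm1
  have hm2' : (m : ℤ) ≤ p - 1 := by
    have : (m : ℤ) < p := by exact_mod_cast hm2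
    linarith
  set r := (b * m) % (p : ℤ) with hr
  have a1 : (q : ℤ) * 1 ≤ q * r := mul_le_mul_of_nonneg_left hr2 hQ.le
  have a2 : (q : ℤ) * r ≤ q * (p - 1) := mul_le_mul_of_nonneg_left (by linarith) hQ.le
  have a3 : (m : ℤ) * Θ ≤ (p - 1) * Θ := mul_le_mul_of_nonneg_right hm2' h0.le
  have a4 : ((p : ℤ) - 1) * Θ ≤ (p - 1) * q := mul_le_mul_of_nonneg_left hq.le (by
    have : (11 : ℤ) ≤ p := by exact_mod_cast h.h11
    linarith)
  have a5 : 1 * Θ ≤ (m : ℤ) * Θ := mul_le_mul_of_nonneg_right hm1' h0.le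
  unfold Z
  rw [← hr]
  refine ⟨by nlinarith, by nlinarith, ?_⟩
  intro hz
  have hd : (q : ℤ) ∣ m * Θ := ⟨r, by linarith⟩
  rcases hqi.dvd_or_dvd hd with hd | hd
  · have := Int.le_of_dvd (by linarith) hd
    have hpq : (p : ℤ) < q := by exact_mod_cast h.hpq
    linarith
  · have := Int.le_of_dvd h0 hd
    linarith

theorem pairP {p q : ℕ} {b v Θ : ℤ} (h : H p q b v) (hΘ : v + b * q = Θ + p * q)
    (h0 : 0 < Θ) (hq : Θ < q) {μ : ℕ} (hμ : PairH p q b Θ μ) : VV p q v := by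
  have hp := h.hp
  have hP11 : (11 : ℤ) ≤ p := by exact_mod_cast h.h11
  have hP : (0 : ℤ) < p := by linarith
  have hQ : (0 : ℤ) < q := by exact_mod_cast h.hq.pos
  have hb2 := h.hb2
  have hbp := h.hbp
  have hμ1 := hμ.h1
  have hμ2 := hμ.h2
  obtain ⟨e, he⟩ : ∃ e : ℕ, e + 1 + μ = p := ⟨p - 1 - μ, by omega⟩
  obtain ⟨A, hA⟩ : ∃ A : ℕ, A + 1 = e := ⟨e - 1, by omega⟩
  have heZ : (e : ℤ) + 1 + μ = p := by exact_mod_cast he
  have hAZ : (A : ℤ) + 1 = e := by exact_mod_cast hA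
  have hM : (0 : ℤ) < (p : ℤ) * q := mul_pos hP hQ
  have hΘp : (p : ℤ) ∣ Θ := by
    have : Θ = (v - 1) + (b * q + 1) - p * q := by linarith
    rw [this]
    exact dvd_sub (dvd_add h.hvp h.hbq) (dvd_mul_right _ _)
  have t1 : (q : ℤ) * 1 ≤ q * (p - b - 1) := mul_le_mul_of_nonneg_left (by linarith) hQ.le
  have t2 : (q : ℤ) * (p - b - 1) ≤ q * (p - 3) := mul_le_mul_of_nonneg_left (by linarith) hQ.le
  set N : ℤ := q * (p - b - 1) with hN
  have hN0 : 0 ≤ N := by linarith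
  have hNM : N < (p : ℤ) * q - q := by nlinarith
  set k : ℤ := N - e * v with hk
  have hAk : (p : ℤ) ∣ k + A * v + q := by
    have : k + A * v + q = p * q - (b * q + 1) - (v - 1) := by
      rw [hk, hN, ← hAZ]; ring
    rw [this]
    exact dvd_sub (dvd_sub (dvd_mul_right _ _) h.hbq) h.hvp
  have hT := tel h hN0 hNM (k := k) (A := A) (by omega) hAk
  have hv : v = Θ + p * q - b * q := by linarith
  -- the two boundary terms
  have b1 : (k + (A + 1) * v + q) % ((p : ℤ) * q) = N + q := by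
    have : k + ((A : ℤ) + 1) * v + q = N + q := by rw [hk, hAZ]; ring
    rw [this]
    exact Int.emod_eq_of_lt (by linarith) (by linarith)
  have b2 : (k + A * v + q) % ((p : ℤ) * q) = p * q - Θ := by
    have : k + (A : ℤ) * v + q = (p * q - Θ) + (p * q) * (-1) := by
      rw [hk, hN, ← hAZ]
      linear_combination -hv
    rw [this, Int.add_mul_emod_self_left]
    exact Int.emod_eq_of_lt (by nlinarith) (by linarith)
  rw [if_neg (by rw [b1]; linarith), if_neg (by rw [b2]; linarith)] at hT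
  -- points to the right
  have key1 : ∀ m : ℕ, (N + (m : ℤ) * v) % ((p : ℤ) * q) = (N - Z p q b Θ m) % ((p : ℤ) * q) := by
    intro m
    have hd : (b * m) % (p : ℤ) + p * ((b * m) / p) = b * m := Int.emod_add_mul_ediv _ _
    have : N + (m : ℤ) * v = (N - Z p q b Θ m) + (p * q) * (m - (b * m) / p) := by
      unfold Z
      linear_combination (m : ℤ) * hv + (q : ℤ) * hd
    rw [this, Int.add_mul_emod_self_left]
  have key2 : ∀ m : ℕ, (N - (m : ℤ) * v) % ((p : ℤ) * q) =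
      (N - (- Z p q b Θ m)) % ((p : ℤ) * q) := by
    intro m
    have hd : (b * m) % (p : ℤ) + p * ((b * m) / p) = b * m := Int.emod_add_mul_ediv _ _
    have : N - (m : ℤ) * v = (N - (- Z p q b Θ m)) + (p * q) * (-(m - (b * m) / p)) := by
      unfold Z
      linear_combination -(m : ℤ) * hv - (q : ℤ) * hd
    rw [this, Int.add_mul_emod_self_left]
  -- the two terms of the sum
  have v1 : av p q N = 1 := by
    rw [av_eval hp h.hq h.hpq (l := p - b - 1) (l' := p - 1) (by linarith) (by linarith)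
      (by linarith) (by linarith) ⟨0, by rw [hN]; ring⟩
      (by
        have : N - 1 - ((p : ℤ) - 1) * q = -(b * q + 1) := by rw [hN]; ring
        rw [this]
        exact (dvd_neg).2 h.hbq)]
    rw [if_pos (by rw [hN]; exact le_of_eq (by ring)), if_neg (by rw [hN]; nlinarith)]
    ring
  have hk0 : 0 ≤ (b * μ) % (p : ℤ) := Int.emod_nonneg _ hP.ne'
  have hk1 : (b * μ) % (p : ℤ) < p := Int.emod_lt_of_pos _ hP
  have hr1 := hμ.r1
  have hr2 := hμ.r2
  have hz1 := hμ.z1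
  have hz2 := hμ.z2
  have hZdef : Z p q b Θ μ = q * ((b * μ) % p) - μ * Θ := rfl
  have hμ0 : (0 : ℤ) ≤ μ := Int.natCast_nonneg _
  have hμΘ : 0 ≤ (μ : ℤ) * Θ := mul_nonneg hμ0 h0.le
  set k0 := (b * μ) % (p : ℤ) with hk0d
  have t3 : (q : ℤ) * k0 ≤ q * (p - b - 1) := mul_le_mul_of_nonneg_left hr2 hQ.le
  have t4 : (q : ℤ) * (k0 + 1) ≤ q * b := mul_le_mul_of_nonneg_left (by linarith) hQ.le
  have hy0 : 0 ≤ N - Z p q b Θ μ := by rw [hZdef]; linarith
  have v2 : av p q (N - Z p q b Θ μ) = 1 := by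
    rw [av_eval hp h.hq h.hpq (l := p - b - 1 - k0) (l' := p - 1 - k0) (by linarith) (by linarith)
      (by linarith) (by linarith)
      (by
        have : N - Z p q b Θ μ - ((p : ℤ) - b - 1 - k0) * q = μ * Θ := by
          rw [hN, hZdef]; ring
        rw [this]
        exact hΘp.mul_left _)
      (by
        have : N - Z p q b Θ μ - 1 - ((p : ℤ) - 1 - k0) * q = μ * Θ - (b * q + 1) := by
          rw [hN, hZdef]; ring
        rw [this]
        exact dvd_sub (hΘp.mul_left _) h.hbq)]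
    rw [if_pos (by rw [hN, hZdef]; linarith), if_neg (by rw [hN, hZdef]; linarith)]
    ring
  have s1 : (k + ((e : ℕ) : ℤ) * v) % ((p : ℤ) * q) = N := by
    have : k + (e : ℤ) * v = N := by rw [hk]; ring
    rw [this]
    exact Int.emod_eq_of_lt hN0 (by linarith)
  have s2 : (k + ((e + μ : ℕ) : ℤ) * v) % ((p : ℤ) * q) = N - Z p q b Θ μ := by
    have : k + ((e + μ : ℕ) : ℤ) * v = N + (μ : ℤ) * v := by push_cast; rw [hk]; ring
    rw [this, key1]
    exact Int.emod_eq_of_lt hy0 (by linarith)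
  have hsum : (∑ n ∈ range p, if N - q < (k + n * v) % (p * q) ∧ (k + n * v) % (p * q) ≤ N
        then av p q ((k + n * v) % (p * q)) else 0) = 1 + 1 := by
    rw [Finset.sum_eq_add (a := e) (b := e + μ) (by omega)]
    · rw [s1, s2, if_pos ⟨by linarith, le_refl _⟩, if_pos ⟨by linarith, by linarith⟩, v1, v2]
    · intro n hn hne
      rw [mem_range] at hn
      rw [if_neg]
      rintro ⟨c1, c2⟩
      rcases lt_or_gt_of_ne hne.1 with hlt | hgt
      · obtain ⟨m, hm⟩ : ∃ m : ℕ, n + m = e := ⟨e - n, by omega⟩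
        have hmZ : (n : ℤ) + m = e := by exact_mod_cast hm
        have hkn : k + (n : ℤ) * v = N - (m : ℤ) * v := by
          rw [hk]
          linear_combination v * hmZ
        rw [hkn, key2] at c1 c2
        obtain ⟨z1, z2, z3⟩ := zb_MPairP h h0 hq (m := m) (by omega) (by omega)
        obtain ⟨w1, w2⟩ := cond_MPairP hNM hM (by linarith) (by linarith) c1 c2
        refine hμ.hneg m (by omega) (by omega) ⟨by linarith, lt_of_le_of_ne (by linarith) z3⟩
      · obtain ⟨m, hm⟩ : ∃ m : ℕ, e + m = n := ⟨n - e, by omega⟩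
        have hmZ : (e : ℤ) + m = n := by exact_mod_cast hm
        have hkn : k + (n : ℤ) * v = N + (m : ℤ) * v := by
          rw [hk]
          linear_combination -v * hmZ
        rw [hkn, key1] at c1 c2
        obtain ⟨z1, z2, z3⟩ := zb_MPairP h h0 hq (m := m) (by omega) (by omega)
        obtain ⟨w1, w2⟩ := cond_MPairP hNM hM (by linarith) (by linarith) c1 c2
        have hne2 : m ≠ μ := by
          intro hmμ
          exact hne.2 (by omega)
        have := hμ.hlt m (by omega) (by omega)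
        linarith
    · intro hn
      exact absurd (mem_range.2 (by omega)) hn
    · intro hn
      exact absurd (mem_range.2 (by omega)) hn
  rw [hsum] at hT
  refine ⟨N, k, hN0, by linarith, ?_⟩
  rw [hT]
  norm_num

end Pool.Agent.Helper10.TB
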