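import Pool.Agent.Helper10.TB.MSideII
import Pool.Agent.Helper10.TB.MGap
import Pool.Agent.Helper10.TB.MSC
import Pool.Agent.Helper10.TB.MPairP

set_option autoImplicit false

/-!
# The strip `0 < Θ < q`, `v + b q = Θ + p q`

PROOF.  `v = p q - b q + Θ`, so `m v ≡ m Θ - m b q ≡ - Z m (mod p q)` with `Z = Z p q b Θ` (`m b q ≡ q ((b m) % p)`), and
`- p q + q < Z m < p q - q` for `1 ≤ m < p` (`1 ≤ (b m) % p ≤ p - 1`, `0 < m Θ < (p-1) q`); `Z m ≠ 0` (`q ∤ m Θ`: `q ∤ Θ` because `q ∤ v`).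
(a) `gapok p q v e ↔ good p q b Θ e` for `e < p`: for `n = e + m`: `((e - n) v) % (p q) = (Z m) % (p q)`, which is `< q` iff `0 < Z m < q`; for `n = e - m`:
`((e-n) v) % (p q) = (- Z m) % (p q)`, which is `< q` iff `- q < Z m < 0`.
(b) `gap_exists` gives the hypothesis of `sc` (with `c = b`).  Second alternative of `sc`: `pairP`.
First alternative: `e` good, `Z m < 0`, `1 ≤ m < p`.  `w = p q - v = b q - Θ`, `(m w) % (p q) = (Z m) % (p q) = Z m + p q`, and `Z m + p q > q ((b m) % p)` as `m Θ < p q`.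
 * `e + m < p`: `sideIIP` (left alternative; `v < p q - q` as `b ≥ 2`, `Θ < q`).
 * `m ≤ e`: `good` gives not `- q < Z m`, so `Z m ≤ - q`, `Z m + p q ≤ p q - q`: `sideIIN`.
-/

namespace Pool.Agent.Helper10.TB

private theorem key_MStripCp {p q : ℕ} {b v Θ : ℤ} (h : H p q b v) (hΘ : v + b * q = Θ + p * q)
    (m : ℕ) : ∃ K : ℤ, (m : ℤ) * v = -Z p q b Θ m + p * q * K := by
  refine ⟨m - (b * m) / p, ?_⟩
  have h1 := Int.emod_add_mul_ediv (b * m) p
  have h2 : (b * m) % (p : ℤ) = b * m - p * ((b * m) / p) := by linarith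
  unfold Z
  rw [h2]
  have h3 : v = p * q - b * q + Θ := by linarith
  rw [h3]
  ring

private theorem bnd_MStripCp {p q : ℕ} {b v Θ : ℤ} (h : H p q b v)
    (h0 : 0 < Θ) (hq : Θ < q) {m : ℕ} (hm : 1 ≤ m) (hmp : m < p) :
    Z p q b Θ m ≠ 0 ∧ -((p : ℤ) * q) + q < Z p q b Θ m ∧ Z p q b Θ m < p * q - q ∧
      (m : ℤ) * Θ < p * q := by
  have hp := h.hp
  have hpp : (0 : ℤ) < p := by exact_mod_cast hp.pos
  have hq0 : (0 : ℤ) < q := by exact_mod_cast h.hq.pos
  have hndvd : ¬ (p : ℤ) ∣ b * m := by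
    intro hd
    rcases (Nat.prime_iff_prime_int.mp hp).dvd_or_dvd hd with h1 | h1
    · have := Int.le_of_dvd (by linarith [h.hb2]) h1
      linarith [h.hbp]
    · have h2 : p ∣ m := by exact_mod_cast h1
      have := Nat.le_of_dvd (by omega) h2
      omega
  have hr1 : 1 ≤ (b * m) % (p : ℤ) := by
    have h1 := Int.emod_nonneg (b * m) hpp.ne'
    rcases h1.lt_or_eq with h2 | h2
    · omega
    · exact absurd (Int.dvd_of_emod_eq_zero h2.symm) hndvd
  have hr2 : (b * m) % (p : ℤ) ≤ p - 1 := by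
    have h1 := Int.emod_lt_of_pos (b * m) hpp
    omega
  have hm1 : (1 : ℤ) ≤ m := by exact_mod_cast hm
  have hmp' : (m : ℤ) ≤ p - 1 := by
    have : (m : ℤ) < p := by exact_mod_cast hmp
    omega
  have hmT : (m : ℤ) * Θ ≤ (p - 1) * (q - 1) :=
    mul_le_mul hmp' (by omega) h0.le (by linarith)
  have hmT0 : 0 < (m : ℤ) * Θ := mul_pos (by linarith) h0
  have h11 : (11 : ℤ) ≤ p := by exact_mod_cast h.h11
  have hqr1 : (q : ℤ) * 1 ≤ q * ((b * m) % (p : ℤ)) := mul_le_mul_of_nonneg_left hr1 hq0.le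
  have hqr2 : (q : ℤ) * ((b * m) % (p : ℤ)) ≤ q * (p - 1) := mul_le_mul_of_nonneg_left hr2 hq0.le
  refine ⟨?_, ?_, ?_, ?_⟩
  · intro hz
    unfold Z at hz
    have hd : (q : ℤ) ∣ m * Θ := ⟨(b * m) % (p : ℤ), by linarith⟩
    rcases (Nat.prime_iff_prime_int.mp h.hq).dvd_or_dvd hd with h1 | h1
    · have h2 : q ∣ m := by exact_mod_cast h1
      have := Nat.le_of_dvd (by omega) h2
      have := h.hpq
      omega
    · have := Int.le_of_dvd h0 h1
      linarith
  · unfold Z
    have : ((p : ℤ) - 1) * (q - 1) = p * q - p - q + 1 := by ring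
    linarith
  · unfold Z
    have : (q : ℤ) * (p - 1) = p * q - q := by ring
    linarith
  · have : ((p : ℤ) - 1) * (q - 1) = p * q - p - q + 1 := by ring
    linarith

private theorem emod_pos_MStripCp {M z : ℤ} (h0 : 0 < z) (h1 : z < M) (K : ℤ) :
    (z + M * K) % M = z := by
  rw [Int.add_mul_emod_self_left, Int.emod_eq_of_lt h0.le h1]

private theorem emod_neg_MStripCp {M z : ℤ} (h0 : z < 0) (h1 : -M < z) (K : ℤ) :
    (z + M * K) % M = z + M := by
  have : z + M * K = (z + M) + M * (K - 1) := by ring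
  rw [this, Int.add_mul_emod_self_left, Int.emod_eq_of_lt (by linarith) (by linarith)]

private theorem iff_MStripCp {p q : ℕ} {b v Θ : ℤ} (h : H p q b v)
    (hΘ : v + b * q = Θ + p * q) (h0 : 0 < Θ) (hq : Θ < q) {e : ℕ} (he : e < p) :
    gapok p q v e ↔ good p q b Θ e := by
  have hq0 : (0 : ℤ) < q := by exact_mod_cast h.hq.pos
  constructor
  · intro hg
    refine ⟨?_, ?_⟩
    · rintro m hm hem ⟨hz1, hz2⟩
      obtain ⟨K, hK⟩ := key_MStripCp h hΘ m
      obtain ⟨hz, hb1, hb2, -⟩ := bnd_MStripCp h h0 hq hm (by omega)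
      have h1 := hg (e + m) hem (by omega)
      have h2 : ((e : ℤ) - ((e + m : ℕ) : ℤ)) * v = Z p q b Θ m + p * q * (-K) := by
        push_cast
        linear_combination -hK
      rw [h2, emod_pos_MStripCp hz1 (by linarith)] at h1
      linarith
    · rintro m hm hem ⟨hz1, hz2⟩
      obtain ⟨K, hK⟩ := key_MStripCp h hΘ m
      obtain ⟨hz, hb1, hb2, -⟩ := bnd_MStripCp h h0 hq hm (by omega)
      have h1 := hg (e - m) (by omega) (by omega)
      have h2 : ((e : ℤ) - ((e - m : ℕ) : ℤ)) * v = -Z p q b Θ m + p * q * K := by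
        rw [Nat.cast_sub hem]
        linear_combination hK
      rw [h2, emod_pos_MStripCp (by linarith) (by linarith)] at h1
      linarith
  · rintro ⟨hg1, hg2⟩ n hn hne
    rcases lt_or_gt_of_ne hne with h1 | h1
    · obtain ⟨m, rfl⟩ : ∃ m, e = n + m := ⟨e - n, by omega⟩
      obtain ⟨K, hK⟩ := key_MStripCp h hΘ m
      obtain ⟨hz, hb1, hb2, -⟩ := bnd_MStripCp h h0 hq (m := m) (by omega) (by omega)
      have h2 : (((n + m : ℕ) : ℤ) - (n : ℤ)) * v = -Z p q b Θ m + p * q * K := by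
        push_cast
        linear_combination hK
      rw [h2]
      rcases lt_or_gt_of_ne hz with h3 | h3
      · rw [emod_pos_MStripCp (by linarith) (by linarith)]
        have h4 := hg2 m (by omega) (by omega)
        by_contra h5
        exact h4 ⟨by linarith, h3⟩
      · rw [emod_neg_MStripCp (by linarith) (by linarith)]
        linarith
    · obtain ⟨m, rfl⟩ : ∃ m, n = e + m := ⟨n - e, by omega⟩
      obtain ⟨K, hK⟩ := key_MStripCp h hΘ m
      obtain ⟨hz, hb1, hb2, -⟩ := bnd_MStripCp h h0 hq (m := m) (by omega) (by omega)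
      have h2 : ((e : ℤ) - ((e + m : ℕ) : ℤ)) * v = Z p q b Θ m + p * q * (-K) := by
        push_cast
        linear_combination -hK
      rw [h2]
      rcases lt_or_gt_of_ne hz with h3 | h3
      · rw [emod_neg_MStripCp (by linarith) (by linarith)]
        linarith
      · rw [emod_pos_MStripCp (by linarith) (by linarith)]
        have h4 := hg1 m (by omega) (by omega)
        by_contra h5
        exact h4 ⟨h3, by linarith⟩

theorem stripCp {p q : ℕ} {b v Θ : ℤ} (h : H p q b v) (hΘ : v + b * q = Θ + p * q)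
    (h0 : 0 < Θ) (hq : Θ < q) : VV p q v := by
  have hq0 : (0 : ℤ) < q := by exact_mod_cast h.hq.pos
  have hsc := sc (p := p) (q := q) (c := b) (Θ := Θ) h.hp (by have := h.h11; omega) h.hb2 h.hbp
    h0 hq (fun m hm hmp => (bnd_MStripCp h h0 hq hm hmp).1) (by
      obtain ⟨e, he, hg⟩ := gap_exists h
      exact ⟨e, he, (iff_MStripCp h hΘ h0 hq he).1 hg⟩)
  rcases hsc with ⟨e, m, he, hgood, hm, hmp, hor, hZ⟩ | ⟨μ, hμ⟩
  · have hg := (iff_MStripCp h hΘ h0 hq he).2 hgood
    obtain ⟨K, hK⟩ := key_MStripCp h hΘ m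
    obtain ⟨hz, hb1, hb2, hmT⟩ := bnd_MStripCp h h0 hq hm hmp
    have hII : (p : ℤ) * q < v + b * q := by linarith
    have h2 : (m : ℤ) * ((p : ℤ) * q - v) = Z p q b Θ m + p * q * (m - K) := by
      linear_combination -hK
    have h3 : ((m : ℤ) * ((p : ℤ) * q - v)) % ((p : ℤ) * q) = Z p q b Θ m + p * q := by
      rw [h2, emod_neg_MStripCp hZ (by linarith)]
    have h4 : (q : ℤ) * ((b * m) % p) < ((m : ℤ) * ((p : ℤ) * q - v)) % ((p : ℤ) * q) := by
      rw [h3]
      unfold Z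
      linarith
    rcases hor with hme | hem
    · refine sideIIN h hII he hg hm hme h4 ?_
      rw [h3]
      have h5 := hgood.2 m hm hme
      have h6 : Z p q b Θ m ≤ -q := by
        by_contra h7
        exact h5 ⟨by linarith, hZ⟩
      linarith
    · refine sideIIP h hII ?_ hg hm hem (Or.inl h4)
      have h5 : (2 : ℤ) * q ≤ b * q := mul_le_mul_of_nonneg_right h.hb2 hq0.le
      linarith
  · exact pairP h hΘ h0 hq hμ

end Pool.Agent.Helper10.TB
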