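import Pool.Agent.Helper10.TB.MSideII

set_option autoImplicit false

/-!
# The strip `p q - q < v`

PROOF.  `w = p q - v`, `0 < w < q`, `w ≡ -1 (mod p)`.  Let `κ ∈ [1, p - 1]` with `b κ ≡ 1 (mod p)`; `2 ≤ κ ≤ p - 2`.  `q ∤ κ w`.
(1) `κ w > q`.  `gapok p q v (p - 1)`: `((p - 1 - n) v) % (p q) = p q - (p - 1 - n) w ≥ q` for `n < p - 1`.  `sideIIN` with `e = p - 1`, `m = κ`: `(b κ) % p = 1`,
`(κ w) % (p q) = κ w > q`, `κ w ≤ (p-1) q`.  `p q < v + b q` as `w < q ≤ b q`.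
(2) `κ w < q`.  `N = q`, `n2 = p - 1 - κ` (`≥ 1`), `k = N - n2 v`, `A = κ - 1`.  `p ∣ k + A v + q`: `k + A v + q ≡ 2 q - n2 + κ - 1 ≡ 2 q + 2 κ ≡ 0` (`b (q + κ) ≡ 0`). ✓
`y_n = (k + n v) % (p q)`, `k + n v ≡ N + (n2 - n) w`.  For `n2 ≤ n ≤ p - 1`: `y_n = N - (n - n2) w ∈ (N - q, N]` (`κ w < q`): in the window.  For `n < n2`: `y_n = N + (n2 - n) w > N`
(`< q + (p - 3) q < p q`): not in the window.  By `tel`: `G = Σ_{n = n2}^{p-1} av y_n + [y'_{A+1} ≤ N] - [y'_A ≤ N]`.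
Indices: `l_{n2} = 1` (`N = q`), `l_n ≡ 1 - b (n - n2) =: L n`, `l'_n = L (n - 1)`.
`Σ_{n=n2}^{p-1} ([q L n ≤ y_n] - [q L(n-1) ≤ y_n]) = Σ_{n=n2}^{p-2} ([q L n ≤ y_n] - [q L n ≤ y_{n+1}]) + [q L(p-1) ≤ y_{p-1}] - [q L(n2-1) ≤ y_{n2}]`.
Each difference is `≥ 0` (`y_{n+1} < y_n`); for `n = n2`: `L = 1`: `[q ≤ N] - [q ≤ N - w] = 1`.  `L (p - 1) ≡ 1 - b κ ≡ 0`: `[0 ≤ y_{p-1}] = 1` (`N - κ w ≥ 0`).  `L (n2 - 1) = 1 + b ≤ p - 1`: `[q (1 + b) ≤ q] = 0`.
So the sum is `≥ 2`.  Finally `y'_A > N`: `k + A v + q ≡ N + (n2 - A) w + q` with `n2 - A = p - 2 κ`.  If `p - 2 κ ≥ 0`: `N + q + (p - 2 κ) w < 2 q + (p - 4) q < p q`, `> N`.  If `p - 2 κ < 0`: `(2 κ - p) w < κ w < q`, so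
`N < N + q - (2 κ - p) w < p q`.  So `G ≥ 2`.
-/

namespace Pool.Agent.Helper10.TB

open Finset Pool.Agent.Helper55.FT

private theorem key_MStripDm {p q : ℕ} {b v : ℤ} (h : H p q b v) (hv : (p : ℤ) * q - q < v)
    (κ : ℕ) (h2 : 2 ≤ κ) (hκp : κ + 2 ≤ p) (hκq : (p : ℤ) ∣ κ + q)
    (hκb : (p : ℤ) ∣ b * κ - 1) (hlt : (κ : ℤ) * (p * q - v) < q) : VV p q v := by
  obtain ⟨hp, hq, h11, hpq, hb2, hbp, hbq, hv1, hvM, hvp, hvq⟩ := h
  have h' : H p q b v := ⟨hp, hq, h11, hpq, hb2, hbp, hbq, hv1, hvM, hvp, hvq⟩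
  obtain ⟨w, hw⟩ : ∃ w : ℤ, w = p * q - v := ⟨_, rfl⟩
  rw [← hw] at hlt
  have hw0 : 0 < w := by omega
  have hwq : w < q := by omega
  have hwp : (p : ℤ) ∣ w + 1 := by
    have e : w + 1 = p * q - (v - 1) := by rw [hw]; ring
    rw [e]
    exact dvd_sub (dvd_mul_right _ _) hvp
  have hp11 : (11 : ℤ) ≤ p := by exact_mod_cast h11
  have hpq' : (p : ℤ) < q := by exact_mod_cast hpq
  have hκ2 : (2 : ℤ) ≤ κ := by exact_mod_cast h2
  have hκp' : (κ : ℤ) + 2 ≤ p := by exact_mod_cast hκp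
  obtain ⟨n2, hn2⟩ : ∃ n2 : ℕ, p = n2 + (κ + 1) := ⟨p - (κ + 1), by omega⟩
  have hn2' : (p : ℤ) = n2 + (κ + 1) := by exact_mod_cast hn2
  obtain ⟨A, hA⟩ : ∃ A : ℕ, κ = A + 1 := ⟨κ - 1, by omega⟩
  have hA' : (κ : ℤ) = A + 1 := by exact_mod_cast hA
  have hpq0 : (0 : ℤ) < p * q := mul_pos (by omega) (by omega)
  -- residues of the points
  have hres : ∀ n : ℤ, ((q - n2 * v : ℤ) + n * v) % (p * q) = (q + (n2 - n) * w) % (p * q) := by
    intro n
    have e : (q - n2 * v : ℤ) + n * v = (q + (n2 - n) * w) + (p * q) * (n - n2) := by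
      rw [hw]; ring
    rw [e, Int.add_mul_emod_self_left]
  have hlow : ∀ n : ℕ, n < n2 → ((q - n2 * v : ℤ) + n * v) % (p * q) = q + (n2 - n) * w := by
    intro n hn
    rw [hres]
    have hn' : (n : ℤ) + 1 ≤ n2 := by exact_mod_cast hn
    refine Int.emod_eq_of_lt ?_ ?_
    · nlinarith
    · have h1 : ((n2 : ℤ) - n) * w ≤ n2 * w := by nlinarith
      have h2 : (n2 : ℤ) * w ≤ n2 * q := by nlinarith
      have h3 : (p : ℤ) * q = n2 * q + (κ + 1) * q := by rw [hn2']; ring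
      nlinarith
  have hhigh : ∀ j : ℕ, j < κ + 1 →
      ((q - n2 * v : ℤ) + ((n2 + j : ℕ) : ℤ) * v) % (p * q) = q - j * w := by
    intro j hj
    rw [hres]
    have hj' : (j : ℤ) ≤ κ := by exact_mod_cast Nat.lt_succ_iff.1 hj
    have e : (q : ℤ) + (n2 - ((n2 + j : ℕ) : ℤ)) * w = q - j * w := by push_cast; ring
    rw [e]
    refine Int.emod_eq_of_lt ?_ ?_
    · nlinarith
    · nlinarith
  -- indices
  have hL : ∀ j : ℤ, (p : ℤ) ∣ (q - j * w) - ((1 - b * j) % p) * q := by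
    intro j
    have e : (1 - b * j) % (p : ℤ) = (1 - b * j) - p * ((1 - b * j) / p) := by
      have := Int.emod_add_mul_ediv (1 - b * j) p
      linarith
    rw [e]
    have e2 : (q - j * w : ℤ) - ((1 - b * j) - p * ((1 - b * j) / p)) * q =
        j * (b * q + 1) - j * (w + 1) + p * (((1 - b * j) / p) * q) := by ring
    rw [e2]
    exact dvd_add (dvd_sub (hbq.mul_left _) (hwp.mul_left _)) (dvd_mul_right _ _)
  have hL' : ∀ j : ℤ, (p : ℤ) ∣ (q - j * w) - 1 - ((1 - b * (j - 1)) % p) * q := by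
    intro j
    have h1 := hL (j - 1)
    have e : (q - j * w : ℤ) - 1 - ((1 - b * (j - 1)) % p) * q =
        ((q - (j - 1) * w) - ((1 - b * (j - 1)) % p) * q) - (w + 1) := by ring
    rw [e]
    exact dvd_sub h1 hwp
  have hav : ∀ j : ℕ, av p q (q - j * w) =
      (if ((1 - b * (j : ℤ)) % p) * q ≤ q - j * w then 1 else 0)
      - (if ((1 - b * ((j : ℤ) - 1)) % p) * q ≤ q - j * w then 1 else 0) := by
    intro j
    have hp0 : (0 : ℤ) < p := by omega
    exact av_eval hp hq hpq (Int.emod_nonneg _ hp0.ne') (Int.emod_lt_of_pos _ hp0)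
      (Int.emod_nonneg _ hp0.ne') (Int.emod_lt_of_pos _ hp0) (hL j) (hL' j)
  have htel := tel h' (N := q) (k := q - n2 * v) (by positivity) (by nlinarith) (A := A)
    (by omega) (by
      obtain ⟨t, ht⟩ := hvp
      obtain ⟨u, hu⟩ := hκq
      have hv' : v = 1 + p * t := by linarith
      refine ⟨2 * u + (2 * κ - p) * t - 1, ?_⟩
      have e1 : (n2 : ℤ) = p - κ - 1 := by linarith
      have e2 : (A : ℤ) = κ - 1 := by linarith
      rw [e1, e2, hv']
      have e3 : (q : ℤ) = p * u - κ := by linarith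
      rw [e3]
      ring)
  refine ⟨q, q - n2 * v, by positivity, by nlinarith, ?_⟩
  rw [htel]
  have hsum : (2 : ℤ) ≤ ∑ n ∈ range p,
      (if (q : ℤ) - q < ((q - n2 * v : ℤ) + n * v) % (p * q) ∧
        ((q - n2 * v : ℤ) + n * v) % (p * q) ≤ q
        then av p q (((q - n2 * v : ℤ) + n * v) % (p * q)) else 0) := by
    have e0 : range p = range (n2 + (κ + 1)) := by rw [← hn2]
    rw [e0, sum_range_add]
    have e1 : ∑ n ∈ range n2,
      (if (q : ℤ) - q < ((q - n2 * v : ℤ) + n * v) % (p * q) ∧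
        ((q - n2 * v : ℤ) + n * v) % (p * q) ≤ q
        then av p q (((q - n2 * v : ℤ) + n * v) % (p * q)) else 0) = 0 := by
      refine sum_eq_zero fun n hn => ?_
      rw [mem_range] at hn
      rw [hlow n hn, if_neg]
      rintro ⟨-, h4⟩
      have hn' : (n : ℤ) + 1 ≤ n2 := by exact_mod_cast hn
      nlinarith
    rw [e1, zero_add]
    have e2 : ∑ j ∈ range (κ + 1),
      (if (q : ℤ) - q < ((q - n2 * v : ℤ) + ((n2 + j : ℕ) : ℤ) * v) % (p * q) ∧
        ((q - n2 * v : ℤ) + ((n2 + j : ℕ) : ℤ) * v) % (p * q) ≤ q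
        then av p q (((q - n2 * v : ℤ) + ((n2 + j : ℕ) : ℤ) * v) % (p * q)) else 0) =
      ∑ j ∈ range (κ + 1), ((if ((1 - b * (j : ℤ)) % p) * q ≤ q - j * w then (1 : ℤ) else 0)
      - (if ((1 - b * ((j : ℤ) - 1)) % p) * q ≤ q - j * w then 1 else 0)) := by
      refine sum_congr rfl fun j hj => ?_
      rw [mem_range] at hj
      have hj' : (j : ℤ) ≤ κ := by exact_mod_cast Nat.lt_succ_iff.1 hj
      rw [hhigh j hj, if_pos, hav]
      constructor
      · nlinarith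
      · nlinarith
    rw [e2, sum_sub_distrib, sum_range_succ, sum_range_succ']
    have e3 : (if ((1 - b * ((κ : ℕ) : ℤ)) % p) * q ≤ q - ((κ : ℕ) : ℤ) * w then (1 : ℤ) else 0) = 1 := by
      have h5 : (1 - b * ((κ : ℕ) : ℤ)) % p = 0 := by
        refine Int.emod_eq_zero_of_dvd ?_
        have e : (1 - b * (κ : ℤ)) = -(b * κ - 1) := by ring
        rw [e]
        exact hκb.neg_right
      rw [h5, if_pos]
      nlinarith
    have e4 : (if ((1 - b * (((0 : ℕ) : ℤ) - 1)) % p) * q ≤ q - ((0 : ℕ) : ℤ) * w then (1 : ℤ) else 0) = 0 := by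
      have h5 : (1 - b * (((0 : ℕ) : ℤ) - 1)) % (p : ℤ) = 1 + b := by
        have e : (1 - b * (((0 : ℕ) : ℤ) - 1)) = 1 + b := by push_cast; ring
        rw [e]
        exact Int.emod_eq_of_lt (by omega) (by omega)
      rw [h5, if_neg]
      push_cast
      nlinarith
    rw [e3, e4]
    have e5 : (1 : ℤ) ≤ ∑ j ∈ range κ, ((if ((1 - b * (j : ℤ)) % p) * q ≤ q - j * w then (1 : ℤ) else 0)
      - (if ((1 - b * (((j + 1 : ℕ) : ℤ) - 1)) % p) * q ≤ q - ((j + 1 : ℕ) : ℤ) * w then 1 else 0)) := by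
      have hnn : ∀ j ∈ range κ, (0 : ℤ) ≤ ((if ((1 - b * (j : ℤ)) % p) * q ≤ q - j * w then (1 : ℤ) else 0)
      - (if ((1 - b * (((j + 1 : ℕ) : ℤ) - 1)) % p) * q ≤ q - ((j + 1 : ℕ) : ℤ) * w then 1 else 0)) := by
        intro j _
        have e : (((j + 1 : ℕ) : ℤ) - 1) = j := by push_cast; ring
        rw [e]
        push_cast
        by_cases h6 : ((1 - b * (j : ℤ)) % p) * q ≤ q - (j + 1) * w
        · have h7 : ((1 - b * (j : ℤ)) % p) * q ≤ q - j * w := by nlinarith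
          rw [if_pos h6, if_pos h7]
          norm_num
        · rw [if_neg h6]
          split_ifs <;> norm_num
      refine le_trans ?_ (single_le_sum hnn (mem_range.2 (by omega : 0 < κ)))
      have h8 : (1 - b * (((0 : ℕ) : ℤ))) % (p : ℤ) = 1 := by
        have e : (1 - b * (((0 : ℕ) : ℤ))) = 1 := by push_cast; ring
        rw [e]
        exact Int.emod_eq_of_lt (by omega) (by omega)
      have h9 : (1 - b * (((0 + 1 : ℕ) : ℤ) - 1)) % (p : ℤ) = 1 := by
        have e : (1 - b * (((0 + 1 : ℕ) : ℤ) - 1)) = 1 := by push_cast; ring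
        rw [e]
        exact Int.emod_eq_of_lt (by omega) (by omega)
      rw [h8, h9, if_pos (by push_cast; linarith), if_neg (by push_cast; linarith)]
      norm_num
    rw [sum_sub_distrib] at e5
    linarith
  have hlast : ¬ ((q - n2 * v : ℤ) + A * v + q) % (p * q) ≤ q := by
    have e : (q - n2 * v : ℤ) + A * v + q = (2 * q + (p - 2 * κ) * w) + (p * q) * (2 * κ - p) := by
      have e1 : (n2 : ℤ) = p - κ - 1 := by linarith
      have e2 : (A : ℤ) = κ - 1 := by linarith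
      rw [e1, e2, hw]
      ring
    rw [e, Int.add_mul_emod_self_left]
    have h10 : (q : ℤ) < 2 * q + (p - 2 * κ) * w := by
      rcases le_or_gt (2 * (κ : ℤ)) p with h11' | h11'
      · nlinarith
      · nlinarith
    rw [Int.emod_eq_of_lt (by linarith) ?_]
    · exact not_le.2 h10
    · rcases le_or_gt (2 * (κ : ℤ)) p with h11' | h11'
      · have h12 : ((p : ℤ) - 2 * κ) * w ≤ (p - 2 * κ) * q := by nlinarith
        nlinarith
      · nlinarith
  rw [if_neg hlast]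
  have hnn2 : (0 : ℤ) ≤ (if ((q - n2 * v : ℤ) + (A + 1) * v + q) % (p * q) ≤ q then (1 : ℤ) else 0) := by
    split_ifs <;> norm_num
  refine le_trans ?_ (le_abs_self _)
  linarith

theorem stripDm {p q : ℕ} {b v : ℤ} (h : H p q b v) (hv : (p : ℤ) * q - q < v) : VV p q v := by
  obtain ⟨hp, hq, h11, hpq, hb2, hbp, hbq, hv1, hvM, hvp, hvq⟩ := h
  have h' : H p q b v := ⟨hp, hq, h11, hpq, hb2, hbp, hbq, hv1, hvM, hvp, hvq⟩
  have hp11 : (11 : ℤ) ≤ p := by exact_mod_cast h11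
  have hpq' : (p : ℤ) < q := by exact_mod_cast hpq
  have hp0 : (0 : ℤ) < p := by omega
  obtain ⟨κ, hκ⟩ : ∃ κ : ℕ, (κ : ℤ) = (-(q : ℤ)) % p :=
    ⟨((-(q : ℤ)) % p).toNat, Int.toNat_of_nonneg (Int.emod_nonneg _ hp0.ne')⟩
  have hκlt : (κ : ℤ) < p := by rw [hκ]; exact Int.emod_lt_of_pos _ hp0
  have hκq : (p : ℤ) ∣ κ + q := by
    have e := Int.emod_add_mul_ediv (-(q : ℤ)) p
    rw [← hκ] at e
    exact ⟨-(-(q : ℤ) / p), by linarith⟩
  have hκb : (p : ℤ) ∣ b * κ - 1 := by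
    have e : b * κ - 1 = b * (κ + q) - (b * q + 1) := by ring
    rw [e]
    exact dvd_sub (hκq.mul_left _) hbq
  have hno : ∀ x : ℤ, (p : ℤ) ∣ x → 0 < x → x < p → False := by
    intro x hx h0 h1
    exact absurd (Int.le_of_dvd h0 hx) (not_le.2 h1)
  have hκ0 : κ ≠ 0 := by
    rintro rfl
    refine hno 1 ?_ (by norm_num) (by omega)
    have e : (1 : ℤ) = -(b * ((0 : ℕ) : ℤ) - 1) := by push_cast; ring
    rw [e]
    exact hκb.neg_right
  have hκ1 : κ ≠ 1 := by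
    rintro rfl
    refine hno (b - 1) ?_ (by omega) (by omega)
    have e : b - 1 = b * ((1 : ℕ) : ℤ) - 1 := by push_cast; ring
    rw [e]
    exact hκb
  have hκ2 : κ + 1 ≠ p := by
    intro hcon
    have hcon' : (κ : ℤ) = p - 1 := by
      have : ((κ + 1 : ℕ) : ℤ) = p := by exact_mod_cast hcon
      push_cast at this
      linarith
    refine hno (b + 1) ?_ (by omega) (by omega)
    have e : b + 1 = p * b - (b * κ - 1) := by rw [hcon']; ring
    rw [e]
    exact dvd_sub (dvd_mul_right _ _) hκb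
  have h2 : 2 ≤ κ := by omega
  have hκp : κ + 2 ≤ p := by omega
  have hκ2' : (2 : ℤ) ≤ κ := by exact_mod_cast h2
  have hκp' : (κ : ℤ) + 2 ≤ p := by exact_mod_cast hκp
  have hne : (κ : ℤ) * (p * q - v) ≠ q := by
    intro hcon
    have h3 : (q : ℤ) ∣ κ * (p * q - v) := by rw [hcon]
    rcases (Nat.prime_iff_prime_int.1 hq).dvd_or_dvd h3 with h4 | h4
    · have := Int.le_of_dvd (by omega) h4
      omega
    · apply hvq
      have e : v = p * q - (p * q - v) := by ring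
      rw [e]
      exact dvd_sub (dvd_mul_left _ _) h4
  rcases lt_or_gt_of_ne hne with hlt | hgt
  · exact key_MStripDm h' hv κ h2 hκp hκq hκb hlt
  · obtain ⟨w, hw⟩ : ∃ w : ℤ, w = p * q - v := ⟨_, rfl⟩
    have hw0 : 0 < w := by omega
    have hwq : w < q := by omega
    obtain ⟨e, he⟩ : ∃ e : ℕ, e + 1 = p := ⟨p - 1, by omega⟩
    have he' : (e : ℤ) + 1 = p := by exact_mod_cast he
    have hW : ((κ : ℤ) * (p * q - v)) % (p * q) = κ * w := by
      rw [← hw]
      refine Int.emod_eq_of_lt (by positivity) ?_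
      nlinarith
    refine sideIIN h' (by nlinarith) (e := e) (m := κ) (by omega) ?_ (by omega) (by omega) ?_ ?_
    · intro n hn hne'
      have hn1 : (n : ℤ) + 1 ≤ e := by
        have : n + 1 ≤ e := by omega
        exact_mod_cast this
      have h0n : (0 : ℤ) ≤ n := by positivity
      have e1 : ((e : ℤ) - n) * v = (p * q - (e - n) * w) + (p * q) * (e - n - 1) := by
        rw [hw]; ring
      rw [e1, Int.add_mul_emod_self_left]
      have h5 : ((e : ℤ) - n) * w ≤ e * w := by nlinarith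
      have h6 : (e : ℤ) * w ≤ e * q := by nlinarith
      have h7 : (p : ℤ) * q = e * q + q := by rw [← he']; ring
      have h8 : 0 < ((e : ℤ) - n) * w := by
        apply mul_pos _ hw0
        linarith
      rw [Int.emod_eq_of_lt (by linarith) (by linarith)]
      linarith
    · rw [hW]
      have h9 : (b * κ) % (p : ℤ) = 1 := by
        obtain ⟨t, ht⟩ := hκb
        have e2 : b * κ = 1 + p * t := by linarith
        rw [e2, Int.add_mul_emod_self_left]
        exact Int.emod_eq_of_lt (by norm_num) (by omega)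
      rw [h9, hw]
      linarith
    · rw [hW]
      nlinarith

end Pool.Agent.Helper10.TB
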