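import Pool.Agent.Helper10.TB.MSideI

set_option autoImplicit false

/-!
# The strip `v < q`

PROOF.  Let `κ' ∈ [1, p - 1]` with `b κ' ≡ -1 (mod p)`; `κ' ≠ 1` (`b ≠ p - 1`), `κ' ≠ p - 1` (`b ≠ 1`); `κ := p - κ'`, `b κ ≡ 1`.  `q ∤ κ' v`.
(1) `κ' v > q`.  `gapok p q v 0`: `((0 - n) v) % (p q) = p q - n v ≥ q` (`n ≤ p - 1`, `v < q`).  `sideIP` with `e = 0`, `m = κ'`: `(b κ') % p = p - 1`,
`(κ' v) % (p q) = κ' v > q`, `κ' v ≤ (p-1) q`.  `v + b q < p q` as `b ≤ p - 2`.
(2) `κ' v < q`.  `N = q + 1`, `k = N - κ' v`, `A = κ - 1`.  `p ∣ k + A v + q`: `k + A v + q ≡ q + 1 - κ' + κ - 1 + q = 2 q + κ - κ' ≡ 2 q + 2 κ`; and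
`q + κ ≡ 0 (mod p)` because `b (q + κ) ≡ -1 + 1 = 0`. ✓   (`N < p q - q`.)
`k + n v = N - (κ' - n) v`.  For `0 ≤ n ≤ κ'`: `k + n v ∈ [N - κ' v, N] ⊂ [0, N]`, `> N - q`, so these `n` are in the window;  for `κ' < n < p`: `k + n v = N + (n - κ') v ∈ (N, N + (p-2) q) `
so `y_n = k + n v > N` if `k + n v < p q` (`N + (n - κ') v < q + 1 + (p - 2) q < p q` ✓.): not in the window.  So by `tel`
`G = Σ_{n=0}^{κ'} av (k + n v) + [y'_{A+1} ≤ N] - [y'_A ≤ N]`.
The index `n` has `l_n ≡ (k + n v) / q`, with `l_{κ'} ≡ - b + 1` (since `N = q + 1 ≡ q (1 - b)`), `l_n ≡ 1 - b + b (κ' - n)`, and `l'_n ≡ l_n + b`, `l'_{n+1} ≡ l_n`.  Write `L n = (1 - b + b (κ' - n)) % p` (so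
`l_n = L n`, `l'_n = L (n - 1)`, in particular `l'_0 = L (-1) = (1 - b - 1 + b) % p = 0`; `L κ' = p + 1 - b`).  `y_n = k + n v`:
`Σ_{n=0}^{κ'} av y_n = Σ_{n=0}^{κ'} ([q L n ≤ y_n] - [q L(n-1) ≤ y_n]) = - Σ_{n=0}^{κ'-1} ([q L n ≤ y_{n+1}] - [q L n ≤ y_n]) + [q L κ' ≤ y_{κ'}] - [q L(-1) ≤ y_0]`.
Each bracket difference is `≥ 0` (`y_{n+1} > y_n`); for `n = κ' - 1`: `L = 1`: `[q ≤ N] - [q ≤ N - v] = 1` (`v ≥ 2`).  `[q L κ' ≤ N] = 0` (`q (p + 1 - b) > q + 1`), `[0 ≤ y_0] = 1`.
So the sum is `≤ - 2`.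
Finally `y'_{A+1} > N`: `k + κ v + q = N + (κ - κ') v + q`.  If `κ ≤ κ'`: `N + q - (κ' - κ) v`, which is `> N` since `κ' v < q`, and `< p q`.  If `κ > κ'`: `(κ - κ') v < (p - 2) q - ...`: `N + q + (κ - κ') v < p q`
because `κ - κ' ≤ p - 4` (`κ' ≥ 2`, `κ + κ' = p`) and `v < q`: `≤ 2 q + 1 + (p - 4) (q - 1) < p q`.  So `G ≤ - 2` (`- [y'_A ≤ N] ≤ 0`).
-/

namespace Pool.Agent.Helper10.TB

open Finset Pool.Agent.Helper55.FT

theorem stripDp {p q : ℕ} {b v : ℤ} (h : H p q b v) (hv : v < q) : VV p q v := by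
  have hp := h.hp
  have hq := h.hq
  have h11 : (11 : ℤ) ≤ p := by exact_mod_cast h.h11
  have hpq : (p : ℤ) < q := by exact_mod_cast h.hpq
  have hb2 := h.hb2
  have hbp := h.hbp
  have hv1 := h.hv1
  obtain ⟨c, hc⟩ := h.hbq
  obtain ⟨d, hd⟩ := h.hvp
  obtain ⟨κ, hκ⟩ : ∃ κ : ℕ, κ = q % p := ⟨_, rfl⟩
  have hκp : κ < p := by rw [hκ]; exact Nat.mod_lt _ hp.pos
  have hκpz : (κ : ℤ) < p := by exact_mod_cast hκp
  obtain ⟨s, hs⟩ : ∃ s : ℤ, (q : ℤ) = κ + p * s := by
    refine ⟨(q / p : ℕ), ?_⟩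
    have := Nat.mod_add_div q p
    rw [hκ]
    exact_mod_cast this.symm
  have hκ0 : κ ≠ 0 := by
    intro h0
    rw [h0] at hκ
    have : p ∣ q := Nat.dvd_of_mod_eq_zero hκ.symm
    rcases (Nat.dvd_prime hq).1 this with h1 | h1
    · exact hp.one_lt.ne' h1
    · omega
  have small : ∀ x : ℤ, (p : ℤ) ∣ x → 0 < x → x < p → False := by
    intro x hx h1 h2
    have := Int.le_of_dvd h1 hx
    omega
  have hκ1 : κ ≠ 1 := by
    intro h0
    rw [h0] at hs
    apply small (b + 1) _ (by omega) (by omega)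
    refine ⟨c - b * s, ?_⟩
    have : b * q + 1 = b * (((1 : ℕ) : ℤ) + p * s) + 1 := by rw [hs]
    push_cast at this
    linear_combination hc - this
  have hκ2 : (κ : ℤ) ≠ p - 1 := by
    intro h0
    rw [h0] at hs
    apply small (b - 1) _ (by omega) (by omega)
    refine ⟨b + b * s - c, ?_⟩
    have : b * q + 1 = b * ((p - 1 : ℤ) + p * s) + 1 := by rw [hs]
    linear_combination this - hc
  have hκ3 : (2 : ℤ) ≤ κ := by
    have : 2 ≤ κ := by omega
    exact_mod_cast this
  have hκ4 : (κ : ℤ) ≤ p - 2 := by omega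
  have hv12 : 12 ≤ v := by
    have hd1 : 1 ≤ d := by
      by_contra hcon
      have : d ≤ 0 := by omega
      have : (p : ℤ) * d ≤ 0 := mul_nonpos_of_nonneg_of_nonpos (by omega) this
      omega
    nlinarith
  have hbq2 : b * q ≤ (p - 2) * q := mul_le_mul_of_nonneg_right hbp (by omega)
  have hI : v + b * q < p * q := by nlinarith
  have hκv : (κ : ℤ) * v < κ * q := mul_lt_mul_of_pos_left hv (by omega)
  have hκq : (κ : ℤ) * q ≤ (p - 2) * q := mul_le_mul_of_nonneg_right hκ4 (by omega)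
  have hκv0 : 0 < (κ : ℤ) * v := mul_pos (by omega) (by omega)
  have hbκ : (b * κ) % p = p - 1 := by
    have h1 : b * κ = (p - 1) + p * (c - b * s - 1) := by
      have : b * q + 1 = b * (κ + p * s) + 1 := by rw [hs]
      linear_combination hc - this
    rw [h1, Int.add_mul_emod_self_left]
    exact Int.emod_eq_of_lt (by omega) (by omega)
  rcases lt_trichotomy ((κ : ℤ) * v) q with hlt | heq | hgt
  · -- the second case
    have hqp1 : (11 : ℤ) * q ≤ p * q := mul_le_mul_of_nonneg_right h11 (by omega)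
    have hA1 : (p - κ - 1) + 1 < p := by omega
    have hAc : ((p - κ - 1 : ℕ) : ℤ) = p - κ - 1 := by omega
    have hAk : (p : ℤ) ∣ (q + 1 - κ * v) + ((p - κ - 1 : ℕ) : ℤ) * v + q := by
      rw [hAc]
      refine ⟨v + 2 * s - 2 * κ * d - d, ?_⟩
      have e1 : v = 1 + p * d := by omega
      have e2 : (q : ℤ) + 1 - κ * v + (p - κ - 1) * v + q
        = 2 * q + 1 - (2 * κ + 1) * v + p * v := by ring
      rw [e2, hs]
      linear_combination (-(2 * (κ : ℤ) + 1)) * e1
    have T := tel h (N := q + 1) (k := q + 1 - κ * v) (by omega) (by omega) hA1 hAk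
    refine ⟨q + 1, q + 1 - κ * v, by omega, by omega, ?_⟩
    -- the points of the progression
    have hy : ∀ n : ℕ, n < p → ((q : ℤ) + 1 - κ * v + n * v) % (p * q) = q + 1 - κ * v + n * v := by
      intro n hn
      have hn' : (n : ℤ) ≤ p - 1 := by omega
      have h1 : (n : ℤ) * v ≤ (p - 1) * v := mul_le_mul_of_nonneg_right hn' (by omega)
      have h2 : 0 ≤ (n : ℤ) * v := mul_nonneg (by omega) (by omega)
      have h3 : ((p : ℤ) - 1 - κ) * v ≤ (p - 3) * v :=
        mul_le_mul_of_nonneg_right (by omega) (by omega)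
      have h4 : ((p : ℤ) - 3) * v ≤ (p - 3) * q := mul_le_mul_of_nonneg_left (by omega) (by omega)
      refine Int.emod_eq_of_lt (by omega) ?_
      nlinarith
    have hsum : (∑ n ∈ range p, if (q : ℤ) + 1 - q < (q + 1 - κ * v + n * v) % (p * q) ∧
        ((q : ℤ) + 1 - κ * v + n * v) % (p * q) ≤ q + 1
        then av p q ((q + 1 - κ * v + n * v) % (p * q)) else 0)
        = ∑ n ∈ range (κ + 1), av p q (q + 1 - κ * v + n * v) := by
      rw [← sum_subset (s₁ := range (κ + 1))]
      · refine sum_congr rfl fun n hn => ?_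
        rw [mem_range] at hn
        rw [hy n (by omega), if_pos]
        have h2 : 0 ≤ (n : ℤ) * v := mul_nonneg (by omega) (by omega)
        have h3 : (n : ℤ) * v ≤ κ * v := mul_le_mul_of_nonneg_right (by omega) (by omega)
        constructor <;> omega
      · intro n hn
        rw [mem_range] at *
        omega
      · intro n hn hn2
        rw [mem_range] at *
        rw [hy n hn, if_neg]
        have h3 : ((κ : ℤ) + 1) * v ≤ n * v := mul_le_mul_of_nonneg_right (by omega) (by omega)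
        intro hh
        have := hh.2
        nlinarith
    rw [hsum] at T
    -- the indices
    obtain ⟨M, hM⟩ : ∃ M : ℕ → ℤ, ∀ n, M n = (1 + b * (κ - n)) % p := ⟨_, fun _ => rfl⟩
    have hM0 : ∀ n, 0 ≤ M n := fun n => by rw [hM]; exact Int.emod_nonneg _ (by omega)
    have hM1 : ∀ n, M n < p := fun n => by rw [hM]; exact Int.emod_lt_of_pos _ (by omega)
    have hMd : ∀ n : ℕ, (p : ℤ) ∣ (q - κ * v + n * v) - M n * q := by
      intro n
      have h1 := Int.emod_add_mul_ediv (1 + b * ((κ : ℤ) - n)) p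
      rw [← hM] at h1
      refine ⟨(n - κ) * d - (κ - n) * c + ((1 + b * ((κ : ℤ) - n)) / p) * q, ?_⟩
      linear_combination ((n : ℤ) - κ) * hd - ((κ : ℤ) - n) * hc - (q : ℤ) * h1
    have hav : ∀ n : ℕ, av p q (q + 1 - κ * v + n * v)
        = (if M (n + 1) * q ≤ q + 1 - κ * v + n * v then 1 else 0)
          - (if M n * q ≤ q + 1 - κ * v + n * v then 1 else 0) := by
      intro n
      refine av_eval hp hq h.hpq (hM0 _) (hM1 _) (hM0 _) (hM1 _) ?_ ?_
      · have h1 := hMd (n + 1)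
        have h2 := h.hvp
        have : (q : ℤ) + 1 - κ * v + n * v - M (n + 1) * q
          = ((q - κ * v + ((n + 1 : ℕ) : ℤ) * v) - M (n + 1) * q) - (v - 1) := by
          push_cast
          ring
        rw [this]
        exact dvd_sub h1 h2
      · have h1 := hMd n
        have : (q : ℤ) + 1 - κ * v + n * v - 1 - M n * q
          = (q - κ * v + n * v) - M n * q := by ring
        rw [this]
        exact h1
    have hMκ : M κ = 1 := by
      rw [hM, sub_self, mul_zero, add_zero]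
      exact Int.emod_eq_of_lt (by omega) (by omega)
    have hMκ1 : M (κ + 1) = p + 1 - b := by
      rw [hM]
      have : 1 + b * ((κ : ℤ) - ((κ + 1 : ℕ) : ℤ)) = (p + 1 - b) + p * (-1) := by
        push_cast
        ring
      rw [this, Int.add_mul_emod_self_left]
      exact Int.emod_eq_of_lt (by omega) (by omega)
    have hMz : M 0 = 0 := by
      rw [hM]
      have : 1 + b * ((κ : ℤ) - ((0 : ℕ) : ℤ)) = p * (c - b * s) := by
        have : b * q + 1 = b * (κ + p * s) + 1 := by rw [hs]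
        push_cast
        linear_combination hc - this
      rw [this]
      exact Int.mul_emod_right _ _
    -- the bound
    obtain ⟨t, ht⟩ : ∃ t : ℕ, κ = t + 1 := ⟨κ - 1, by omega⟩
    have hS : ∑ n ∈ range (κ + 1), av p q (q + 1 - κ * v + n * v) ≤ -2 := by
      have hB : ∀ m : ℕ, ∑ n ∈ range (m + 1), av p q (q + 1 - κ * v + n * v)
          ≤ (if M (m + 1) * q ≤ q + 1 - κ * v + m * v then 1 else 0) - 1 := by
        intro m
        induction m with
        | zero =>
          rw [sum_range_one, hav 0, hMz]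
          have : (0 : ℤ) * q ≤ q + 1 - κ * v + ((0 : ℕ) : ℤ) * v := by
            push_cast
            omega
          rw [if_pos this]
        | succ m ih =>
          rw [sum_range_succ, hav (m + 1)]
          have : (if M (m + 1) * q ≤ q + 1 - κ * v + m * v then (1 : ℤ) else 0)
              ≤ if M (m + 1) * q ≤ q + 1 - κ * v + ((m + 1 : ℕ) : ℤ) * v then 1 else 0 := by
            split_ifs with h1 h2 h2
            · exact le_rfl
            · exfalso
              apply h2
              push_cast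
              nlinarith
            · exact zero_le_one
            · exact le_rfl
          linarith
      rw [sum_range_succ, hav κ, hMκ, hMκ1]
      have hB1 := hB t
      rw [← ht, hMκ] at hB1
      have e1 : ¬ (1 * (q : ℤ) ≤ q + 1 - κ * v + t * v) := by
        have : (κ : ℤ) = t + 1 := by exact_mod_cast ht
        rw [this]
        intro h1
        have : (q : ℤ) + 1 - (t + 1) * v + t * v = q + 1 - v := by ring
        omega
      rw [if_neg e1] at hB1
      have e2 : ¬ ((p + 1 - b) * (q : ℤ) ≤ q + 1 - κ * v + κ * v) := by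
        intro h1
        have : (3 : ℤ) * q ≤ (p + 1 - b) * q := mul_le_mul_of_nonneg_right (by omega) (by omega)
        omega
      have e3 : 1 * (q : ℤ) ≤ q + 1 - κ * v + κ * v := by omega
      rw [if_neg e2, if_pos e3]
      linarith
    have hlast : ¬ (((q : ℤ) + 1 - κ * v + (((p - κ - 1 : ℕ) : ℤ) + 1) * v + q) % (p * q)
        ≤ q + 1) := by
      rw [hAc]
      have e1 : (q : ℤ) + 1 - κ * v + ((p - κ - 1 : ℤ) + 1) * v + q
        = 2 * q + 1 + (p - 2 * κ) * v := by ring
      rw [e1]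
      rcases le_or_gt (2 * (κ : ℤ)) p with h2 | h2
      · have h3 : 0 ≤ ((p : ℤ) - 2 * κ) * v := mul_nonneg (by omega) (by omega)
        have h4 : ((p : ℤ) - 2 * κ) * v ≤ (p - 4) * v :=
          mul_le_mul_of_nonneg_right (by omega) (by omega)
        have h5 : ((p : ℤ) - 4) * v ≤ (p - 4) * q :=
          mul_le_mul_of_nonneg_left (by omega) (by omega)
        rw [Int.emod_eq_of_lt (by omega) (by nlinarith)]
        omega
      · have h3 : ((p : ℤ) - 2 * κ) * v ≤ 0 := mul_nonpos_of_nonpos_of_nonneg (by omega) (by omega)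
        have h4 : (-(κ : ℤ)) * v ≤ ((p : ℤ) - 2 * κ) * v :=
          mul_le_mul_of_nonneg_right (by omega) (by omega)
        have h6 : (-(κ : ℤ)) * v = - (κ * v) := by ring
        rw [h6] at h4
        rw [Int.emod_eq_of_lt (by omega) (by omega)]
        omega
    rw [if_neg hlast] at T
    rw [T]
    have h9 : (0 : ℤ) ≤ if ((q : ℤ) + 1 - κ * v + ((p - κ - 1 : ℕ) : ℤ) * v + q) % (p * q) ≤ q + 1
        then 1 else 0 := by
      split_ifs <;> norm_num
    rw [abs_of_nonpos (by linarith)]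
    linarith
  · exfalso
    have h1 : (q : ℤ) ∣ κ * v := ⟨1, by rw [heq, mul_one]⟩
    rcases (Nat.prime_iff_prime_int.1 hq).dvd_or_dvd h1 with h2 | h2
    · have := Int.le_of_dvd (by omega) h2
      omega
    · exact h.hvq h2
  · -- the first case
    have hmod : ((κ : ℤ) * v) % (p * q) = κ * v :=
      Int.emod_eq_of_lt hκv0.le (by nlinarith)
    refine sideIP h hI (e := 0) (m := κ) ?_ (by omega) (by omega) ?_ ?_
    · intro n hn hn0
      have hn' : (n : ℤ) ≤ p - 1 := by omega
      have hn1 : (1 : ℤ) ≤ n := by omega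
      have h1 : (n : ℤ) * v ≤ (p - 1) * v := mul_le_mul_of_nonneg_right hn' (by omega)
      have h2 : 0 < (n : ℤ) * v := mul_pos (by omega) (by omega)
      have h3 : ((p : ℤ) - 1) * v ≤ (p - 1) * q := mul_le_mul_of_nonneg_left (by omega) (by omega)
      have e1 : (((0 : ℕ) : ℤ) - n) * v = (p * q - n * v) + (p * q) * (-1) := by
        push_cast
        ring
      have h5 : ((p : ℤ) - 1) * q = p * q - q := by ring
      rw [e1, Int.add_mul_emod_self_left, Int.emod_eq_of_lt (by omega) (by omega)]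
      omega
    · rw [hbκ, hmod]
      have : (q : ℤ) * (p - (p - 1)) = q := by ring
      rw [this]
      exact hgt
    · rw [hmod]
      have h5 : ((p : ℤ) - 2) * q = p * q - 2 * q := by ring
      omega

end Pool.Agent.Helper10.TB
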