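import Pool.Agent.Helper10.TB.MMid
import Pool.Agent.Helper10.TB.MStripCp
import Pool.Agent.Helper10.TB.MStripCm
import Pool.Agent.Helper10.TB.MStripDp
import Pool.Agent.Helper10.TB.MStripDm
import Pool.Agent.Helper55.FT.Flat

set_option autoImplicit false

/-!
# Assembly

Every admissible `v` violates flatness (`viol`), and the consequence for flat polynomials (`flat_imp`).
-/

namespace Pool.Agent.Helper10.TB

open Pool.Agent.Helper55.FT Polynomial

theorem viol {p q : ℕ} {b v : ℤ} (h : H p q b v) : VV p q v := by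
  have hp2 : (11 : ℤ) ≤ p := by exact_mod_cast h.h11
  have hq2 : (11 : ℤ) < q := by
    have := h.hpq; have := h.h11; omega
  have hb2 := h.hb2
  have hbp := h.hbp
  have hvM := h.hvM
  have hv1 := h.hv1
  have hbq1 : 2 * (q : ℤ) ≤ b * q := mul_le_mul_of_nonneg_right hb2 (by omega)
  have hbq2 : b * (q : ℤ) ≤ (p - 2) * q := mul_le_mul_of_nonneg_right hbp (by omega)
  have hne1 : v ≠ q := fun h1 => h.hvq (by rw [h1])
  have hne2 : v ≠ p * q - q := fun h1 => h.hvq ⟨p - 1, by rw [h1]; ring⟩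
  rcases lt_or_gt_of_ne hne1 with hv | hv
  · exact stripDp h hv
  rcases lt_or_gt_of_ne hne2 with hv' | hv'
  swap
  · exact stripDm h hv'
  have hqv : ∀ t : ℤ, v + b * q ≠ t * q := by
    intro t ht
    exact h.hvq ⟨t - b, by linear_combination ht⟩
  by_cases hI : v + b * q < p * q
  · have hmod : (v + b * q) % ((p : ℤ) * q) = v + b * q := Int.emod_eq_of_lt (by omega) hI
    by_cases h4 : v + b * q < p * q - q
    · exact mid h hv hv' (by rw [hmod]; omega) (by rw [hmod]; exact h4)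
    · have h5 : v + b * q ≠ p * q - q := fun h6 => hqv (p - 1) (by rw [h6]; ring)
      exact stripCm (Θ := p * q - (v + b * q)) h (by ring) (by omega) (by omega)
  · have h0 : v + b * q ≠ p * q := hqv p
    have hmod : (v + b * q) % ((p : ℤ) * q) = v + b * q - p * q := by
      rw [← Int.sub_emod_right, Int.emod_eq_of_lt (by omega) (by linarith)]
    by_cases h4 : v + b * q - p * q < q
    · exact stripCp (Θ := v + b * q - p * q) h (by ring) (by omega) h4
    · have h5 : v + b * q - p * q ≠ q := fun h6 => hqv (p + 1) (by linear_combination h6)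
      exact mid h hv hv' (by rw [hmod]; omega) (by rw [hmod]; linarith)

theorem flat_imp {p q r : ℕ} (hp : p.Prime) (hq : q.Prime) (hr : r.Prime) (h11 : 11 ≤ p)
    (hpq : p < q) (hqr : q < r)
    (hrp : Int.ModEq (p : ℤ) (r : ℤ) 1 ∨ Int.ModEq (p : ℤ) (r : ℤ) (-1))
    (hflat : ∀ n : ℕ, |(cyclotomic (p * q * r) ℤ).coeff n| ≤ 1) :
    (Int.ModEq (p : ℤ) (q : ℤ) 1 ∨ Int.ModEq (p : ℤ) (q : ℤ) (-1)) ∨
    (Int.ModEq ((p * q : ℕ) : ℤ) (r : ℤ) 1 ∨ Int.ModEq ((p * q : ℕ) : ℤ) (r : ℤ) (-1)) := by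
  by_contra hcon
  push Not at hcon
  obtain ⟨⟨hq1, hq2⟩, hr1, hr2⟩ := hcon
  have hM : 0 < p * q := Nat.mul_pos hp.pos hq.pos
  have hMi : (0 : ℤ) < ((p * q : ℕ) : ℤ) := by exact_mod_cast hM
  have hppos : (0 : ℤ) < p := by exact_mod_cast hp.pos
  have hcop : IsCoprime (r : ℤ) ((p * q : ℕ) : ℤ) := by
    rw [Nat.isCoprime_iff_coprime]
    exact Nat.Coprime.mul_right ((Nat.coprime_primes hr hp).2 (by omega))
      ((Nat.coprime_primes hr hq).2 (by omega))
  have hcopq : IsCoprime (q : ℤ) (p : ℤ) := by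
    rw [Nat.isCoprime_iff_coprime]
    exact (Nat.coprime_primes hq hp).2 (by omega)
  -- the inverse of `r`
  obtain ⟨D, c, hDc⟩ := hcop
  have hD : ((p * q : ℕ) : ℤ) ∣ D * r - 1 := ⟨-c, by linear_combination hDc⟩
  -- `b`
  obtain ⟨b, hb0, hb1, hbq⟩ : ∃ b : ℤ, 0 ≤ b ∧ b < p ∧ (p : ℤ) ∣ b * q + 1 := by
    obtain ⟨x, y, hxy⟩ := hcopq
    refine ⟨(-x) % p, Int.emod_nonneg _ hppos.ne', Int.emod_lt_of_pos _ hppos, ?_⟩
    have h1 : (p : ℤ) ∣ (-x) % p - (-x) := by
      refine ⟨-((-x) / p), ?_⟩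
      have := Int.emod_add_mul_ediv (-x) p
      linarith
    have h2 : (-x) % p * q + 1 = ((-x) % p - (-x)) * q + p * y := by
      linear_combination (-1 : ℤ) * hxy
    rw [h2]
    exact dvd_add (h1.mul_right _) (dvd_mul_right _ _)
  have hdvd_q : ∀ t : ℤ, (p : ℤ) ∣ t * q → (p : ℤ) ∣ t := fun t ht =>
    hcopq.symm.dvd_of_dvd_mul_right ht
  have hbne0 : b ≠ 0 := by
    rintro rfl
    rw [zero_mul, zero_add] at hbq
    have := Int.le_of_dvd one_pos hbq
    omega
  have hbne1 : b ≠ 1 := by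
    rintro rfl
    apply hq2
    rw [Int.modEq_iff_dvd]
    have : -1 - (q : ℤ) = -(1 * q + 1) := by ring
    rw [this]
    exact hbq.neg_right
  have hbnep : b ≠ p - 1 := by
    rintro rfl
    apply hq1
    rw [Int.modEq_iff_dvd]
    have : 1 - (q : ℤ) = ((p - 1) * q + 1) - p * q := by ring
    rw [this]
    exact dvd_sub hbq (dvd_mul_right _ _)
  -- a general statement
  have key : ∀ D' : ℤ, (p : ℤ) ∣ D' + 1 → IsCoprime D' ((p * q : ℕ) : ℤ) →
      ¬ ((p * q : ℕ) : ℤ) ∣ D' + 1 → ∃ N k : ℤ, 0 ≤ N ∧ N < p * q ∧ 2 ≤ |G p q D' N k| := by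
    intro D' h1 h2 h3
    set v : ℤ := (-D') % ((p * q : ℕ) : ℤ) with hv
    have hv0 : 0 ≤ v := Int.emod_nonneg _ hMi.ne'
    have hvM : v < ((p * q : ℕ) : ℤ) := Int.emod_lt_of_pos _ hMi
    have hvD : ((p * q : ℕ) : ℤ) ∣ v + D' := by
      refine ⟨-((-D') / ((p * q : ℕ) : ℤ)), ?_⟩
      have := Int.emod_add_mul_ediv (-D') ((p * q : ℕ) : ℤ)
      rw [← hv] at this
      linarith
    have hpM : (p : ℤ) ∣ ((p * q : ℕ) : ℤ) := by push_cast; exact dvd_mul_right _ _
    have hqM : (q : ℤ) ∣ ((p * q : ℕ) : ℤ) := by push_cast; exact dvd_mul_left _ _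
    have hvp : (p : ℤ) ∣ v - 1 := by
      have : v - 1 = (v + D') - (D' + 1) := by ring
      rw [this]
      exact dvd_sub (hpM.trans hvD) h1
    have hvq : ¬ (q : ℤ) ∣ v := by
      intro h4
      have h5 : (q : ℤ) ∣ D' := by
        have : D' = (v + D') - v := by ring
        rw [this]
        exact dvd_sub (hqM.trans hvD) h4
      have h6 := h2.isUnit_of_dvd' h5 hqM
      have h7 := Int.isUnit_iff.1 h6
      have := hq.two_le
      omega
    have hv1 : 1 < v := by
      have hne0 : v ≠ 0 := by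
        intro h4
        rw [h4] at hvq
        exact hvq (dvd_zero _)
      have hne1 : v ≠ 1 := by
        intro h4
        rw [h4, add_comm] at hvD
        exact h3 hvD
      omega
    have hH : H p q b v := ⟨hp, hq, h11, hpq, by omega, by omega, hbq, hv1,
      by push_cast at hvM; exact hvM, hvp, hvq⟩
    obtain ⟨N, k, hN0, hN1, hG⟩ := viol hH
    refine ⟨N, k, hN0, hN1, ?_⟩
    rw [G_congr_D (D' := -v) (by
      have : D' - -v = v + D' := by ring
      rw [this]; exact hvD)]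
    exact hG
  have hDcop : IsCoprime D ((p * q : ℕ) : ℤ) := ⟨r, c, by linear_combination hDc⟩
  have hpM : (p : ℤ) ∣ ((p * q : ℕ) : ℤ) := by push_cast; exact dvd_mul_right _ _
  have hDp : (p : ℤ) ∣ D * r - 1 := hpM.trans hD
  rcases hrp with h1 | h1
  · -- `r ≡ 1`
    rw [Int.modEq_iff_dvd] at h1
    have h2 : (p : ℤ) ∣ -D + 1 := by
      have : -D + 1 = -(D * r - 1) - D * (1 - r) := by ring
      rw [this]
      exact dvd_sub hDp.neg_right (h1.mul_left _)
    have h3 : ¬ ((p * q : ℕ) : ℤ) ∣ -D + 1 := by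
      intro h4
      apply hr1
      rw [Int.modEq_iff_dvd]
      have : 1 - (r : ℤ) = -(D * r - 1) - r * (-D + 1) := by ring
      rw [this]
      exact dvd_sub hD.neg_right (h4.mul_left _)
    obtain ⟨N, k, hN0, hN1, hG⟩ := key (-D) h2 hDcop.neg_left h3
    rw [G_neg, abs_neg] at hG
    have := G_le hp hq hr hpq hqr hflat hD (N := N) (k := k + (p - 1) * D + q * D) hN0 hN1
    omega
  · -- `r ≡ -1`
    rw [Int.modEq_iff_dvd] at h1
    have h2 : (p : ℤ) ∣ D + 1 := by
      have : D + 1 = -(D * r - 1) - D * (-1 - r) := by ring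
      rw [this]
      exact dvd_sub hDp.neg_right (h1.mul_left _)
    have h3 : ¬ ((p * q : ℕ) : ℤ) ∣ D + 1 := by
      intro h4
      apply hr2
      rw [Int.modEq_iff_dvd]
      have : -1 - (r : ℤ) = (D * r - 1) - r * (D + 1) := by ring
      rw [this]
      exact dvd_sub hD (h4.mul_left _)
    obtain ⟨N, k, hN0, hN1, hG⟩ := key D h2 hDcop h3
    have := G_le hp hq hr hpq hqr hflat hD (N := N) (k := k) hN0 hN1
    omega

end Pool.Agent.Helper10.TB
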