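import Mathlib

set_option autoImplicit false

/-!
# A small multiple with a smaller remainder

Claim: `p ≥ 11` prime, `3 ≤ b ≤ p - 2`; there is `1 ≤ m ≤ (p-1)/2` with `(b m) % p < m`.

PROOF. Let `κ ∈ [1, p-1]`, `κ b ≡ 1 (mod p)`; `κ ≥ 2`.  If `2 κ < p` take `m = κ` (remainder `1 < κ`).
Otherwise `κ' = p - κ`, `2 κ' < p`, `κ' b ≡ -1`, `κ' ≥ 2` (as `b ≠ p-1`), and `κ' ≠ (p-1)/2` (as `b ≠ 2`: `(p-1)/2 · b ≡ -1` gives
`b ≡ 2`).  So `2 κ' ≤ p - 3`.  For `j ≥ 1` with `j κ' < p` the number `m = p - j κ'` has `b m ≡ j (mod p)`.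
Let `j` be the least number with `2 j κ' > p`, i.e. `2 (j-1) κ' < p < 2 j κ'` (so `j ≥ 2`); then `m = p - j κ' > p/2 - κ' > 0`
and `2 m < p`; `j < p`.  It remains to see `j < m`.
* `4 κ' > p`: `j = 2`, `m = p - 2 κ' ≥ 3 > 2`.
* `4 κ' < p`, `κ' ≥ 3`: `2 m > p - 2 κ' > p/2`, so `m > p/4`; `j - 1 < p / (2 κ') ≤ p/6`, so `j < p/6 + 1 ≤ p/4`  if `p ≥ 12`; for
  `p = 11` this case does not occur (`3 ≤ κ' < 11/4`).
* `κ' = 2`: `j - 1 < p/4`, `m = p - 2 j > p - 2 - p/2 = p/2 - 2`, and `p/4 + 1 ≤ p/2 - 2` iff `p ≥ 12`; `p = 11`: `j = 3`, `m = 5`.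
-/

namespace Pool.Agent.Helper10.TB

theorem claimC {p : ℕ} (hp : p.Prime) (h11 : 11 ≤ p) {b : ℤ} (hb : 3 ≤ b) (hbp : b ≤ p - 2) :
    ∃ m : ℕ, 1 ≤ m ∧ 2 * m < p ∧ (b * m) % p < m := by
  have hodd : p % 2 = 1 := by
    rcases hp.eq_two_or_odd with h | h
    · omega
    · exact h
  obtain ⟨B, rfl⟩ : ∃ B : ℕ, b = (B : ℤ) := ⟨b.toNat, by omega⟩
  have hB3 : 3 ≤ B := by omega
  have hBp : B + 2 ≤ p := by omega
  have hcop : Nat.Coprime B p := by
    refine ((Nat.Prime.coprime_iff_not_dvd hp).2 (fun h => ?_)).symm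
    have := Nat.le_of_dvd (by omega) h
    omega
  obtain ⟨y, hy⟩ : ∃ y : ℕ, B * y % p = 1 := by
    obtain ⟨y, hy⟩ := Nat.exists_mul_mod_eq_one_of_coprime hcop (by omega)
    exact ⟨y, hy.2⟩
  -- reduce to `k < p`
  have hk : B * (y % p) % p = 1 := by rw [Nat.mul_mod_mod]; exact hy
  have hklt : y % p < p := Nat.mod_lt _ (by omega)
  generalize y % p = k at hk hklt
  by_cases h2 : 2 * k < p
  · refine ⟨k, ?_, h2, ?_⟩
    · rcases Nat.eq_zero_or_pos k with h | h
      · subst h; simp at hk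
      · exact h
    · have h1 : ((B : ℤ) * k) % p = 1 := by exact_mod_cast hk
      rw [h1]
      rcases Nat.lt_or_ge 1 k with h | h
      · exact_mod_cast h
      · exfalso
        have : k = 0 ∨ k = 1 := by omega
        rcases this with rfl | rfl
        · simp at hk
        · rw [mul_one, Nat.mod_eq_of_lt (by omega)] at hk
          omega
  · -- complement
    have hkeq : (B : ℤ) * k = 1 + p * ((B * k / p : ℕ) : ℤ) := by
      have := Nat.div_add_mod (B * k) p
      rw [hk] at this
      have h3 : ((p * (B * k / p) + 1 : ℕ) : ℤ) = ((B * k : ℕ) : ℤ) := by rw [this]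
      push_cast at h3
      push_cast
      linarith
    obtain ⟨c, hc⟩ : ∃ c : ℕ, c + k = p := ⟨p - k, by omega⟩
    obtain ⟨t, ht⟩ : ∃ t : ℤ, (B : ℤ) * c = p * t - 1 := by
      refine ⟨B - ((B * k / p : ℕ) : ℤ), ?_⟩
      have h4 : (c : ℤ) = p - k := by
        have : ((c + k : ℕ) : ℤ) = p := by rw [hc]
        push_cast at this
        linarith
      rw [h4, mul_sub, hkeq]
      ring
    have hc1 : 1 ≤ c := by omega
    have hc2 : 2 * c < p := by omega
    have hc2' : 2 ≤ c := by
      by_contra hcon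
      have h5 : c = 1 := by omega
      rw [h5] at ht
      push_cast at ht
      rcases le_or_gt t 0 with h6 | h6
      · nlinarith
      · nlinarith
    have hc3 : 2 * c + 3 ≤ p := by
      by_contra hcon
      have h5 : 2 * c + 1 = p := by omega
      have h6 : 2 * (c : ℤ) = p - 1 := by
        have : ((2 * c + 1 : ℕ) : ℤ) = p := by rw [h5]
        push_cast at this
        linarith
      have h7 : (B : ℤ) - 2 = p * (B - 2 * t) := by
        have : (B : ℤ) * (2 * c) = 2 * (p * t - 1) := by rw [← ht]; ring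
        rw [h6] at this
        linarith
      have h8 : (B : ℤ) + 2 ≤ p := by exact_mod_cast hBp
      have h9 : (3 : ℤ) ≤ B := by exact_mod_cast hB3
      rcases le_or_gt ((B : ℤ) - 2 * t) 0 with h6 | h6
      · nlinarith
      · nlinarith
    -- the multiple
    set q := p / (2 * c) with hq
    have hq1 : 2 * c * q + p % (2 * c) = p := Nat.div_add_mod p (2 * c)
    have hq2 : p % (2 * c) < 2 * c := Nat.mod_lt _ (by omega)
    have hq3 : p % (2 * c) ≠ 0 := by
      intro h
      rw [h, mul_assoc] at hq1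
      omega
    obtain ⟨P, hP⟩ : ∃ P, P = c * q := ⟨_, rfl⟩
    have hq1' : 2 * P + p % (2 * c) = p := by rw [hP, ← mul_assoc]; exact hq1
    generalize p % (2 * c) = e at hq1' hq2 hq3
    have hqpos : 1 ≤ q := by
      rcases Nat.eq_zero_or_pos q with h | h
      · rw [h, mul_zero] at hP
        omega
      · exact h
    obtain ⟨m, hm⟩ : ∃ m : ℕ, m + P + c = p := ⟨p - P - c, by omega⟩
    have hj : q + 1 < m := by
      rcases Nat.lt_or_ge 1 q with h | h
      · have hPc : 2 * c ≤ P := by rw [hP]; nlinarith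
        rcases Nat.lt_or_ge 2 c with h3 | h3
        · have hPq : 3 * q ≤ P := by rw [hP]; nlinarith
          rcases Nat.lt_or_ge 11 p with h12 | h12
          · omega
          · exfalso
            omega
        · have hc' : c = 2 := by omega
          subst hc'
          omega
      · have hq' : q = 1 := by omega
        rw [hq', mul_one] at hP
        omega
    have hmz : (m : ℤ) = p - (q + 1) * c := by
      have : ((m + P + c : ℕ) : ℤ) = p := by rw [hm]
      rw [hP] at this
      push_cast at this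
      linarith
    refine ⟨m, by omega, by omega, ?_⟩
    have hmul : (B : ℤ) * m = ((q + 1 : ℕ) : ℤ) + p * (B - (q + 1) * t) := by
      rw [hmz]
      push_cast
      have : (B : ℤ) * (p - (q + 1) * c) = B * p - (q + 1) * (B * c) := by ring
      rw [this, ht]
      ring
    rw [hmul, Int.add_mul_emod_self_left, Int.emod_eq_of_lt (by positivity) ?_]
    · exact_mod_cast hj
    · have : q + 1 < p := by omega
      exact_mod_cast this

end Pool.Agent.Helper10.TB
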