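import Pool.Agent.Helper10.TB.MTel

set_option autoImplicit false

/-!
# The test with a single point in the window

Notation: `m = A - e`, `α = al m`, `α' = al (m+1)`, `β = be m`, `β' = be (m+1)`.

PROOF of `emptyPlus`. `b q ≡ -1 (mod p)`, `v ≡ 1 (mod p)` give
`β ≡ -m - q ≡ q α (mod p)`, `β' ≡ q α' ≡ -m - 1 - q (mod p)`.  Put `N = max (q α) (β' + 1)`; then `p ∣ N - q α`
(both are `≡ -m - q`), and `N < β`, `N < q α'`: indeed `q α < β` (h3), `q α < q α'` (h1), `β' + 1 ≤ β` by h2 and
`β' + 1 ≠ β` because otherwise `v ≡ 1 (mod pq)` (`β - β' ≡ v`), contradicting `1 < v < pq`; `β' + 1 < q α'` because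
`q α' - β'` is a positive multiple of `p`.  `N < q α' ≤ (p-1) q`.  Put `k = N - e v`.  Then with `y_n = (k + n v) % (pq)`: `y_e = N`
and for `n ≠ e` (`gapok`) NOT `N - q < y_n ≤ N` (`N - y_n ≡ (e - n) v`).
`p ∣ k + A v + q`: `k + A v + q = N + (A-e) v + q ≡ q α + m + q ≡ 0`.  So by `tel` (the sum has one term)
`G = av N + [y'_{A+1} ≤ N] - [y'_A ≤ N]`, `y'_A = (N + m v + q) % (pq) = (N - β) % (pq) = N - β + pq > N` (as `0 ≤ N < β < pq`) and
`y'_{A+1} = (N - β') % (pq) = N - β' ≤ N` (as `0 ≤ β' ≤ N`).  By `av_eval` with `l = α`, `l' = α'`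
(`p ∣ N - q α`; `N - 1 - q α' ≡ -m - q - 1 - q α' ≡ 0`): `av N = [q α ≤ N] - [q α' ≤ N] = 1`.  So `G = 2`.

`emptyMinus`: `N = max (q α' + 1) β`, `G = -1 + 0 - 1 = -2`:
`N < q α` (the difference `q α - q α' - 1` is a multiple of `p`, and it is `≥ q - 1 > 0`; `β < q α`), `N < β'`
(`β' - q α'` is a positive multiple of `p`, so `q α' + 1 < β'`; `β < β'`), `p ∣ N - q α`,
`av N = [q α ≤ N] - [q α' ≤ N] = -1`, `y'_A ≤ N` as `β ≤ N`, `y'_{A+1} > N` as `N < β'`.
-/

namespace Pool.Agent.Helper10.TB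

open Finset Pool.Agent.Helper55.FT

theorem cond_MEmpty {M N x : ℤ} (hM : 0 < M) (hN0 : 0 ≤ N) (hN1 : N < M) :
    ((N - x) % M ≤ N) ↔ x % M ≤ N := by
  have hb0 : 0 ≤ x % M := Int.emod_nonneg _ hM.ne'
  have hb1 : x % M < M := Int.emod_lt_of_pos _ hM
  have h1 : (N - x) % M = (N - x % M) % M := by
    rw [Int.sub_emod, Int.sub_emod N (x % M), Int.emod_emod]
  rw [h1]
  by_cases h2 : x % M ≤ N
  · rw [Int.emod_eq_of_lt (by linarith) (by linarith)]
    constructor
    · intro _
      exact h2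
    · intro _
      linarith
  · have h3 : (N - x % M) % M = N - x % M + M := by
      rw [← Int.add_emod_right (N - x % M) M]
      exact Int.emod_eq_of_lt (by linarith) (by linarith)
    rw [h3]
    constructor
    · intro h4
      exfalso
      linarith
    · intro h4
      exact absurd h4 h2

theorem al_MEmpty {p q : ℕ} {b v : ℤ} (h : H p q b v) (m : ℤ) :
    (p : ℤ) ∣ q * al p b m + m + q := by
  have h1 : (p : ℤ) ∣ (b * m - 1) - al p b m := by
    unfold al
    exact Int.dvd_self_sub_emod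
  have h2 : q * al p b m + m + q = m * (b * q + 1) - q * ((b * m - 1) - al p b m) := by ring
  rw [h2]
  exact dvd_sub (Dvd.dvd.mul_left h.hbq _) (Dvd.dvd.mul_left h1 _)

theorem be_MEmpty {p q : ℕ} {b v : ℤ} (h : H p q b v) (m : ℤ) :
    (p : ℤ) ∣ be p q v m + m + q := by
  have h1 : (p : ℤ) ∣ (-m * v - q) - be p q v m := by
    unfold be
    exact dvd_trans (dvd_mul_right _ _) Int.dvd_self_sub_emod
  have h2 : be p q v m + m + q = -(((-m * v - q) - be p q v m) + m * (v - 1)) := by ring
  rw [h2]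
  exact (dvd_add h1 (Dvd.dvd.mul_left h.hvp _)).neg_right

theorem core_MEmpty {p q : ℕ} {b v : ℤ} (h : H p q b v) {e A : ℕ} (he : e < p) (hA : A + 1 < p)
    (hg : gapok p q v e) {N : ℤ} (hN0 : 0 ≤ N) (hN1 : N < p * q - q)
    (hN : (p : ℤ) ∣ N - q * al p b (A - e)) :
    G p q (-v) N (N - e * v) =
      (if q * al p b (A - e) ≤ N then 1 else 0) - (if q * al p b (A + 1 - e) ≤ N then 1 else 0)
      + (if be p q v (A + 1 - e) ≤ N then 1 else 0)
      - (if be p q v (A - e) ≤ N then 1 else 0) := by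
  have hp := h.hp
  have hq := h.hq
  have hq0 : (0 : ℤ) < q := by exact_mod_cast hq.pos
  have hp0 : (0 : ℤ) < p := by exact_mod_cast hp.pos
  have hM : (0 : ℤ) < p * q := by positivity
  have hNM : N < p * q := by linarith
  have hal := al_MEmpty h ((A : ℤ) - e)
  have hal' := al_MEmpty h ((A : ℤ) + 1 - e)
  have hAk : (p : ℤ) ∣ (N - e * v) + A * v + q := by
    have h1 : (N - e * v) + A * v + q = (N - q * al p b (A - e))
        + (q * al p b (A - e) + (A - e) + q) + (A - e) * (v - 1) := by ring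
    rw [h1]
    exact dvd_add (dvd_add hN hal) (Dvd.dvd.mul_left h.hvp _)
  rw [tel h hN0 hN1 hA hAk]
  have hsum : (∑ n ∈ range p, if N - q < (N - e * v + n * v) % (p * q) ∧
      (N - e * v + n * v) % (p * q) ≤ N then av p q ((N - e * v + n * v) % (p * q)) else 0)
      = av p q N := by
    rw [Finset.sum_eq_single e]
    · have h1 : N - e * v + e * v = N := by ring
      rw [h1, Int.emod_eq_of_lt hN0 hNM, if_pos ⟨by linarith, le_refl N⟩]
    · intro n hn hne
      rw [if_neg]
      rintro ⟨h1, h2⟩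
      have h3 := hg n (mem_range.1 hn) hne
      have h4 : (((e : ℤ) - n) * v) % (p * q) =
          (N - (N - e * v + n * v) % (p * q)) % (p * q) := by
        have h5 : ((e : ℤ) - n) * v = N - (N - e * v + n * v) := by ring
        rw [h5, Int.sub_emod, Int.sub_emod N ((N - e * v + n * v) % (p * q)), Int.emod_emod]
      have h6 : (p : ℤ) * q ≥ q := by nlinarith
      rw [h4, Int.emod_eq_of_lt (by linarith) (by linarith)] at h3
      linarith
    · intro h1
      exact absurd (mem_range.2 he) h1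
  rw [hsum]
  have hav : av p q N = (if q * al p b (A - e) ≤ N then 1 else 0)
      - (if q * al p b (A + 1 - e) ≤ N then 1 else 0) := by
    have h1 := av_eval (y := N) (l := al p b (A - e)) (l' := al p b (A + 1 - e)) hp hq h.hpq
      (Int.emod_nonneg _ hp0.ne') (Int.emod_lt_of_pos _ hp0)
      (Int.emod_nonneg _ hp0.ne') (Int.emod_lt_of_pos _ hp0)
      (by rw [mul_comm]; exact hN)
      (by
        have h2 : N - 1 - al p b (A + 1 - e) * q = (N - q * al p b (A - e))
            + (q * al p b (A - e) + (A - e) + q)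
            - (q * al p b (A + 1 - e) + (A + 1 - e) + q) := by ring
        rw [h2]
        exact dvd_sub (dvd_add hN hal) hal')
    rw [h1, mul_comm (al p b (A - e)), mul_comm (al p b (A + 1 - e))]
  rw [hav]
  have c1 : ((N - e * v + (A + 1) * v + q) % (p * q) ≤ N) ↔ be p q v (A + 1 - e) ≤ N := by
    have h1 : N - e * v + (A + 1) * v + q = N - (-((A : ℤ) + 1 - e) * v - q) := by ring
    rw [h1]
    exact cond_MEmpty hM hN0 hNM
  have c2 : ((N - e * v + A * v + q) % (p * q) ≤ N) ↔ be p q v (A - e) ≤ N := by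
    have h1 : N - e * v + A * v + q = N - (-((A : ℤ) - e) * v - q) := by ring
    rw [h1]
    exact cond_MEmpty hM hN0 hNM
  simp only [c1, c2]

theorem emptyPlus {p q : ℕ} {b v : ℤ} (h : H p q b v) {e A : ℕ} (he : e < p) (hA : A + 1 < p)
    (hg : gapok p q v e)
    (h1 : al p b (A - e) < al p b (A + 1 - e)) (h2 : be p q v (A + 1 - e) < be p q v (A - e))
    (h3 : q * al p b (A - e) < be p q v (A - e))
    (h4 : be p q v (A + 1 - e) < q * al p b (A + 1 - e)) : VV p q v := by
  have hq0 : (0 : ℤ) < q := by exact_mod_cast h.hq.pos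
  have hp0 : (0 : ℤ) < p := by exact_mod_cast h.hp.pos
  have h11 : (11 : ℤ) ≤ p := by exact_mod_cast h.h11
  have hM : (0 : ℤ) < p * q := by positivity
  have ha0 : 0 ≤ al p b (A - e) := Int.emod_nonneg _ hp0.ne'
  have ha1 : al p b (A + 1 - e) < p := Int.emod_lt_of_pos _ hp0
  have hb0 : 0 ≤ be p q v (A + 1 - e) := Int.emod_nonneg _ hM.ne'
  have hb1 : be p q v (A - e) < p * q := Int.emod_lt_of_pos _ hM
  have hal := al_MEmpty h ((A : ℤ) - e)
  have hal' := al_MEmpty h ((A : ℤ) + 1 - e)
  have hbe := be_MEmpty h ((A : ℤ) - e)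
  have hbe' := be_MEmpty h ((A : ℤ) + 1 - e)
  have hqa : q * al p b (A - e) < q * al p b (A + 1 - e) := mul_lt_mul_of_pos_left h1 hq0
  have hqa0 : 0 ≤ q * al p b (A - e) := mul_nonneg hq0.le ha0
  have hqa1 : q * al p b (A + 1 - e) ≤ p * q - q := by
    have h5 : al p b (A + 1 - e) ≤ p - 1 := by linarith
    have h6 := mul_le_mul_of_nonneg_left h5 hq0.le
    linarith
  have hne : be p q v (A + 1 - e) + 1 < be p q v (A - e) := by
    rcases lt_or_eq_of_le (Int.add_one_le_of_lt h2) with h5 | h5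
    · exact h5
    · exfalso
      have h6 : ((p : ℤ) * q) ∣ (-((A : ℤ) - e) * v - q) - be p q v (A - e) := by
        unfold be
        exact Int.dvd_self_sub_emod
      have h7 : ((p : ℤ) * q) ∣ (-((A : ℤ) + 1 - e) * v - q) - be p q v (A + 1 - e) := by
        unfold be
        exact Int.dvd_self_sub_emod
      have h8 : ((p : ℤ) * q) ∣ v - 1 := by
        have h9 : v - 1 = ((-((A : ℤ) - e) * v - q) - be p q v (A - e))
            - ((-((A : ℤ) + 1 - e) * v - q) - be p q v (A + 1 - e)) := by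
          rw [← h5]
          ring
        rw [h9]
        exact dvd_sub h6 h7
      have h10 := Int.le_of_dvd (by linarith [h.hv1]) h8
      linarith [h.hvM]
  have hpm : be p q v (A + 1 - e) + p ≤ q * al p b (A + 1 - e) := by
    have h5 : (p : ℤ) ∣ q * al p b (A + 1 - e) - be p q v (A + 1 - e) := by
      have h6 : q * al p b (A + 1 - e) - be p q v (A + 1 - e) =
          (q * al p b (A + 1 - e) + (A + 1 - e) + q)
          - (be p q v (A + 1 - e) + (A + 1 - e) + q) := by ring
      rw [h6]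
      exact dvd_sub hal' hbe'
    have h7 := Int.le_of_dvd (by linarith) h5
    linarith
  obtain ⟨N, hN⟩ : ∃ N, N = max (q * al p b (A - e)) (be p q v (A + 1 - e) + 1) := ⟨_, rfl⟩
  have n1 : q * al p b (A - e) ≤ N := hN ▸ le_max_left _ _
  have n2 : be p q v (A + 1 - e) + 1 ≤ N := hN ▸ le_max_right _ _
  have n3 : N < be p q v (A - e) := hN ▸ max_lt h3 hne
  have n4 : N < q * al p b (A + 1 - e) := hN ▸ max_lt hqa (by linarith)
  have n5 : (p : ℤ) ∣ N - q * al p b (A - e) := by
    rcases max_choice (q * al p b (A - e)) (be p q v (A + 1 - e) + 1) with h5 | h5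
    · rw [hN, h5, sub_self]
      exact dvd_zero _
    · rw [hN, h5]
      have h6 : be p q v (A + 1 - e) + 1 - q * al p b (A - e) =
          (be p q v (A + 1 - e) + (A + 1 - e) + q) - (q * al p b (A - e) + (A - e) + q) := by
        ring
      rw [h6]
      exact dvd_sub hbe' hal
  refine ⟨N, N - e * v, by linarith, by linarith, ?_⟩
  rw [core_MEmpty h he hA hg (by linarith) (by linarith) n5, if_pos n1, if_neg (not_le.2 n4),
    if_pos (by linarith), if_neg (not_le.2 n3)]
  norm_num

theorem emptyMinus {p q : ℕ} {b v : ℤ} (h : H p q b v) {e A : ℕ} (he : e < p) (hA : A + 1 < p)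
    (hg : gapok p q v e)
    (h1 : al p b (A + 1 - e) < al p b (A - e)) (h2 : be p q v (A - e) < be p q v (A + 1 - e))
    (h3 : be p q v (A - e) < q * al p b (A - e))
    (h4 : q * al p b (A + 1 - e) < be p q v (A + 1 - e)) : VV p q v := by
  have hq0 : (0 : ℤ) < q := by exact_mod_cast h.hq.pos
  have hp0 : (0 : ℤ) < p := by exact_mod_cast h.hp.pos
  have h11 : (11 : ℤ) ≤ p := by exact_mod_cast h.h11
  have hq11 : (11 : ℤ) < q := by
    have h5 : (p : ℤ) < q := by exact_mod_cast h.hpq
    linarith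
  have hM : (0 : ℤ) < p * q := by positivity
  have ha0 : 0 ≤ al p b (A + 1 - e) := Int.emod_nonneg _ hp0.ne'
  have ha1 : al p b (A - e) < p := Int.emod_lt_of_pos _ hp0
  have hb0 : 0 ≤ be p q v (A - e) := Int.emod_nonneg _ hM.ne'
  have hb1 : be p q v (A + 1 - e) < p * q := Int.emod_lt_of_pos _ hM
  have hal := al_MEmpty h ((A : ℤ) - e)
  have hal' := al_MEmpty h ((A : ℤ) + 1 - e)
  have hbe := be_MEmpty h ((A : ℤ) - e)
  have hbe' := be_MEmpty h ((A : ℤ) + 1 - e)
  have hqa : q * al p b (A + 1 - e) + q ≤ q * al p b (A - e) := by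
    have h5 : al p b (A + 1 - e) + 1 ≤ al p b (A - e) := Int.add_one_le_of_lt h1
    have h6 := mul_le_mul_of_nonneg_left h5 hq0.le
    linarith
  have hqa0 : 0 ≤ q * al p b (A + 1 - e) := mul_nonneg hq0.le ha0
  have hqa1 : q * al p b (A - e) ≤ p * q - q := by
    have h5 : al p b (A - e) ≤ p - 1 := by linarith
    have h6 := mul_le_mul_of_nonneg_left h5 hq0.le
    linarith
  have hpm : q * al p b (A + 1 - e) + p ≤ be p q v (A + 1 - e) := by
    have h5 : (p : ℤ) ∣ be p q v (A + 1 - e) - q * al p b (A + 1 - e) := by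
      have h6 : be p q v (A + 1 - e) - q * al p b (A + 1 - e) =
          (be p q v (A + 1 - e) + (A + 1 - e) + q)
          - (q * al p b (A + 1 - e) + (A + 1 - e) + q) := by ring
      rw [h6]
      exact dvd_sub hbe' hal'
    have h7 := Int.le_of_dvd (by linarith) h5
    linarith
  obtain ⟨N, hN⟩ : ∃ N, N = max (q * al p b (A + 1 - e) + 1) (be p q v (A - e)) := ⟨_, rfl⟩
  have n1 : q * al p b (A + 1 - e) + 1 ≤ N := hN ▸ le_max_left _ _
  have n2 : be p q v (A - e) ≤ N := hN ▸ le_max_right _ _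
  have n3 : N < be p q v (A + 1 - e) := hN ▸ max_lt (by linarith) h2
  have n4 : N < q * al p b (A - e) := hN ▸ max_lt (by linarith) h3
  have n5 : (p : ℤ) ∣ N - q * al p b (A - e) := by
    rcases max_choice (q * al p b (A + 1 - e) + 1) (be p q v (A - e)) with h5 | h5
    · rw [hN, h5]
      have h6 : q * al p b (A + 1 - e) + 1 - q * al p b (A - e) =
          (q * al p b (A + 1 - e) + (A + 1 - e) + q) - (q * al p b (A - e) + (A - e) + q) := by
        ring
      rw [h6]
      exact dvd_sub hal' hal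
    · rw [hN, h5]
      have h6 : be p q v (A - e) - q * al p b (A - e) =
          (be p q v (A - e) + (A - e) + q) - (q * al p b (A - e) + (A - e) + q) := by
        ring
      rw [h6]
      exact dvd_sub hbe hal
  refine ⟨N, N - e * v, by linarith, by linarith, ?_⟩
  rw [core_MEmpty h he hA hg (by linarith) (by linarith) n5, if_neg (not_le.2 n4),
    if_pos (by linarith), if_neg (not_le.2 n3), if_pos n2]
  norm_num

end Pool.Agent.Helper10.TB
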