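import Pool.Agent.Helper10.TB.MNCend

set_option autoImplicit false

/-!
# The no-carry hypothesis is contradictory for `2 b > p`, `b ≤ p - 3`, `2 u ≥ p q`

Write `c = p - b ≥ 3`, `2 c < p`, `C m = (c m)/p`; for `1 ≤ m < p`: `(b m)/p = m - 1 - C m` (as `p ∤ c m`), so for `1 ≤ m`, `2 m < p`:
`jj m + ii m + C m = m - 1`.   Phases: `x m = m w - (jj m) p q ∈ [-(q-1), p q - q]`, `y m = m u - (ii m) p q ∈ [0, p q)`,
`z m = m c q - (C m) p q ∈ [q, p q)`;  `w + u + c q = p q`, so `x m + y m + z m = p q`.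
In each step `m - 1 → m` (`m ≥ 2`) exactly one of `jj, ii, C` increases, by one (each step is `0` or `1` as `w, u, c q < p q`).

PROOF (case `2 u ≥ p q`). `β := p q - u = w + c q`, `2 β ≤ p q`.  `g := (p q) / β ≥ 2` (floor): `g β ≤ p q < (g+1) β`.
For `1 ≤ m ≤ g`: `ii m = m - 1` (`m u - (m-1) p q = p q - m β ∈ [0, p q)`), hence `jj m = C m = 0` (if `2 m < p`).
`ii (g+1) = g - 1`, `y (g+1) = 2 p q - (g+1) β`.
If `2 (g+1) > p` then `jj m = 0` for all `m < p/2`, contradiction to `jj_wraps`.  So `2 (g+1) < p`, `m0 := g + 1`, and `jj m0 + C m0 = 1`.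

(Z = C, Y = J) Suppose `jj m0 = 1`, `C m0 = 0`.  As `c ≥ 3`, `C` is not `0` on all `m < p/2` (`c (p-1)/2 ≥ p`); let `n` be the least `m` with `C m ≥ 1`; `n > m0`, `2n<p`.
Let `n⁻` be the largest `m < n` with `ii m = ii (m-1)`; `n⁻ ≥ m0`.  Put `t = n - n⁻ ≥ 1`; in between `ii` increases `t - 1` times:
`y (n-1) = y n⁻ - (t-1) β ≥ 0`.  And `y n⁻ = y (n⁻-1) + u ≥ u = p q - β`.  `(t-1) β ≤ y n⁻ < p q` gives `t - 1 ≤ g`.
`c q (g+1) = z m0 = p q - y m0 - x m0 = (g+1) β - p q - x m0`.  `c q n⁻ = z n⁻ = p q - y n⁻ - x n⁻`.  `c q n ≥ p q`.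
* `t = g + 1`: `y n⁻ ≥ g β`: `p q ≤ c q n = c q n⁻ + (g+1) c q ≤ p q - g β - x n⁻ + (g+1) β - p q - x m0 = β - x n⁻ - x m0 ≤ β + 2 (q-1)`;
  with `2 β ≤ p q` this gives `p q ≤ 4 (q-1)`, contradiction.
* `t ≤ g`: `c q n⁻ ≤ β - x n⁻`, `t c q ≤ g c q = (g+1) β - p q - x m0 - c q ≤ β - x m0 - c q`; so `p q ≤ 2 β - x n⁻ - x m0 - c q ≤ p q + 2 (q-1) - c q`,
  so `c q ≤ 2 (q-1)`, contradiction.

(Z = J, Y = C) Suppose `jj m0 = 0`, `C m0 = 1`.  By `jj_wraps` let `n` be least with `jj n ≥ 1`; `n > m0`, `n w + q - 1 ≥ p q`.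
`n⁻`, `t` as before.  `(g+1) w = x m0 = (g+1) β - p q - z m0`, `n⁻ w = x n⁻ = p q - y n⁻ - z n⁻`.  `z ≥ q`.
* `t = g + 1`: `p q - q + 1 ≤ n w ≤ p q - g β - z n⁻ + (g+1) β - p q - z m0 = β - z n⁻ - z m0 ≤ β - 2 q`: contradiction with `2 β ≤ p q`.
* `t ≤ g`: `p q - q + 1 ≤ n w ≤ β - z n⁻ + β - z m0 - w ≤ p q - 2 q - w`: contradiction.
-/

namespace Pool.Agent.Helper10.TB

private theorem core_MNChiI (p : ℕ) (hodd : ∀ g : ℕ, 2 * g ≠ p) (P q w u v : ℤ) (J I C : ℕ → ℤ)
    (hP : 11 * q ≤ P) (hq : 0 < q) (hw : q < w) (hv : 3 * q ≤ v)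
    (hsum : w + u + v = P)
    (hJ1 : ∀ m : ℕ, J m * P ≤ m * w + q - 1) (hJ2 : ∀ m : ℕ, m * w + q - 1 < J m * P + P)
    (hI1 : ∀ m : ℕ, I m * P ≤ m * u) (hI2 : ∀ m : ℕ, m * u < I m * P + P)
    (hC1 : ∀ m : ℕ, C m * P ≤ m * v) (hC2 : ∀ m : ℕ, m * v < C m * P + P)
    (hC3 : ∀ m : ℕ, 1 ≤ m → 2 * m < p → C m * P + q ≤ m * v)
    (hN : ∀ m : ℕ, 1 ≤ m → 2 * m < p → J m + I m + C m = m - 1)
    (hJw : ∃ m : ℕ, 1 ≤ m ∧ 2 * m < p ∧ J m ≠ 0)
    (hCw : ∃ m : ℕ, 1 ≤ m ∧ 2 * m < p ∧ C m ≠ 0)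
    (hX : P ≤ 2 * u) : False := by
  classical
  have hPpos : 0 < P := by linarith
  obtain ⟨β, hβ⟩ : ∃ β : ℤ, β = P - u := ⟨_, rfl⟩
  have hβpos : 0 < β := by linarith
  have hβ2 : 2 * β ≤ P := by linarith
  obtain ⟨g, hg1, hg2⟩ : ∃ g : ℕ, (g : ℤ) * β ≤ P ∧ P < ((g : ℤ) + 1) * β := by
    have h0 : 0 ≤ P / β := Int.ediv_nonneg hPpos.le hβpos.le
    refine ⟨(P / β).toNat, ?_, ?_⟩
    · rw [Int.toNat_of_nonneg h0]
      exact Int.ediv_mul_le P hβpos.ne'
    · rw [Int.toNat_of_nonneg h0]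
      exact Int.lt_ediv_add_one_mul_self P hβpos
  have hg1' : (g : ℤ) * β + β ≤ 2 * P := by linarith
  -- nonnegativity
  have hJ0 : ∀ m : ℕ, 0 ≤ J m := by
    intro m
    have h2 := hJ2 m
    have h3 : (0 : ℤ) ≤ m * w := mul_nonneg (by positivity) (by linarith)
    have h4 : (-1 : ℤ) < J m :=
      lt_of_mul_lt_mul_right (by linarith : (-1 : ℤ) * P < J m * P) hPpos.le
    linarith [Int.add_one_le_iff.mpr h4]
  have hC0 : ∀ m : ℕ, 0 ≤ C m := by
    intro m
    have h2 := hC2 m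
    have h3 : (0 : ℤ) ≤ m * v := mul_nonneg (by positivity) (by linarith)
    have h4 : (-1 : ℤ) < C m :=
      lt_of_mul_lt_mul_right (by linarith : (-1 : ℤ) * P < C m * P) hPpos.le
    linarith [Int.add_one_le_iff.mpr h4]
  -- steps of `I`
  have hIstep : ∀ m : ℕ, I (m + 1) = I m ∨ I (m + 1) = I m + 1 := by
    intro m
    have h1 := hI1 m
    have h2 := hI2 m
    have h3 := hI1 (m + 1)
    have h4 := hI2 (m + 1)
    push_cast at h3 h4
    have h5 : I m < I (m + 1) + 1 :=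
      lt_of_mul_lt_mul_right (by linarith : I m * P < (I (m + 1) + 1) * P) hPpos.le
    have h6 : I (m + 1) < I m + 2 :=
      lt_of_mul_lt_mul_right (by linarith : I (m + 1) * P < (I m + 2) * P) hPpos.le
    omega
  -- first phase
  have hIf : ∀ m : ℕ, 1 ≤ m → m ≤ g → I m = m - 1 := by
    intro m hm1 hm2
    have a := hI1 m
    have b := hI2 m
    have h1 : (m : ℤ) * β ≤ g * β :=
      mul_le_mul_of_nonneg_right (by exact_mod_cast hm2) hβpos.le
    have h0 : 0 < (m : ℤ) * β := mul_pos (by exact_mod_cast hm1) hβpos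
    have e : (m : ℤ) * u = m * P - m * β := by rw [hβ]; ring
    have h2 : I m < m := lt_of_mul_lt_mul_right (by linarith : I m * P < m * P) hPpos.le
    have h3 : (m : ℤ) < I m + 2 :=
      lt_of_mul_lt_mul_right (by linarith : (m : ℤ) * P < (I m + 2) * P) hPpos.le
    omega
  have hIg : I (g + 1) = g - 1 := by
    have a := hI1 (g + 1)
    have b := hI2 (g + 1)
    push_cast at a b
    have e : ((g : ℤ) + 1) * u = (g + 1) * P - (g + 1) * β := by rw [hβ]; ring
    have h2 : I (g + 1) < g :=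
      lt_of_mul_lt_mul_right (by linarith : I (g + 1) * P < g * P) hPpos.le
    have h3 : (g : ℤ) < I (g + 1) + 2 :=
      lt_of_mul_lt_mul_right (by linarith : (g : ℤ) * P < (I (g + 1) + 2) * P) hPpos.le
    omega
  have hgpos : 1 ≤ g := by
    rcases Nat.eq_zero_or_pos g with h | h
    · exfalso
      rw [h] at hg2
      simp only [Nat.cast_zero, zero_add, one_mul] at hg2
      linarith
    · exact h
  have hJC : ∀ m : ℕ, 1 ≤ m → m ≤ g → 2 * m < p → J m = 0 ∧ C m = 0 := by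
    intro m h1 h2 h3
    have e1 := hIf m h1 h2
    have e2 := hN m h1 h3
    have e3 := hJ0 m
    have e4 := hC0 m
    constructor <;> omega
  have h2g : 2 * (g + 1) < p := by
    by_contra hc
    obtain ⟨m, h1, h2, h3⟩ := hJw
    have h4 := hodd (g + 1)
    exact h3 (hJC m h1 (by omega) h2).1
  have hsum1 : J (g + 1) + C (g + 1) = 1 := by
    have := hN (g + 1) (by omega) h2g
    push_cast at this
    omega
  -- the last non-step
  have htr : ∀ k : ℕ, g + 1 ≤ k → ∃ m : ℕ, g + 1 ≤ m ∧ m ≤ k ∧ I m = I (m - 1) ∧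
      I k = I m + ((k : ℤ) - m) := by
    intro k hk
    induction k, hk using Nat.le_induction with
    | base =>
      refine ⟨g + 1, le_refl _, le_refl _, ?_, by ring⟩
      rw [Nat.add_sub_cancel, hIg, hIf g hgpos (le_refl _)]
    | succ k hk ih =>
      obtain ⟨m, h1, h2, h3, h4⟩ := ih
      rcases hIstep k with h | h
      · refine ⟨k + 1, by omega, le_refl _, ?_, by ring⟩
        rw [Nat.add_sub_cancel, h]
      · refine ⟨m, h1, by omega, h3, ?_⟩
        rw [h, h4]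
        push_cast
        ring
  have hg1c : ((g : ℤ) + 1) * β = g * β + β := by ring
  -- common part
  have key : ∀ n : ℕ, g + 1 < n → ∃ (k t : ℕ), g + 1 ≤ k ∧ 1 ≤ t ∧ k + t = n ∧ t ≤ g + 1 ∧
      I k * P + u ≤ k * u ∧ ((t : ℤ) - 1) * β ≤ k * u - I k * P := by
    intro n hn
    obtain ⟨k, h1, h2, h3, h4⟩ := htr (n - 1) (by omega)
    obtain ⟨t, ht⟩ : ∃ t : ℕ, k + t = n := ⟨n - k, by omega⟩
    have a := hI1 (k - 1)
    have b := hI1 (n - 1)
    have c := hI2 k
    rw [← h3] at a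
    rw [h4] at b
    have ek : ((k - 1 : ℕ) : ℤ) = k - 1 := by
      rw [Nat.cast_sub (by omega)]
      simp
    have en : ((n - 1 : ℕ) : ℤ) = k + t - 1 := by
      rw [Nat.cast_sub (by omega), ← ht]
      simp
    rw [ek] at a
    rw [en] at b
    have hb : ((t : ℤ) - 1) * β ≤ k * u - I k * P := by
      rw [hβ]
      linarith
    refine ⟨k, t, h1, by omega, ht, ?_, by linarith, hb⟩
    have h5 : (t : ℤ) - 1 < g + 1 :=
      lt_of_mul_lt_mul_right (by linarith : ((t : ℤ) - 1) * β < (g + 1) * β) hβpos.le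
    omega
  have hy0 : ((g : ℤ) + 1) * u = (g + 1) * P - (g + 1) * β := by rw [hβ]; ring
  have hg0 := hN (g + 1) (by omega) h2g
  have hJg0 := hJ0 (g + 1)
  have hCg0 := hC0 (g + 1)
  rcases (by omega : (J (g + 1) = 1 ∧ C (g + 1) = 0) ∨ (J (g + 1) = 0 ∧ C (g + 1) = 1)) with
    ⟨hJg, hCg⟩ | ⟨hJg, hCg⟩
  · -- `C` wraps last
    have hn1 := Nat.find_spec hCw
    obtain ⟨n, hn⟩ : ∃ n : ℕ, n = Nat.find hCw := ⟨_, rfl⟩
    rw [← hn] at hn1
    obtain ⟨n1, n2, n3⟩ := hn1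
    have hmin : ∀ m : ℕ, 1 ≤ m → m < n → C m = 0 := by
      intro m h1 h2
      by_contra h3
      exact Nat.find_min hCw (hn ▸ h2) ⟨h1, by omega, h3⟩
    have hgn : g + 1 < n := by
      by_contra hc
      rcases (by omega : n ≤ g ∨ n = g + 1) with h | h
      · exact n3 (hJC n n1 h n2).2
      · exact n3 (h ▸ hCg)
    have hCn : P ≤ n * v := by
      have h1 : 1 ≤ C n := by
        have := hC0 n
        omega
      have h2 := mul_le_mul_of_nonneg_right h1 hPpos.le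
      have h3 := hC1 n
      linarith
    obtain ⟨k, t, k1, t1, hkt, t2, hy1, hy2⟩ := key n hgn
    have hCk : C k = 0 := hmin k (by omega) (by omega)
    have hNk := hN k (by omega) (by omega)
    rw [hCk] at hNk
    have e1 : J k * P + I k * P = k * P - P := by
      have : J k = k - 1 - I k := by linarith
      rw [this]; ring
    have hxk := hJ1 k
    have hxg := hJ1 (g + 1)
    rw [hJg] at hxg
    push_cast at hxg
    have e2 : (n : ℤ) * v = k * v + t * v := by rw [← hkt]; push_cast; ring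
    -- `z k = P - y k - x k`
    have e3 : (k : ℤ) * v = k * P - k * w - k * u := by rw [← hsum]; ring
    have e4 : ((g : ℤ) + 1) * v = (g + 1) * P - (g + 1) * w - (g + 1) * u := by rw [← hsum]; ring
    have e5 : ((g : ℤ) + 1) * v = g * v + v := by ring
    rcases (by omega : t = g + 1 ∨ t ≤ g) with ht | ht
    · rw [ht] at hy2 e2
      push_cast at hy2 e2
      have : ((g : ℤ) + 1 - 1) * β = g * β := by ring
      linarith
    · have h6 : (t : ℤ) * v ≤ g * v :=
        mul_le_mul_of_nonneg_right (by exact_mod_cast ht) (by linarith)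
      linarith
  · -- `J` wraps last
    have hn1 := Nat.find_spec hJw
    obtain ⟨n, hn⟩ : ∃ n : ℕ, n = Nat.find hJw := ⟨_, rfl⟩
    rw [← hn] at hn1
    obtain ⟨n1, n2, n3⟩ := hn1
    have hmin : ∀ m : ℕ, 1 ≤ m → m < n → J m = 0 := by
      intro m h1 h2
      by_contra h3
      exact Nat.find_min hJw (hn ▸ h2) ⟨h1, by omega, h3⟩
    have hgn : g + 1 < n := by
      by_contra hc
      rcases (by omega : n ≤ g ∨ n = g + 1) with h | h
      · exact n3 (hJC n n1 h n2).1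
      · exact n3 (h ▸ hJg)
    have hJn : P ≤ n * w + q - 1 := by
      have h1 : 1 ≤ J n := by
        have := hJ0 n
        omega
      have h2 := mul_le_mul_of_nonneg_right h1 hPpos.le
      have h3 := hJ1 n
      linarith
    obtain ⟨k, t, k1, t1, hkt, t2, hy1, hy2⟩ := key n hgn
    have hJk : J k = 0 := hmin k (by omega) (by omega)
    have hNk := hN k (by omega) (by omega)
    rw [hJk] at hNk
    have e1 : C k * P + I k * P = k * P - P := by
      have : C k = k - 1 - I k := by linarith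
      rw [this]; ring
    have hzk := hC3 k (by omega) (by omega)
    have hzg := hC3 (g + 1) (by omega) h2g
    rw [hCg] at hzg
    push_cast at hzg
    have e2 : (n : ℤ) * w = k * w + t * w := by rw [← hkt]; push_cast; ring
    have e3 : (k : ℤ) * v = k * P - k * w - k * u := by rw [← hsum]; ring
    have e4 : ((g : ℤ) + 1) * v = (g + 1) * P - (g + 1) * w - (g + 1) * u := by rw [← hsum]; ring
    have e5 : ((g : ℤ) + 1) * w = g * w + w := by ring
    rcases (by omega : t = g + 1 ∨ t ≤ g) with ht | ht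
    · rw [ht] at hy2 e2
      push_cast at hy2 e2
      have : ((g : ℤ) + 1 - 1) * β = g * β := by ring
      linarith
    · have h6 : (t : ℤ) * w ≤ g * w :=
        mul_le_mul_of_nonneg_right (by exact_mod_cast ht) (by linarith)
      linarith

theorem nc_hiI {p q : ℕ} {b w u : ℤ} (h : NoV p q b w u) (hhi : (p : ℤ) < 2 * b)
    (hb3 : b ≤ p - 3) (hX : (p : ℤ) * q ≤ 2 * u) : False := by
  have h11 := h.h11
  have hq := h.hq
  have hw := h.hw
  have hu := h.hu
  have hwu := h.hwu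
  have hqZ : (0 : ℤ) < q := by exact_mod_cast hq
  have hpZ : (0 : ℤ) < p := by exact_mod_cast (by omega : 0 < p)
  have h11Z : (11 : ℤ) ≤ p := by exact_mod_cast h11
  have hPpos : (0 : ℤ) < (p : ℤ) * q := mul_pos hpZ hqZ
  obtain ⟨c, hc⟩ : ∃ c : ℤ, c = p - b := ⟨_, rfl⟩
  have hc3 : 3 ≤ c := by linarith
  have hcp : 2 * c < p := by linarith
  have hodd : ∀ g : ℕ, 2 * g ≠ p := by
    intro g hg
    have h2 : 2 ∣ p := ⟨g, hg.symm⟩
    rcases (Nat.dvd_prime h.hp).mp h2 with h3 | h3 <;> omega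
  have hCf : ∀ m : ℕ, (c * m / p) * (p : ℤ) ≤ c * m := fun m => Int.ediv_mul_le _ hpZ.ne'
  have hCf2 : ∀ m : ℕ, c * m < (c * m / p) * (p : ℤ) + p := by
    intro m
    have := Int.lt_ediv_add_one_mul_self (c * (m : ℤ)) hpZ
    linarith
  have hCf3 : ∀ m : ℕ, 1 ≤ m → 2 * m < p → (c * m / p) * (p : ℤ) + 1 ≤ c * m := by
    intro m h1 h2
    rcases lt_or_eq_of_le (hCf m) with h3 | h3
    · linarith [Int.add_one_le_iff.mpr h3]
    · exfalso
      have h4 : (p : ℤ) ∣ c * m := ⟨c * m / p, by rw [mul_comm (p : ℤ)]; exact h3.symm⟩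
      have hpr : Prime (p : ℤ) := Nat.prime_iff_prime_int.mp h.hp
      rcases hpr.dvd_or_dvd h4 with h5 | h5
      · have := Int.le_of_dvd (by linarith) h5
        linarith
      · have h6 : p ∣ m := by exact_mod_cast h5
        have := Nat.le_of_dvd (by omega) h6
        omega
  refine core_MNChiI p hodd ((p : ℤ) * q) q w u (c * q) (jj p q w) (ii p q u)
    (fun m => c * m / p) ?_ hqZ hw ?_ ?_ ?_ ?_ ?_ ?_ ?_ ?_ ?_ ?_ (jj_wraps h) ?_ hX
  · exact mul_le_mul_of_nonneg_right h11Z hqZ.le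
  · exact mul_le_mul_of_nonneg_right hc3 hqZ.le
  · rw [hwu, hc]; ring
  · intro m
    exact Int.ediv_mul_le _ hPpos.ne'
  · intro m
    have := Int.lt_ediv_add_one_mul_self ((m : ℤ) * w + q - 1) hPpos
    unfold jj
    linarith
  · intro m
    exact Int.ediv_mul_le _ hPpos.ne'
  · intro m
    have := Int.lt_ediv_add_one_mul_self ((m : ℤ) * u) hPpos
    unfold ii
    linarith
  · intro m
    have := mul_le_mul_of_nonneg_right (hCf m) hqZ.le
    show c * (m : ℤ) / p * (p * q) ≤ m * (c * q)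
    linarith
  · intro m
    have := mul_lt_mul_of_pos_right (hCf2 m) hqZ
    show (m : ℤ) * (c * q) < c * (m : ℤ) / p * (p * q) + p * q
    linarith
  · intro m h1 h2
    have := mul_le_mul_of_nonneg_right (hCf3 m h1 h2) hqZ.le
    show c * (m : ℤ) / p * (p * q) + q ≤ m * (c * q)
    linarith
  · intro m h1 h2
    have h3 := h.nov m h1 h2
    have h4 := hCf2 m
    have h5 := hCf3 m h1 h2
    have h6 : b * (m : ℤ) / p = m - 1 - c * m / p := by
      have e : b * (m : ℤ) = (p - c * m) + p * (m - 1) := by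
        have : b = p - c := by linarith
        rw [this]; ring
      obtain ⟨C, hC⟩ : ∃ C : ℤ, C = c * m / p := ⟨_, rfl⟩
      rw [← hC] at h4 h5 ⊢
      have e2 : b * (m : ℤ) = (p + C * p - c * m) + p * (m - 1 - C) := by
        rw [e]; ring
      rw [e2, Int.add_mul_ediv_left _ _ hpZ.ne', Int.ediv_eq_zero_of_lt (by linarith) (by linarith)]
      ring
    show jj p q w m + ii p q u m + c * (m : ℤ) / p = m - 1
    rw [h3, h6]
    ring
  · obtain ⟨r, hr⟩ : ∃ r : ℕ, p = 2 * r + 1 := by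
      refine ⟨p / 2, ?_⟩
      have := hodd (p / 2)
      omega
    refine ⟨r, by omega, by omega, ?_⟩
    show c * (r : ℤ) / p ≠ 0
    have h7 : (1 : ℤ) ≤ c * r / p := by
      rw [Int.le_ediv_iff_mul_le hpZ]
      have hr2 : (p : ℤ) = 2 * r + 1 := by exact_mod_cast hr
      have hr5 : (5 : ℤ) ≤ r := by
        have : 5 ≤ r := by omega
        exact_mod_cast this
      have := mul_le_mul_of_nonneg_right hc3 (by linarith : (0 : ℤ) ≤ r)
      linarith
    omega

end Pool.Agent.Helper10.TB
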