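import Pool.Agent.Helper10.TB.MNCend

set_option autoImplicit false

/-!
# The no-carry hypothesis is contradictory for `2 b > p`, `b ≤ p - 3`, `2 u < p q`

Notation and general facts as in `MNChiI.lean`: `c = p - b ≥ 3`, `2 c < p`, `C m = (c m)/p`, for `1 ≤ m`, `2 m < p`: `jj m + ii m + C m = m - 1`;
`x m = m w - (jj m) p q ∈ [-(q-1), p q - q]`, `y m = m u - (ii m) p q ∈ [0, p q)`, `z m = m c q - (C m) p q ∈ [q, p q)`;
`w + u + c q = p q`, `x m + y m + z m = p q`; in each step `m - 1 → m` (`m ≥ 2`) exactly one of `jj, ii, C` increases, by one.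

PROOF.  `m = 2`: `ii 2 = 0` (`2 u < p q`), `C 2 = 0` (`2 c < p`), so `jj 2 = 1`: `2 w + q - 1 ≥ p q`.  `β := p q - w = u + c q`, `2 β ≤ p q + q - 1`.
`g := (p q + q - 1) / β ≥ 2`: `g β ≤ p q + q - 1 < (g+1) β`.
For `1 ≤ m ≤ g`: `jj m = m - 1` (`x m = p q - m β ≥ -(q-1)`), hence `ii m = C m = 0` (if `2 m < p`).  `jj (g+1) = g - 1`, `x (g+1) = 2 p q - (g+1) β`.
If `2 (g+1) > p` then `ii m = 0` for all `m < p/2`, contradiction to `ii_wraps`.  So `m0 := g + 1`, `2 m0 < p`, `ii m0 + C m0 = 1`.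

(Y = I, Z = C) `ii m0 = 1`, `C m0 = 0`.  `C` is not `0` on all `m < p/2` (`c ≥ 3`); `n` least with `C n ≥ 1`, `n > m0`; `n⁻` the largest `m < n` with `jj m = jj (m-1)`
(`n⁻ ≥ m0`), `t = n - n⁻ ≥ 1`.  `x (n-1) = x n⁻ - (t-1) β ≥ -(q-1)`, `x n⁻ = x (n⁻-1) + w ≥ w - (q-1) = p q - β - (q-1)`, and `x n⁻ ≤ p q - q`, so
`(t-1) β ≤ p q - 1`, `t - 1 ≤ g`.
`c q (g+1) = z m0 = p q - x m0 - y m0 = (g+1) β - p q - y m0`.  `c q n⁻ = z n⁻ = p q - x n⁻ - y n⁻`.  `c q n ≥ p q`.
* `t = g+1`: `x n⁻ ≥ g β - (q-1)`: `p q ≤ c q n ≤ p q - g β + (q-1) - y n⁻ + (g+1) β - p q - y m0 ≤ β + q - 1`; with `2 β ≤ p q + q - 1`: `p q ≤ 3 (q-1)`, contradiction.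
* `t ≤ g`: `c q n⁻ ≤ β + (q-1) - y n⁻`; `t c q ≤ g c q = (g+1) β - p q - y m0 - c q ≤ β + (q-1) - y m0 - c q` (`g β ≤ p q + q - 1`); so
  `p q ≤ 2 β + 2 (q-1) - c q ≤ p q + 3 (q-1) - c q`, `c q ≤ 3 (q-1)`, contradiction to `c ≥ 3`.

(Y = C, Z = I) `ii m0 = 0`, `C m0 = 1`.  By `ii_wraps` `n` least with `ii n ≥ 1`: `n u ≥ p q`, `n > m0`; `n⁻`, `t` as before.
`u (g+1) = y m0 = (g+1) β - p q - z m0`, `u n⁻ = y n⁻ = p q - x n⁻ - z n⁻`, `z ≥ q`.
* `t = g+1`: `p q ≤ β + q - 1 - z n⁻ - z m0 ≤ β - q - 1`, contradiction.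
* `t ≤ g`: `p q ≤ n u ≤ β + (q-1) - z n⁻ + β + (q-1) - z m0 - u ≤ p q + 3 (q-1) - 2 q - u < p q` as `u > q`. Contradiction.
-/

namespace Pool.Agent.Helper10.TB

private theorem dv_MNChiJ {a P k : ℤ} (hP : 0 < P) (h1 : k * P ≤ a) (h2 : a < (k + 1) * P) :
    a / P = k :=
  le_antisymm (Int.lt_add_one_iff.1 (Int.ediv_lt_of_lt_mul hP h2)) (Int.le_ediv_of_mul_le hP h1)

private theorem lo_MNChiJ {a P : ℤ} (hP : 0 < P) : a / P * P ≤ a := Int.ediv_mul_le a hP.ne'

private theorem hi_MNChiJ {a P : ℤ} (hP : 0 < P) : a < (a / P + 1) * P :=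
  Int.lt_ediv_add_one_mul_self a hP

/-- the last place with a property -/
private theorem last_MNChiJ (Q : ℕ → Prop) (m0 N : ℕ) (h0 : m0 ≤ N) (hQ : Q m0) :
    ∃ k, m0 ≤ k ∧ k ≤ N ∧ Q k ∧ ∀ m, k < m → m ≤ N → ¬ Q m := by
  induction N, h0 using Nat.le_induction with
  | base => exact ⟨m0, le_rfl, le_rfl, hQ, fun m h1 h2 => absurd h1 (not_lt.2 h2)⟩
  | succ N hN ih =>
      by_cases h : Q (N + 1)
      · exact ⟨N + 1, Nat.le_succ_of_le hN, le_rfl, h, fun m h1 h2 => absurd h1 (not_lt.2 h2)⟩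
      · obtain ⟨k, h1, h2, h3, h4⟩ := ih
        refine ⟨k, h1, Nat.le_succ_of_le h2, h3, fun m h5 h6 => ?_⟩
        rcases Nat.lt_or_ge N m with h7 | h7
        · have h8 : m = N + 1 := by omega
          rw [h8]; exact h
        · exact h4 m h5 h7

theorem nc_hiJ {p q : ℕ} {b w u : ℤ} (h : NoV p q b w u) (hhi : (p : ℤ) < 2 * b)
    (hb3 : b ≤ p - 3) (hX : 2 * u < (p : ℤ) * q) : False := by
  have hprime := h.hp
  have hp11 : (11 : ℤ) ≤ p := by exact_mod_cast h.h11
  have hpz : (0 : ℤ) < p := by linarith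
  have hq0 : (0 : ℤ) < q := by exact_mod_cast h.hq
  have hw := h.hw
  have hu := h.hu
  have hwu := h.hwu
  obtain ⟨c, hc⟩ : ∃ c : ℤ, c = p - b := ⟨_, rfl⟩
  have hc3 : 3 ≤ c := by omega
  have hc2 : 2 * c < p := by omega
  obtain ⟨P, hPdef⟩ : ∃ P : ℤ, P = (p : ℤ) * q := ⟨_, rfl⟩
  rw [← hPdef] at hX
  have hP11 : 11 * (q : ℤ) ≤ P := by rw [hPdef]; nlinarith
  have hP : 0 < P := by linarith
  have hsum : w + u + c * q = P := by rw [hwu, hc, hPdef]; ring
  have hcq : 3 * (q : ℤ) ≤ c * q := by nlinarith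
  have hjj : ∀ m : ℕ, jj p q w m = (m * w + q - 1) / P := fun m => by rw [hPdef]; rfl
  have hii : ∀ m : ℕ, ii p q u m = (m * u) / P := fun m => by rw [hPdef]; rfl
  have jlo : ∀ m : ℕ, jj p q w m * P ≤ m * w + q - 1 := fun m => by
    rw [hjj]; exact lo_MNChiJ hP
  have jhi : ∀ m : ℕ, m * w + q - 1 < (jj p q w m + 1) * P := fun m => by
    rw [hjj]; exact hi_MNChiJ hP
  have ilo : ∀ m : ℕ, ii p q u m * P ≤ m * u := fun m => by
    rw [hii]; exact lo_MNChiJ hP
  have ihi : ∀ m : ℕ, m * u < (ii p q u m + 1) * P := fun m => by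
    rw [hii]; exact hi_MNChiJ hP
  have inn : ∀ m : ℕ, 0 ≤ ii p q u m := fun m => by
    rw [hii]
    exact Int.ediv_nonneg (mul_nonneg (Int.natCast_nonneg m) (by linarith)) hP.le
  have cnn : ∀ m : ℕ, 0 ≤ (c * m) / (p : ℤ) := fun m =>
    Int.ediv_nonneg (mul_nonneg (by linarith) (Int.natCast_nonneg m)) hpz.le
  have cst : ∀ m : ℕ, 1 ≤ m → m < p → (c * m) / (p : ℤ) * p + 1 ≤ c * m := by
    intro m h1 h2
    have h3 := lo_MNChiJ (a := c * m) hpz
    have h4 : (c * m) / (p : ℤ) * p ≠ c * m := by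
      intro h5
      have h6 : (p : ℤ) ∣ c * m := Dvd.intro_left _ h5
      have hm1 : (1 : ℤ) ≤ m := by exact_mod_cast h1
      have hm2 : (m : ℤ) < p := by exact_mod_cast h2
      rcases (Nat.prime_iff_prime_int.1 hprime).dvd_or_dvd h6 with h7 | h7
      · have := Int.le_of_dvd (by linarith) h7
        linarith
      · have := Int.le_of_dvd (by linarith) h7
        linarith
    omega
  have key : ∀ m : ℕ, 1 ≤ m → 2 * m < p →
      jj p q w m + ii p q u m + (c * m) / (p : ℤ) = m - 1 := by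
    intro m h1 h2
    have h3 := h.nov m h1 h2
    have h4 := cst m h1 (by omega)
    have h5 := hi_MNChiJ (a := c * m) hpz
    have h6 : (b * m) / (p : ℤ) = m - 1 - (c * m) / (p : ℤ) := by
      refine dv_MNChiJ hpz ?_ ?_
      · have h7 : b * m = p * m - c * m := by rw [hc]; ring
        rw [h7]; nlinarith
      · have h7 : b * m = p * m - c * m := by rw [hc]; ring
        rw [h7]; nlinarith
    rw [h3, h6]; ring
  -- the first wrap
  have hjj2 : P ≤ 2 * w + q - 1 := by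
    have h1 := key 2 (by norm_num) (by have := h.h11; omega)
    have h2 : ii p q u 2 = 0 := by
      rw [hii]
      refine dv_MNChiJ hP ?_ ?_
      · push_cast; nlinarith
      · push_cast; linarith
    have h3 : (c * ((2 : ℕ) : ℤ)) / (p : ℤ) = 0 := by
      refine dv_MNChiJ hpz ?_ ?_
      · push_cast; nlinarith
      · push_cast; linarith
    rw [h2, h3] at h1
    have h4 : jj p q w 2 = 1 := by push_cast at h1; linarith
    have h5 := jlo 2
    rw [h4] at h5
    push_cast at h5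
    linarith
  obtain ⟨β, hβ⟩ : ∃ β : ℤ, β = P - w := ⟨_, rfl⟩
  have hβq : (q : ℤ) < β := by rw [hβ]; linarith
  have h2β : 2 * β ≤ P + q - 1 := by rw [hβ]; linarith
  have hβP : β < P - q := by rw [hβ]; linarith
  have hβ0 : 0 < β := by linarith
  obtain ⟨g, hg1, hg2⟩ : ∃ g : ℕ, (g : ℤ) * β ≤ P + q - 1 ∧ P + q - 1 < ((g : ℤ) + 1) * β := by
    refine ⟨((P + q - 1) / β).toNat, ?_, ?_⟩
    · rw [Int.toNat_of_nonneg (Int.ediv_nonneg (by linarith) hβ0.le)]
      exact lo_MNChiJ hβ0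
    · rw [Int.toNat_of_nonneg (Int.ediv_nonneg (by linarith) hβ0.le)]
      exact hi_MNChiJ hβ0
  have hg0 : 2 ≤ g := by
    by_contra h1
    have h2 : (g : ℤ) ≤ 1 := by exact_mod_cast (by omega : g ≤ 1)
    have h3 := mul_le_mul_of_nonneg_right (by linarith : (g : ℤ) + 1 ≤ 2) hβ0.le
    linarith
  have hgz : (2 : ℤ) ≤ g := by exact_mod_cast hg0
  have hA : ∀ m : ℕ, 1 ≤ m → m ≤ g → jj p q w m = m - 1 := by
    intro m h1 h2
    have h1' : (1 : ℤ) ≤ m := by exact_mod_cast h1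
    have h2' : (m : ℤ) ≤ g := by exact_mod_cast h2
    have h3 : (m : ℤ) * β ≤ g * β := mul_le_mul_of_nonneg_right h2' hβ0.le
    have h4 : β ≤ (m : ℤ) * β := by nlinarith
    have h5 : (m : ℤ) * w = m * P - m * β := by rw [hβ]; ring
    rw [hjj]
    refine dv_MNChiJ hP ?_ ?_
    · rw [h5]; linarith
    · rw [h5]; linarith
  have hB : jj p q w (g + 1) = g - 1 := by
    have h5 : ((g + 1 : ℕ) : ℤ) * w = (g + 1) * P - (g + 1) * β := by
      rw [hβ]; push_cast; ring
    rw [hjj]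
    refine dv_MNChiJ hP ?_ ?_
    · rw [h5]; linarith
    · rw [h5]; linarith
  have hlt : 2 * (g + 1) < p := by
    by_contra h1
    obtain ⟨m, h2, h3, h4⟩ := ii_wraps h
    have h5 := key m h2 h3
    rw [hA m h2 (by omega)] at h5
    have h6 := inn m
    have h7 := cnn m
    exact h4 (by linarith)
  have hk0 := key (g + 1) (by omega) hlt
  rw [hB] at hk0
  have hk1 : ii p q u (g + 1) + (c * ((g + 1 : ℕ) : ℤ)) / (p : ℤ) = 1 := by
    push_cast at hk0 ⊢; linarith
  -- steps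
  have step : ∀ m : ℕ, jj p q w m ≤ jj p q w (m + 1) ∧ jj p q w (m + 1) ≤ jj p q w m + 1 := by
    intro m
    have a1 := jlo m
    have a2 := jhi m
    have a3 := jlo (m + 1)
    have a4 := jhi (m + 1)
    push_cast at a3 a4
    constructor
    · have : jj p q w m * P < (jj p q w (m + 1) + 1) * P := by linarith
      have := lt_of_mul_lt_mul_right this hP.le
      linarith
    · have : jj p q w (m + 1) * P < (jj p q w m + 2) * P := by linarith
      have := lt_of_mul_lt_mul_right this hP.le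
      linarith
  have gen : ∀ n : ℕ, g + 1 < n → ∃ k t : ℕ, n = k + t ∧ 1 ≤ t ∧ g + 1 ≤ k ∧ t ≤ g + 1 ∧
      P - β - (q - 1) ≤ k * w - jj p q w k * P ∧
      ((t : ℤ) - 1) * β - (q - 1) ≤ k * w - jj p q w k * P := by
    intro n hn
    obtain ⟨k, hk1, hk2, hk3, hk4⟩ := last_MNChiJ (fun m => jj p q w m = jj p q w (m - 1))
      (g + 1) (n - 1) (by omega) (by
        show jj p q w (g + 1) = jj p q w (g + 1 - 1)
        rw [hB, Nat.add_sub_cancel, hA g (by omega) le_rfl])
    have hs : ∀ s : ℕ, k + s ≤ n - 1 → jj p q w (k + s) = jj p q w k + s := by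
      intro s
      induction s with
      | zero => intro _; simp
      | succ s ih =>
          intro hs
          have e1 := ih (by omega)
          have e2 := hk4 (k + s + 1) (by omega) (by omega)
          have e3 := step (k + s)
          have e4 : jj p q w (k + s + 1) ≠ jj p q w (k + s) := e2
          have e5 : jj p q w (k + s + 1) = jj p q w (k + s) + 1 := by omega
          show jj p q w (k + s + 1) = _
          rw [e5, e1]; push_cast; ring
    have e1 := hs (n - 1 - k) (by omega)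
    rw [show k + (n - 1 - k) = n - 1 by omega] at e1
    have e2 := jlo (n - 1)
    rw [e1] at e2
    have hnk : ((n - 1 : ℕ) : ℤ) = k + ((n - 1 - k : ℕ) : ℤ) := by
      have : n - 1 = k + (n - 1 - k) := by omega
      exact_mod_cast this
    have htk : (((n - k : ℕ) : ℤ)) - 1 = ((n - 1 - k : ℕ) : ℤ) := by
      have : n - k = (n - 1 - k) + 1 := by omega
      rw [this]; push_cast; ring
    obtain ⟨s, hs'⟩ : ∃ s : ℤ, s = ((n - 1 - k : ℕ) : ℤ) := ⟨_, rfl⟩
    rw [← hs'] at e2 hnk htk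
    rw [hnk] at e2
    have e3 : s * β - (q - 1) ≤ k * w - jj p q w k * P := by
      have : s * β = s * P - s * w := by rw [hβ]; ring
      rw [this]
      linarith
    have e4 : P - β - (q - 1) ≤ k * w - jj p q w k * P := by
      have e5 := jlo (k - 1)
      have e6 : jj p q w k = jj p q w (k - 1) := hk3
      rw [← e6] at e5
      have e7 : ((k - 1 : ℕ) : ℤ) = k - 1 := by
        rw [Nat.cast_sub (by omega)]; simp
      rw [e7] at e5
      have : ((k : ℤ) - 1) * w = k * w - (P - β) := by rw [hβ]; ring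
      rw [this] at e5
      linarith
    refine ⟨k, n - k, by omega, by omega, hk1, ?_, e4, ?_⟩
    · by_contra h1
      have h2 : (g : ℤ) + 1 ≤ s := by
        have h3 : g + 1 ≤ n - 1 - k := by omega
        rw [hs']; exact_mod_cast h3
      have h3 : ((g : ℤ) + 1) * β ≤ s * β := mul_le_mul_of_nonneg_right h2 hβ0.le
      have h4 := jhi k
      linarith
    · rw [htk]; exact e3
  have hx0 : ((g + 1 : ℕ) : ℤ) * w - ((g : ℤ) - 1) * P = 2 * P - (g + 1) * β := by
    rw [hβ]; push_cast; ring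
  rcases lt_or_ge (ii p q u (g + 1)) 1 with hcase | hcase
  · -- `ii (g+1) = 0`, `C (g+1) = 1`
    have hi0 : ii p q u (g + 1) = 0 := by have := inn (g + 1); omega
    obtain ⟨m, hm1, hm2, hm3⟩ := ii_wraps h
    have hex : ∃ n : ℕ, P ≤ n * u := by
      refine ⟨m, ?_⟩
      have a1 := ilo m
      have a2 := inn m
      have a3 : 1 ≤ ii p q u m := by omega
      have a4 := mul_le_mul_of_nonneg_right a3 hP.le
      rw [one_mul] at a4
      exact a4.trans a1
    classical
    have hn1 := Nat.find_spec hex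
    have hnm : Nat.find hex ≤ m := Nat.find_min' hex (by
      have a1 := ilo m
      have a2 := inn m
      have a3 : 1 ≤ ii p q u m := by omega
      have a4 := mul_le_mul_of_nonneg_right a3 hP.le
      rw [one_mul] at a4
      exact a4.trans a1)
    have hn2 : ∀ k, k < Nat.find hex → ((k : ℕ) : ℤ) * u < P := fun k hk =>
      not_le.1 (Nat.find_min hex hk)
    obtain ⟨n, hn⟩ : ∃ n, n = Nat.find hex := ⟨_, rfl⟩
    rw [← hn] at hn1 hnm hn2
    have hgn : g + 1 < n := by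
      by_contra h1
      have h2 : (n : ℤ) ≤ ((g + 1 : ℕ) : ℤ) := by exact_mod_cast (not_lt.1 h1)
      have h3 := ihi (g + 1)
      rw [hi0] at h3
      have h4 : (n : ℤ) * u ≤ ((g + 1 : ℕ) : ℤ) * u := mul_le_mul_of_nonneg_right h2 (by linarith)
      linarith
    obtain ⟨k, t, hkt, ht1, hk, htg, hX1, hX2⟩ := gen n hgn
    have hkk := key k (by omega) (by omega)
    have hik : ii p q u k = 0 := by
      rw [hii]
      refine dv_MNChiJ hP ?_ ?_
      · rw [zero_mul]; exact mul_nonneg (Int.natCast_nonneg k) (by linarith)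
      · have := hn2 k (by omega); linarith
    rw [hik] at hkk
    have hz := cst k (by omega) (by omega)
    have hz0 := cst (g + 1) (by omega) (by omega)
    have hz' : (c * k) / (p : ℤ) * P + q ≤ k * (c * q) := by
      have := mul_le_mul_of_nonneg_right hz hq0.le
      rw [hPdef]; linarith
    have hz0' : (c * ((g + 1 : ℕ) : ℤ)) / (p : ℤ) * P + q ≤ ((g + 1 : ℕ) : ℤ) * (c * q) := by
      have := mul_le_mul_of_nonneg_right hz0 hq0.le
      rw [hPdef]; linarith
    have hC0 : (c * ((g + 1 : ℕ) : ℤ)) / (p : ℤ) = 1 := by linarith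
    rw [hC0] at hz0'
    have hsk : (k : ℤ) * w + k * u + k * (c * q) = k * P := by rw [← hsum]; ring
    have hs0 : ((g + 1 : ℕ) : ℤ) * w + ((g + 1 : ℕ) : ℤ) * u + ((g + 1 : ℕ) : ℤ) * (c * q)
        = ((g + 1 : ℕ) : ℤ) * P := by rw [← hsum]; ring
    have hkP : (jj p q w k + (c * k) / (p : ℤ)) * P = (k - 1) * P := by
      have : jj p q w k + (c * k) / (p : ℤ) = k - 1 := by linarith
      rw [this]
    have hku : (k : ℤ) * u ≤ P - (k * w - jj p q w k * P) - q := by linarith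
    have hgu : ((g + 1 : ℕ) : ℤ) * u ≤ P - (2 * P - (g + 1) * β) - q := by
      rw [← hx0]
      have : ((g + 1 : ℕ) : ℤ) * P = (g : ℤ) * P + P := by push_cast; ring
      linarith
    have hnu : (n : ℤ) * u = k * u + t * u := by rw [hkt]; push_cast; ring
    rw [hnu] at hn1
    rcases Nat.lt_or_ge g t with h1 | h1
    · have h2 : t = g + 1 := by omega
      rw [h2] at hX2 hn1
      push_cast at hX2 hn1 hgu
      have h3 : ((g : ℤ) + 1 - 1) * β = g * β := by ring
      rw [h3] at hX2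
      linarith
    · have h2 : (t : ℤ) * u ≤ g * u :=
        mul_le_mul_of_nonneg_right (by exact_mod_cast h1) (by linarith)
      push_cast at hgu
      linarith
  · -- `ii (g+1) = 1`, `C (g+1) = 0`
    have hC0 : (c * ((g + 1 : ℕ) : ℤ)) / (p : ℤ) = 0 := by
      have := cnn (g + 1)
      linarith
    have hi1 : ii p q u (g + 1) = 1 := by linarith
    have hpe : (p : ℤ) ≤ c * (((p - 1) / 2 : ℕ) : ℤ) := by
      have h1 : p ≤ 2 * ((p - 1) / 2) + 2 := by omega
      have h2 : (p : ℤ) ≤ 2 * (((p - 1) / 2 : ℕ) : ℤ) + 2 := by exact_mod_cast h1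
      have h3 : (0 : ℤ) ≤ (((p - 1) / 2 : ℕ) : ℤ) := Int.natCast_nonneg _
      have h4 := mul_le_mul_of_nonneg_right hc3 h3
      generalize (((p - 1) / 2 : ℕ) : ℤ) = X at *
      linarith
    have hex : ∃ n : ℕ, (p : ℤ) ≤ c * n := ⟨(p - 1) / 2, hpe⟩
    classical
    have hn1 := Nat.find_spec hex
    have hnm : Nat.find hex ≤ (p - 1) / 2 := Nat.find_min' hex hpe
    have hn2 : ∀ k, k < Nat.find hex → c * ((k : ℕ) : ℤ) < p := fun k hk =>
      not_le.1 (Nat.find_min hex hk)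
    obtain ⟨n, hn⟩ : ∃ n, n = Nat.find hex := ⟨_, rfl⟩
    rw [← hn] at hn1 hnm hn2
    have hgn : g + 1 < n := by
      by_contra h1
      have h2 : (n : ℤ) ≤ ((g + 1 : ℕ) : ℤ) := by exact_mod_cast (not_lt.1 h1)
      have h3 := hi_MNChiJ (a := c * ((g + 1 : ℕ) : ℤ)) hpz
      rw [hC0] at h3
      have h4 : c * (n : ℤ) ≤ c * ((g + 1 : ℕ) : ℤ) := mul_le_mul_of_nonneg_left h2 (by linarith)
      linarith
    obtain ⟨k, t, hkt, ht1, hk, htg, hX1, hX2⟩ := gen n hgn
    have hkk := key k (by omega) (by omega)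
    have hck : (c * k) / (p : ℤ) = 0 := by
      refine dv_MNChiJ hpz ?_ ?_
      · rw [zero_mul]; exact mul_nonneg (by linarith) (Int.natCast_nonneg k)
      · have := hn2 k (by omega); linarith
    rw [hck] at hkk
    have hik := ilo k
    have hi0 := ilo (g + 1)
    rw [hi1] at hi0
    have hsk : (k : ℤ) * w + k * u + k * (c * q) = k * P := by rw [← hsum]; ring
    have hs0 : ((g + 1 : ℕ) : ℤ) * w + ((g + 1 : ℕ) : ℤ) * u + ((g + 1 : ℕ) : ℤ) * (c * q)
        = ((g + 1 : ℕ) : ℤ) * P := by rw [← hsum]; ring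
    have hkP : (jj p q w k + ii p q u k) * P = (k - 1) * P := by
      have : jj p q w k + ii p q u k = k - 1 := by linarith
      rw [this]
    have hku : (k : ℤ) * (c * q) ≤ P - (k * w - jj p q w k * P) := by linarith
    have hgu : ((g + 1 : ℕ) : ℤ) * (c * q) ≤ P - (2 * P - (g + 1) * β) := by
      rw [← hx0]
      have : ((g + 1 : ℕ) : ℤ) * P = (g : ℤ) * P + P := by push_cast; ring
      linarith
    have hnu : P ≤ k * (c * q) + t * (c * q) := by
      have h1 : (k : ℤ) * (c * q) + t * (c * q) = (c * n) * q := by rw [hkt]; push_cast; ring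
      rw [h1, hPdef]
      exact mul_le_mul_of_nonneg_right hn1 hq0.le
    rcases Nat.lt_or_ge g t with h1 | h1
    · have h2 : t = g + 1 := by omega
      rw [h2] at hX2 hnu
      push_cast at hX2 hnu hgu
      have h3 : ((g : ℤ) + 1 - 1) * β = g * β := by ring
      rw [h3] at hX2
      linarith
    · have h2 : (t : ℤ) * (c * q) ≤ g * (c * q) :=
        mul_le_mul_of_nonneg_right (by exact_mod_cast h1) (by linarith)
      push_cast at hgu
      linarith

end Pool.Agent.Helper10.TB
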