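import Pool.Agent.Helper10.TB.NCDefs

set_option autoImplicit false

/-!
# The no-carry hypothesis is contradictory for `b = p - 2`

PROOF.  Let `p = 2 M + 1`, `M ≥ 5`.  `(b M) % p = 1`, `(b (M-1)) % p = 3`.  With `x m = m w - (jj m) p q ∈ [-(q-1), p q - q]`,
`y m = m u - (ii m) p q ∈ [0, p q)`: `x m + y m = q ((b m) % p)` by `nov`.  So `-(q-1) ≤ x M ≤ q`, `-(q-1) ≤ x (M-1) ≤ 3 q`, and
`w = x M - x (M-1) + k p q` with `k = jj M - jj (M-1)`, `0 < w < (p - 3) q`; as `x M - x (M-1) ∈ [-(q-1) - 3q, q + (q-1)]`: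
either `k = 0` and `w < 2 q`, or `k = 1` and `w > p q - 4 q`, i.e. `u = (p-2) q - w < 2 q`.
* `q < w < 2 q`: `M q < M w < 2 M q = (p-1) q`, so `jj M = 0` and `x M = M w > q` (`M ≥ 2`), contradiction to `x M ≤ q`.
* `q < u < 2 q`: `M q < M u < (p-1) q`, `ii M = 0`, `y M = M u > 2 q`, but `y M = q - x M ≤ 2 q - 1`. Contradiction.
-/

namespace Pool.Agent.Helper10.TB

theorem nc_top {p q : ℕ} {b w u : ℤ} (h : NoV p q b w u) (htop : b = p - 2) : False := by
  obtain ⟨hp, h11, hq, hb, hbp, hw, hu, hwu, nov⟩ := h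
  have hodd : p % 2 = 1 := by
    rcases hp.eq_two_or_odd with h2 | h2
    · omega
    · exact h2
  obtain ⟨M, hM⟩ : ∃ M, p = 2 * M + 1 := ⟨p / 2, by omega⟩
  have hM5 : 5 ≤ M := by omega
  have n1 := nov M (by omega) (by omega)
  have n0 := nov (M - 1) (by omega) (by omega)
  have hMc : ((M - 1 : ℕ) : ℤ) = (M : ℤ) - 1 := by omega
  have hMi : (5 : ℤ) ≤ M := by exact_mod_cast hM5
  have hQ : (0 : ℤ) < q := by exact_mod_cast hq
  have hpc : (p : ℤ) = 2 * M + 1 := by rw [hM]; push_cast; ring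
  have d1 : (b * (M : ℤ)) / (p : ℤ) = M - 1 := by
    rw [htop, hpc]
    have e : (2 * (M : ℤ) + 1 - 2) * M = 1 + (2 * (M : ℤ) + 1) * ((M : ℤ) - 1) := by ring
    rw [e, Int.add_mul_ediv_left _ _ (by omega), Int.ediv_eq_zero_of_lt (by omega) (by omega)]
    ring
  have d0 : (b * ((M - 1 : ℕ) : ℤ)) / (p : ℤ) = M - 2 := by
    rw [htop, hpc, hMc]
    have e : (2 * (M : ℤ) + 1 - 2) * (M - 1) = 3 + (2 * (M : ℤ) + 1) * ((M : ℤ) - 2) := by ring
    rw [e, Int.add_mul_ediv_left _ _ (by omega), Int.ediv_eq_zero_of_lt (by omega) (by omega)]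
    ring
  rw [d1] at n1
  rw [d0] at n0
  have hb' : b = 2 * M - 1 := by rw [htop, hpc]; ring
  have hP : (0 : ℤ) < (p : ℤ) * q := mul_pos (by omega) hQ
  have hPe : (p : ℤ) * q = 2 * (M * q) + q := by rw [hpc]; ring
  have j1 := Int.mul_ediv_self_le (x := (M : ℤ) * w + q - 1) (ne_of_gt hP)
  have j1' := Int.lt_mul_ediv_self_add (x := (M : ℤ) * w + q - 1) hP
  have j0 := Int.mul_ediv_self_le (x := ((M - 1 : ℕ) : ℤ) * w + q - 1) (ne_of_gt hP)
  have i1 := Int.mul_ediv_self_le (x := (M : ℤ) * u) (ne_of_gt hP)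
  have i0 := Int.mul_ediv_self_le (x := ((M - 1 : ℕ) : ℤ) * u) (ne_of_gt hP)
  unfold jj ii at n1 n0
  rw [hMc] at j0 i0 n0
  have hMq : 5 * (q : ℤ) ≤ M * q := mul_le_mul_of_nonneg_right hMi hQ.le
  have hMw : M * ((q : ℤ) + 1) ≤ M * w := mul_le_mul_of_nonneg_left (by omega) (by omega)
  have hMu : M * ((q : ℤ) + 1) ≤ M * u := mul_le_mul_of_nonneg_left (by omega) (by omega)
  have s1 : (M : ℤ) * w + M * u = (p * q) * ((M : ℤ) - 1) + q := by
    rw [← mul_add, hwu, hb', hpc]; ring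
  have s0 : ((M : ℤ) - 1) * w + (M - 1) * u = (p * q) * ((M : ℤ) - 2) + 3 * q := by
    rw [← mul_add, hwu, hb', hpc]; ring
  have e0 : ((M : ℤ) - 1) * w = M * w - w := by ring
  have e0' : ((M : ℤ) - 1) * u = M * u - u := by ring
  have hbq : w + u = 2 * (M * q) - q := by rw [hwu, hb']; ring
  have hMq' : (M : ℤ) * (q + 1) = M * q + M := by ring
  rw [e0, e0'] at s0
  rw [e0] at j0 n0
  rw [e0'] at i0 n0
  generalize ((M : ℤ) * w + q - 1) / (p * q) = J1 at *
  generalize ((M : ℤ) * w - w + q - 1) / (p * q) = J0 at *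
  generalize ((M : ℤ) * u) / (p * q) = I1 at *
  generalize ((M : ℤ) * u - u) / (p * q) = I0 at *
  generalize hPP : (p : ℤ) * q = P at *
  have hI1 : I1 = M - 1 - J1 := by linarith
  have hI0 : I0 = M - 2 - J0 := by linarith
  subst hI1 hI0
  have f1 : P * ((M : ℤ) - 1 - J1) = P * ((M : ℤ) - 1) - P * J1 := by ring
  have f0 : P * ((M : ℤ) - 2 - J0) = P * ((M : ℤ) - 2) - P * J0 := by ring
  rw [f1] at i1
  rw [f0] at i0
  have g : P * J1 - P * J0 = P * (J1 - J0) := by ring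
  have g2 : P * ((M : ℤ) - 1) - P * ((M : ℤ) - 2) = P := by ring
  rcases lt_trichotomy (J1 - J0) 0 with hk | hk | hk
  · have : P * (J1 - J0) ≤ P * (-1) := mul_le_mul_of_nonneg_left (by omega) hP.le
    omega
  · rw [hk, mul_zero] at g
    have hw2 : w ≤ 2 * q - 1 := by omega
    have hMw2 : M * w ≤ M * (2 * (q : ℤ) - 1) := mul_le_mul_of_nonneg_left hw2 (by omega)
    have hh : M * (2 * (q : ℤ) - 1) = 2 * (M * q) - M := by ring
    have hJ : J1 ≤ 0 := by
      by_contra hJ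
      have : P * 1 ≤ P * J1 := mul_le_mul_of_nonneg_left (by omega) hP.le
      omega
    have : P * J1 ≤ P * 0 := mul_le_mul_of_nonneg_left hJ hP.le
    omega
  · rcases lt_or_ge (J1 - J0) 2 with hk2 | hk2
    · have hk3 : J1 - J0 = 1 := by omega
      rw [hk3, mul_one] at g
      have hu2 : u ≤ 2 * q - 1 := by omega
      have hMu2 : M * u ≤ M * (2 * (q : ℤ) - 1) := mul_le_mul_of_nonneg_left hu2 (by omega)
      have hh : M * (2 * (q : ℤ) - 1) = 2 * (M * q) - M := by ring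
      have hI : (M : ℤ) - 1 - J1 ≤ 0 := by
        by_contra hI
        have : P * 1 ≤ P * ((M : ℤ) - 1 - J1) := mul_le_mul_of_nonneg_left (by omega) hP.le
        omega
      have : P * ((M : ℤ) - 1 - J1) ≤ P * 0 := mul_le_mul_of_nonneg_left hI hP.le
      omega
    · have : P * 2 ≤ P * (J1 - J0) := mul_le_mul_of_nonneg_left hk2 hP.le
      omega

end Pool.Agent.Helper10.TB
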