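import Pool.Agent.Helper10.TB.MNClow
import Pool.Agent.Helper10.TB.MNChiI
import Pool.Agent.Helper10.TB.MNChiJ
import Pool.Agent.Helper10.TB.MNCtop

set_option autoImplicit false

/-!
# Lemma NC: there is a carry before `p / 2`

PROOF.  Suppose not; `u := b q - w` (`q < u`).  We show `NoV p q b w u`: let `1 ≤ m`, `2 m < p`, `R = (b m) % p`, `X = (m w) % (p q)`, `Y = (m u) % (p q)`.
`X + Y ≡ q R (mod p q)`, `0 ≤ X + Y < 2 p q`, `0 ≤ q R < p q`, so `X + Y ∈ {q R, q R + p q}`.
Not (`q R < X ≤ p q - q`).  If `X ≤ q R` then (`Y < p q`) `X + Y = q R`, `X ≤ (p-1) q` and `jj m = (m w)/(p q)` (adding `q - 1` does not wrap), so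
`jj + ii = (m w - X + m u - Y)/(p q) = (q b m - q R)/(p q) = (b m)/p`.  If `X > p q - q` and `X > q R`: `X + Y > q R`, so `X + Y = q R + p q`, `jj m = (m w)/(p q) + 1`,
again `jj + ii = (b m)/p`.
Then `2 b < p`, `2 b > p` (`p` odd): `nc_low`, or `b ≤ p - 3` with `nc_hiI` / `nc_hiJ`, or `b = p - 2` with `nc_top`.
-/

namespace Pool.Agent.Helper10.TB

private theorem div_MNC {a P k r : ℤ} (hP : 0 < P) (h : a = P * k + r) (h0 : 0 ≤ r) (h1 : r < P) :
    a / P = k :=
  ((Int.ediv_emod_unique hP (a := a) (q := k) (r := r)).2 ⟨by linarith, h0, h1⟩).1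

theorem nc {p q : ℕ} {b w : ℤ} (hp : p.Prime) (h11 : 11 ≤ p) (hq : 0 < q) (hb : 3 ≤ b)
    (hbp : b ≤ p - 2) (hw1 : (q : ℤ) < w) (hw2 : w < (b - 1) * q) :
    ∃ m : ℕ, 1 ≤ m ∧ 2 * m < p ∧ q * ((b * m) % p) < (m * w) % (p * q) ∧
      (m * w) % (p * q) ≤ p * q - q := by
  by_contra hcon
  push Not at hcon
  have hp0 : (0 : ℤ) < p := by exact_mod_cast hp.pos
  have hq0 : (0 : ℤ) < q := by exact_mod_cast hq
  have hP : (0 : ℤ) < p * q := mul_pos hp0 hq0
  have hNoV : NoV p q b w (b * q - w) := by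
    refine ⟨hp, h11, hq, hb, hbp, hw1, by linarith, by ring, ?_⟩
    intro m hm1 hm2
    have hc := hcon m hm1 hm2
    have eX := Int.mul_ediv_add_emod (m * w) (p * q)
    have eY := Int.mul_ediv_add_emod (m * (b * q - w)) (p * q)
    have eR := Int.mul_ediv_add_emod (b * m) p
    have X0 := Int.emod_nonneg (m * w) hP.ne'
    have X1 := Int.emod_lt_of_pos (m * w) hP
    have Y0 := Int.emod_nonneg (m * (b * q - w)) hP.ne'
    have Y1 := Int.emod_lt_of_pos (m * (b * q - w)) hP
    have R0 := Int.emod_nonneg (b * m) hp0.ne'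
    have R1 := Int.emod_lt_of_pos (b * m) hp0
    unfold jj ii
    generalize hX : (m * w) % ((p : ℤ) * q) = X at *
    generalize hkX : (m * w) / ((p : ℤ) * q) = kX at *
    generalize hY : (m * (b * q - w)) % ((p : ℤ) * q) = Y at *
    generalize hkY : (m * (b * q - w)) / ((p : ℤ) * q) = kY at *
    generalize hR : (b * m) % (p : ℤ) = R at *
    generalize hB : (b * m) / (p : ℤ) = B at *
    have hsum : X + Y - q * R = (p * q) * (B - kX - kY) := by
      have h1 : (q : ℤ) * (b * m) = q * (p * B + R) := by rw [eR]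
      linear_combination eX + eY + h1
    have hqR0 : 0 ≤ (q : ℤ) * R := mul_nonneg hq0.le R0
    have hqR1 : (q : ℤ) * R ≤ p * q - q := by nlinarith
    have hlow : 0 ≤ B - kX - kY := by
      by_contra hneg
      have h2 : B - kX - kY ≤ -1 := by omega
      nlinarith
    have hhigh : B - kX - kY ≤ 1 := by
      by_contra hneg
      have h2 : 2 ≤ B - kX - kY := by omega
      nlinarith
    by_cases hcase : X ≤ q * R
    · have h3 : B - kX - kY = 0 := by
        by_contra hne
        have h4 : 1 ≤ B - kX - kY := by omega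
        nlinarith
      have h5 : ((m : ℤ) * w + q - 1) / (p * q) = kX :=
        div_MNC (r := X + q - 1) hP (by linarith) (by linarith) (by linarith)
      rw [h5]
      linarith
    · have hcase' : (q : ℤ) * R < X := by linarith
      have h6 := hc hcase'
      have h3 : B - kX - kY = 1 := by
        by_contra hne
        have h4 : B - kX - kY = 0 := by omega
        rw [h4] at hsum
        nlinarith
      have h5 : ((m : ℤ) * w + q - 1) / (p * q) = kX + 1 :=
        div_MNC (r := X + q - 1 - p * q) hP (by linarith) (by linarith) (by linarith)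
      rw [h5]
      linarith
  rcases lt_trichotomy (2 * b) (p : ℤ) with h1 | h1 | h1
  · exact nc_low hNoV h1
  · have h2 : 2 ∣ p := by
      have : (2 : ℤ) ∣ p := ⟨b, h1.symm⟩
      exact_mod_cast this
    have h3 := (Nat.prime_dvd_prime_iff_eq Nat.prime_two hp).1 h2
    omega
  · by_cases h2 : b ≤ p - 3
    · by_cases h3 : (p : ℤ) * q ≤ 2 * (b * q - w)
      · exact nc_hiI hNoV h1 h2 h3
      · exact nc_hiJ hNoV h1 h2 (by linarith)
    · exact nc_top hNoV (by omega)

end Pool.Agent.Helper10.TB
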