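import Pool.Agent.Helper10.TB.MEmpty

set_option autoImplicit false

/-!
# Sign changes, case `p q < v + b q`

Put `w = p q - v`, `γ m = be m - q * al m`.  `γ m ≡ - m (v + b q) (mod p q)`, `|γ m| < p q`, and `γ m ≠ 0` if `p ∤ m`
(`q ∤ v`).  `0 < w < b q`.

STEP. `al (m+1) = al m + b` or `al m + b - p` (wrap), `be (m+1) = be m + w` or `be m + w - p q` (wrap).
If `γ m < 0 < γ (m+1)`: `γ (m+1) = γ m + w - b q + p q ([al wraps] - [be wraps])` with `w - b q < 0`, hence `al` wraps and `be` does not:
`al (m+1) < al m`, `be m < be (m+1)` and `emptyMinus` applies with `A = e + m` when `0 ≤ e + m`, `e + m + 1 < p`.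

`sideIIP` (`w > q`): `γ 1 < 0`: `al 1 = b - 1`, `be 1 = w - q` (`v < p q - q`), `γ 1 = w - b q < 0`.
`γ m > 0`: `r = (b m) % p`, `al m = r - 1`, `W = (m w) % (p q)`, `be m = (W - q) % (p q)`: `= W - q > q (r - 1)` if `W ≥ q` (then `q r < W`),
`= W - q + p q ≥ p q - q` if `W < q`, and `p q - q > q (r-1)`.  So there is a sign change from `-` to `+` inside `1..m`, `e + m < p`.

`sideIIN`: `γ (-1) > 0`: `al (-1) = p - b - 1`, `be (-1) = v - q` (`v ≥ q` because `v > p q - b q ≥ 2 q`),
`γ (-1) = v + b q - p q > 0`.  `γ (-m) < 0`: `al (-m) = p - 1 - r`, `be (-m) = (- W - q) % (p q) = p q - q - W` by `hx2`, and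
`p q - q - W < q (p - 1 - r)` by `hx`.  Going from `-m` to `-1` there is a sign change from `-` to `+` (`A = e + m'`, `-m ≤ m' ≤ -2`).
-/

namespace Pool.Agent.Helper10.TB

open Finset Pool.Agent.Helper55.FT

/-- `be m - q * al m` -/
private def ga_MSideII (p q : ℕ) (b v m : ℤ) : ℤ := be p q v m - q * al p b m

private theorem emod_step_MSideII {a c M : ℤ} (hM : 0 < M) (hc0 : 0 ≤ c) (hcM : c < M) :
    (a + c) % M = a % M + c ∨ (a + c) % M = a % M + c - M := by
  have h0 := Int.emod_nonneg a hM.ne'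
  have h1 := Int.emod_lt_of_pos a hM
  have h2 : (a + c) % M = (a % M + c) % M := by
    rw [Int.add_emod, Int.add_emod (a % M) c, Int.emod_emod]
  rcases lt_or_ge (a % M + c) M with h | h
  · left
    rw [h2]
    exact Int.emod_eq_of_lt (by linarith) h
  · right
    rw [h2, ← Int.emod_eq_of_lt (a := a % M + c - M) (b := M) (by linarith) (by linarith),
      Int.sub_emod_right]

private theorem pos_MSideII {p q : ℕ} {b v : ℤ} (h : H p q b v) :
    (0 : ℤ) < p ∧ (0 : ℤ) < q ∧ (0 : ℤ) < p * q := by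
  have hp : (0 : ℤ) < p := by exact_mod_cast h.hp.pos
  have hq : (0 : ℤ) < q := by exact_mod_cast h.hq.pos
  exact ⟨hp, hq, mul_pos hp hq⟩

private theorem ga_ne_MSideII {p q : ℕ} {b v : ℤ} (h : H p q b v) {m : ℤ} (hm : m ≠ 0)
    (hm1 : |m| < p) : ga_MSideII p q b v m ≠ 0 := by
  intro h0
  obtain ⟨hp, hq, hM⟩ := pos_MSideII h
  have hdvd : (q : ℤ) ∣ -m * v := by
    have e1 : (p * q : ℤ) ∣ (-m * v - q) - (-m * v - q) % (p * q) := Int.dvd_self_sub_emod
    have e2 : (q : ℤ) ∣ (-m * v - q) - (-m * v - q) % (p * q) :=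
      (Dvd.intro_left (p : ℤ) rfl).trans e1
    have e3 : (-m * v - q) % (p * q) = q * al p b m := by
      unfold ga_MSideII be at h0
      linarith
    rw [e3] at e2
    have e4 : -m * v = (-m * v - q - q * al p b m) + q * (1 + al p b m) := by ring
    rw [e4]
    exact dvd_add e2 (Dvd.intro _ rfl)
  have hqp : Prime (q : ℤ) := Nat.prime_iff_prime_int.mp h.hq
  rcases hqp.dvd_or_dvd hdvd with h1 | h1
  · rw [Int.dvd_neg] at h1
    have := Int.le_of_dvd (abs_pos.mpr hm) ((dvd_abs _ _).mpr h1)
    have h2 : (p : ℤ) < q := by exact_mod_cast h.hpq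
    linarith
  · exact h.hvq h1

private theorem change_MSideII (g : ℤ → ℤ) (s : ℤ) (n : ℕ)
    (hne : ∀ m, s ≤ m → m ≤ s + n → g m ≠ 0) (hs : g s < 0) (ht : 0 < g (s + n)) :
    ∃ m, s ≤ m ∧ m < s + n ∧ g m < 0 ∧ 0 < g (m + 1) := by
  induction n with
  | zero =>
    simp only [Nat.cast_zero, add_zero] at ht
    exact absurd ht (by linarith)
  | succ n ih =>
    rcases lt_or_ge 0 (g (s + n)) with h1 | h1
    · obtain ⟨m, h2, h3, h4, h5⟩ := ih (fun m h2 h3 => hne m h2 (by push_cast; linarith)) h1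
      exact ⟨m, h2, by push_cast; linarith, h4, h5⟩
    · have h2 : g (s + n) ≠ 0 := hne _ (by linarith [Int.natCast_nonneg n]) (by push_cast; linarith)
      refine ⟨s + n, by linarith [Int.natCast_nonneg n], by push_cast; linarith,
        lt_of_le_of_ne h1 h2, ?_⟩
      have h3 : s + (n : ℤ) + 1 = s + ((n + 1 : ℕ) : ℤ) := by push_cast; ring
      rw [h3]
      exact ht

private theorem step_MSideII {p q : ℕ} {b v : ℤ} (h : H p q b v) (hII : p * q < v + b * q)
    {e A : ℕ} (he : e < p) (hA : A + 1 < p) (hg : gapok p q v e)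
    (h3 : ga_MSideII p q b v (A - e) < 0) (h4 : 0 < ga_MSideII p q b v (A - e + 1)) :
    VV p q v := by
  obtain ⟨hp, hq, hM⟩ := pos_MSideII h
  have hb2 := h.hb2
  have hbp := h.hbp
  have hv1 := h.hv1
  have hvM := h.hvM
  have e1 : al p b (A - e + 1) = al p b (A - e) + b ∨
      al p b (A - e + 1) = al p b (A - e) + b - p := by
    have := emod_step_MSideII (a := b * ((A : ℤ) - e) - 1) (c := b) hp (by linarith) (by linarith)
    unfold al
    rw [show b * ((A : ℤ) - e + 1) - 1 = b * ((A : ℤ) - e) - 1 + b by ring]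
    exact this
  have e2 : be p q v (A - e + 1) = be p q v (A - e) + (p * q - v) ∨
      be p q v (A - e + 1) = be p q v (A - e) + (p * q - v) - p * q := by
    have := emod_step_MSideII (a := -((A : ℤ) - e) * v - q) (c := (p : ℤ) * q - v) hM
      (by linarith) (by linarith)
    unfold be
    rw [show -((A : ℤ) - e + 1) * v - q
      = (-((A : ℤ) - e) * v - q + ((p : ℤ) * q - v)) + (p * q : ℤ) * (-1) by ring,
      Int.add_mul_emod_self_left]
    exact this
  have e5 : (A : ℤ) - e + 1 = A + 1 - e := by ring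
  unfold ga_MSideII at h3 h4
  have key : al p b (A - e + 1) = al p b (A - e) + b - p ∧
      be p q v (A - e + 1) = be p q v (A - e) + (p * q - v) := by
    rcases e1 with e1 | e1 <;> rcases e2 with e2 | e2
    · exfalso
      rw [e1, e2] at h4
      nlinarith
    · exfalso
      rw [e1, e2] at h4
      nlinarith
    · exact ⟨e1, e2⟩
    · exfalso
      rw [e1, e2] at h4
      nlinarith
  refine emptyMinus h he hA hg ?_ ?_ ?_ ?_
  · rw [← e5, key.1]
    linarith
  · rw [← e5, key.2]
    linarith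
  · linarith
  · rw [← e5]
    linarith

theorem sideIIP {p q : ℕ} {b v : ℤ} (h : H p q b v) (hII : p * q < v + b * q)
    (hw : v < p * q - q) {e m : ℕ}
    (hg : gapok p q v e) (hm : 1 ≤ m) (hme : e + m < p)
    (hx : q * ((b * m) % p) < (m * (p * q - v)) % (p * q) ∨ (m * (p * q - v)) % (p * q) < q) :
    VV p q v := by
  obtain ⟨hp, hq, hM⟩ := pos_MSideII h
  have hb2 := h.hb2
  have hbp := h.hbp
  have hv1 := h.hv1
  have hvM := h.hvM
  have hm' : (1 : ℤ) ≤ m := by exact_mod_cast hm
  have hme' : (e : ℤ) + m < p := by exact_mod_cast hme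
  have he' : (0 : ℤ) ≤ e := Int.natCast_nonneg e
  have g1 : ga_MSideII p q b v 1 < 0 := by
    have a1 : al p b 1 = b - 1 := by
      unfold al
      rw [mul_one]
      exact Int.emod_eq_of_lt (by linarith) (by linarith)
    have a2 : be p q v 1 = p * q - v - q := by
      unfold be
      rw [show -1 * v - (q : ℤ) = ((p : ℤ) * q - v - q) + (p * q : ℤ) * (-1) by ring,
        Int.add_mul_emod_self_left]
      exact Int.emod_eq_of_lt (by linarith) (by linarith)
    unfold ga_MSideII
    rw [a1, a2]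
    nlinarith
  have gm : 0 < ga_MSideII p q b v m := by
    have hr0 := Int.emod_nonneg (b * m) hp.ne'
    have hr1 := Int.emod_lt_of_pos (b * m) hp
    have hrne : (b * m) % p ≠ 0 := by
      intro h0
      have hd : (p : ℤ) ∣ b * m := Int.dvd_of_emod_eq_zero h0
      have hpp : Prime (p : ℤ) := Nat.prime_iff_prime_int.mp h.hp
      rcases hpp.dvd_or_dvd hd with h1 | h1
      · have := Int.le_of_dvd (by linarith) h1
        linarith
      · have := Int.le_of_dvd (by linarith) h1
        linarith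
    have hr2 : 1 ≤ (b * m) % p := by omega
    have a1 : al p b m = (b * m) % p - 1 := by
      unfold al
      have t : b * m = (b * m) % p + p * ((b * m) / p) := (Int.emod_add_mul_ediv _ _).symm
      rw [show b * (m : ℤ) - 1 = ((b * m) % p - 1) + (p : ℤ) * ((b * m) / p) by
        linear_combination t, Int.add_mul_emod_self_left]
      exact Int.emod_eq_of_lt (by linarith) (by linarith)
    have hW0 := Int.emod_nonneg (m * (p * q - v)) hM.ne'
    have hW1 := Int.emod_lt_of_pos (m * (p * q - v)) hM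
    have a2 : be p q v m = ((m * (p * q - v)) % (p * q) - q) % (p * q) := by
      unfold be
      rw [Int.emod_sub_emod, show -(m : ℤ) * v - q = (m * ((p : ℤ) * q - v) - q) + (p * q : ℤ) * (-m) by ring,
        Int.add_mul_emod_self_left]
    unfold ga_MSideII
    rw [a1, a2]
    generalize (b * (m : ℤ)) % p = r at *
    generalize ((m : ℤ) * (p * q - v)) % (p * q) = W at *
    rcases hx with hx | hx
    · rw [Int.emod_eq_of_lt (by nlinarith) (by nlinarith)]
      nlinarith
    · have : (W - q) % ((p : ℤ) * q) = W - q + p * q := by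
        rw [← Int.emod_eq_of_lt (a := W - q + p * q) (b := (p : ℤ) * q) (by nlinarith) (by nlinarith),
          Int.add_emod_right]
      rw [this]
      nlinarith
  obtain ⟨n, hn⟩ : ∃ n : ℕ, m = 1 + n := ⟨m - 1, by omega⟩
  have hmn : (m : ℤ) = 1 + n := by exact_mod_cast hn
  rw [hmn] at gm
  obtain ⟨m', h1, h2, h3, h4⟩ := change_MSideII (ga_MSideII p q b v) 1 n
    (fun m'' h1 h2 => ga_ne_MSideII h (by linarith) (by rw [abs_of_pos (by linarith)]; linarith)) g1 gm
  obtain ⟨k, rfl⟩ := Int.eq_ofNat_of_zero_le (show 0 ≤ m' by linarith)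
  have hk : (k : ℤ) < m := by rw [hmn]; exact h2
  have hk' : k < m := by exact_mod_cast hk
  have hA : ((e + k : ℕ) : ℤ) - e = k := by push_cast; ring
  refine step_MSideII (e := e) (A := e + k) h hII (by omega) (by omega) hg ?_ ?_
  · rw [hA]; exact h3
  · rw [hA]; exact h4

theorem sideIIN {p q : ℕ} {b v : ℤ} (h : H p q b v) (hII : p * q < v + b * q)
    {e m : ℕ} (he : e < p) (hg : gapok p q v e) (hm : 1 ≤ m) (hme : m ≤ e)
    (hx : q * ((b * m) % p) < (m * (p * q - v)) % (p * q))
    (hx2 : (m * (p * q - v)) % (p * q) ≤ p * q - q) : VV p q v := by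
  obtain ⟨hp, hq, hM⟩ := pos_MSideII h
  have hb2 := h.hb2
  have hbp := h.hbp
  have hv1 := h.hv1
  have hvM := h.hvM
  have hm' : (1 : ℤ) ≤ m := by exact_mod_cast hm
  have hme' : (m : ℤ) ≤ e := by exact_mod_cast hme
  have he' : (e : ℤ) < p := by exact_mod_cast he
  have g1 : 0 < ga_MSideII p q b v (-1) := by
    have a1 : al p b (-1) = p - b - 1 := by
      unfold al
      rw [show b * (-1) - 1 = ((p : ℤ) - b - 1) + (p : ℤ) * (-1) by ring, Int.add_mul_emod_self_left]
      exact Int.emod_eq_of_lt (by linarith) (by linarith)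
    have a2 : be p q v (-1) = v - q := by
      unfold be
      rw [show -(-1) * v - (q : ℤ) = v - q by ring]
      exact Int.emod_eq_of_lt (by nlinarith) (by linarith)
    unfold ga_MSideII
    rw [a1, a2]
    nlinarith
  have gm : ga_MSideII p q b v (-m) < 0 := by
    have hr0 := Int.emod_nonneg (b * m) hp.ne'
    have hr1 := Int.emod_lt_of_pos (b * m) hp
    have a1 : al p b (-m) = p - 1 - (b * m) % p := by
      unfold al
      have t : b * m = (b * m) % p + p * ((b * m) / p) := (Int.emod_add_mul_ediv _ _).symm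
      rw [show b * (-(m : ℤ)) - 1 = ((p : ℤ) - 1 - (b * m) % p) + (p : ℤ) * (-1 - (b * m) / p) by
        linear_combination -t, Int.add_mul_emod_self_left]
      exact Int.emod_eq_of_lt (by linarith) (by linarith)
    have hW0 := Int.emod_nonneg (m * (p * q - v)) hM.ne'
    have hW1 := Int.emod_lt_of_pos (m * (p * q - v)) hM
    have a2 : be p q v (-m) = p * q - q - (m * (p * q - v)) % (p * q) := by
      unfold be
      have t : (m : ℤ) * (p * q - v) = (m * (p * q - v)) % (p * q) + p * q * ((m * (p * q - v)) / (p * q)) :=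
        (Int.emod_add_mul_ediv _ _).symm
      rw [show -(-(m : ℤ)) * v - q = ((p : ℤ) * q - q - (m * (p * q - v)) % (p * q))
        + (p * q : ℤ) * (m - 1 - (m * (p * q - v)) / (p * q)) by
        linear_combination -t, Int.add_mul_emod_self_left]
      exact Int.emod_eq_of_lt (by linarith) (by linarith)
    unfold ga_MSideII
    rw [a1, a2]
    generalize (b * (m : ℤ)) % p = r at *
    generalize ((m : ℤ) * (p * q - v)) % (p * q) = W at *
    nlinarith
  obtain ⟨n, hn⟩ : ∃ n : ℕ, m = 1 + n := ⟨m - 1, by omega⟩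
  have hmn : (m : ℤ) = 1 + n := by exact_mod_cast hn
  have hend : -(m : ℤ) + n = -1 := by rw [hmn]; ring
  obtain ⟨m', h1, h2, h3, h4⟩ := change_MSideII (ga_MSideII p q b v) (-m) n
    (fun m'' h1 h2 => ga_ne_MSideII h (by linarith)
      (by rw [abs_of_neg (by linarith)]; linarith)) gm (by rw [hend]; exact g1)
  obtain ⟨k, hk⟩ := Int.eq_ofNat_of_zero_le (show 0 ≤ (e : ℤ) + m' by linarith)
  have hk2 : (k : ℤ) < e - 1 := by
    have : (e : ℤ) + m' = k := hk
    linarith
  have hk3 : k + 1 < e := by omega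
  have hA : ((k : ℕ) : ℤ) - e = m' := by
    have : (e : ℤ) + m' = k := hk
    linarith
  refine step_MSideII (e := e) (A := k) h hII he (by omega) hg ?_ ?_
  · rw [hA]; exact h3
  · rw [hA]; exact h4

end Pool.Agent.Helper10.TB
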