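import Pool.Agent.Helper10.TB.MSideI
import Pool.Agent.Helper10.TB.MSideII
import Pool.Agent.Helper10.TB.MGap
import Pool.Agent.Helper10.TB.MNC

set_option autoImplicit false

/-!
# The middle range

PROOF.  Take `e` from `gap_exists`.  `v + b q ≠ p q` (otherwise the remainder is `0`).

Case I, `v + b q < p q`: the remainder is `v + b q < p q - q`, so `v < (c - 1) q` with `c = p - b`, and `q < v` gives `c ≥ 3`; `c ≤ p - 2`.  `nc` with `(c, v)` gives `m`,
`1 ≤ m`, `2 m < p`, `q ((c m) % p) < (m v) % (p q) ≤ p q - q`, and `(c m) % p = p - (b m) % p` (`p ∤ b m`, because `p ∤ b` by `hbq`).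
If `2 e < p` then `e + m < p`: `sideIP`.  Otherwise `m ≤ e`: `sideIN` (left alternative).

Case II, `v + b q > p q`: the remainder is `v + b q - p q > q`; `w = p q - v` satisfies `q < w < (b-1) q`, so `b ≥ 3`.  `nc` with `(b, w)`:
`q ((b m) % p) < (m w) % (p q) ≤ p q - q`.  If `2 e < p`: `sideIIP` (left alternative); otherwise `sideIIN`.
-/

namespace Pool.Agent.Helper10.TB

theorem mid {p q : ℕ} {b v : ℤ} (h : H p q b v) (h1 : (q : ℤ) < v) (h2 : v < p * q - q)
    (h3 : (q : ℤ) < (v + b * q) % (p * q)) (h4 : (v + b * q) % (p * q) < p * q - q) :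
    VV p q v := by
  obtain ⟨e, he, hg⟩ := gap_exists h
  have hb2 := h.hb2
  have hbp := h.hbp
  have hp0 : (0 : ℤ) < p := by exact_mod_cast h.hp.pos
  have hq0 : (0 : ℤ) < q := by exact_mod_cast h.hq.pos
  have hP : (0 : ℤ) < p * q := mul_pos hp0 hq0
  have hbqp : (b : ℤ) * q ≤ (p - 2) * q := mul_le_mul_of_nonneg_right hbp hq0.le
  have hbq0 : (0 : ℤ) ≤ b * q := mul_nonneg (by linarith) hq0.le
  rcases lt_trichotomy (v + b * q) (p * q : ℤ) with hI | hI | hI
  · have hrem : (v + b * q) % (p * q : ℤ) = v + b * q := Int.emod_eq_of_lt (by linarith) hI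
    rw [hrem] at h3 h4
    have hw2 : v < ((p - b : ℤ) - 1) * q := by linarith
    have hc3 : (3 : ℤ) ≤ p - b := by
      by_contra hc
      have hc' : (p : ℤ) - b - 1 ≤ 1 := by omega
      have := mul_le_mul_of_nonneg_right hc' hq0.le
      linarith
    obtain ⟨m, hm1, hm2, hx, hx2⟩ := nc (b := (p : ℤ) - b) (w := v) h.hp h.h11 h.hq.pos hc3
      (by linarith) h1 hw2
    have hR0 := Int.emod_nonneg (b * m) hp0.ne'
    have hR1 := Int.emod_lt_of_pos (b * m) hp0
    have hRne : (b * m) % (p : ℤ) ≠ 0 := by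
      intro h0
      have hd : (p : ℤ) ∣ b * m := Int.dvd_of_emod_eq_zero h0
      have hpp : Prime (p : ℤ) := Nat.prime_iff_prime_int.mp h.hp
      rcases hpp.dvd_or_dvd hd with h5 | h5
      · have := Int.le_of_dvd (by linarith) h5
        linarith
      · have h6 : (0 : ℤ) < m := by exact_mod_cast hm1
        have h7 := Int.le_of_dvd h6 h5
        have h8 : (p : ℕ) ≤ m := by exact_mod_cast h7
        omega
    have hcm : (((p : ℤ) - b) * m) % p = p - (b * m) % p := by
      have t : b * m = (b * m) % p + p * ((b * m) / p) := (Int.emod_add_mul_ediv _ _).symm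
      rw [show ((p : ℤ) - b) * m = (p - (b * m) % p) + p * (m - 1 - (b * m) / p) by
        linear_combination -t, Int.add_mul_emod_self_left]
      refine Int.emod_eq_of_lt (by linarith) ?_
      have : 0 < (b * m) % (p : ℤ) := lt_of_le_of_ne hR0 (Ne.symm hRne)
      linarith
    rw [hcm] at hx
    rcases Nat.lt_or_ge (2 * e) p with h5 | h5
    · exact sideIP h hI hg hm1 (by omega) hx hx2
    · exact sideIN h hI h1 he hg hm1 (by omega) (Or.inl hx)
  · exfalso
    rw [hI, Int.emod_self] at h3
    linarith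
  · have hlt : v + b * q - p * q < p * q := by linarith [h.hvM]
    have hrem : (v + b * q) % (p * q : ℤ) = v + b * q - p * q := by
      rw [← Int.sub_emod_right]
      exact Int.emod_eq_of_lt (by linarith) hlt
    rw [hrem] at h3 h4
    have hw1 : (q : ℤ) < p * q - v := by linarith
    have hw2 : (p * q : ℤ) - v < (b - 1) * q := by linarith
    have hb3 : (3 : ℤ) ≤ b := by
      by_contra hc
      have hc' : b - 1 ≤ 1 := by omega
      have := mul_le_mul_of_nonneg_right hc' hq0.le
      linarith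
    obtain ⟨m, hm1, hm2, hx, hx2⟩ := nc (b := b) (w := (p * q : ℤ) - v) h.hp h.h11 h.hq.pos hb3
      hbp hw1 hw2
    rcases Nat.lt_or_ge (2 * e) p with h5 | h5
    · exact sideIIP h hI h2 hg hm1 (by omega) (Or.inl hx)
    · exact sideIIN h hI he hg hm1 (by omega) hx hx2

end Pool.Agent.Helper10.TB
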