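import Pool.Agent.Helper10.TB.NCDefs
import Pool.Agent.Helper10.TB.MClaimC

set_option autoImplicit false

/-!
# One of the two phases must wrap before `p / 2`

PROOF of `jj_wraps`: suppose `jj m = 0` for all `1 ≤ m`, `2 m < p`.  By `claimC` take `m` with `R := (b m) % p < m`.  `nov` gives
`ii m = (b m) / p`, so `0 ≤ m u - (ii m) p q = m (b q - w) - ((b m)/p) p q = q R - m w`, so `m w ≤ q R`, but `m w > m q > q R`. Contradiction.

PROOF of `ii_wraps`: suppose `ii m = 0` for all such `m`; same `m`; `jj m = (b m)/p`, and `m w + q - 1 - (jj m) p q ≥ 0`, i.e.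
`m u = m b q - m w ≤ m b q + q - 1 - ((b m)/p) p q = q R + q - 1`, so `m q < m u ≤ q R + q - 1 < q (R + 1) ≤ q m`. Contradiction.
-/

namespace Pool.Agent.Helper10.TB

theorem jj_wraps {p q : ℕ} {b w u : ℤ} (h : NoV p q b w u) :
    ∃ m : ℕ, 1 ≤ m ∧ 2 * m < p ∧ jj p q w m ≠ 0 := by
  by_contra hcon
  push Not at hcon
  obtain ⟨m, hm1, hm2, hR⟩ := claimC h.hp h.h11 h.hb h.hbp
  have hj := hcon m hm1 hm2
  have hn := h.nov m hm1 hm2
  rw [hj, zero_add] at hn
  have hq0 : (0 : ℤ) < q := by exact_mod_cast h.hq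
  have hp0 : (0 : ℤ) < p := by exact_mod_cast h.hp.pos
  have hpq : (0 : ℤ) < (p : ℤ) * q := mul_pos hp0 hq0
  have h1 : ii p q u m * (p * q) ≤ m * u := by
    unfold ii
    exact Int.ediv_mul_le _ (ne_of_gt hpq)
  rw [hn] at h1
  have h2 : (p : ℤ) * ((b * m) / p) + (b * m) % p = b * m := Int.mul_ediv_add_emod _ _
  have hm0 : (1 : ℤ) ≤ m := by exact_mod_cast hm1
  have hw := h.hw
  have hwu := h.hwu
  set K : ℤ := (b * m) / p with hK
  set R : ℤ := (b * m) % p with hRd
  have h3 : (m : ℤ) * w ≤ q * R := by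
    have e1 : (m : ℤ) * u = m * (b * q) - m * w := by rw [← hwu]; ring
    have e2 : (q : ℤ) * R = m * (b * q) - K * (p * q) := by
      have : R = b * m - p * K := by linarith
      rw [this]; ring
    linarith
  have h4 : (m : ℤ) * q < m * w := by
    exact mul_lt_mul_of_pos_left hw (by linarith)
  have h5 : (q : ℤ) * R < q * m := mul_lt_mul_of_pos_left hR hq0
  have h6 : (m : ℤ) * q = q * m := mul_comm _ _
  linarith

theorem ii_wraps {p q : ℕ} {b w u : ℤ} (h : NoV p q b w u) :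
    ∃ m : ℕ, 1 ≤ m ∧ 2 * m < p ∧ ii p q u m ≠ 0 := by
  by_contra hcon
  push Not at hcon
  obtain ⟨m, hm1, hm2, hR⟩ := claimC h.hp h.h11 h.hb h.hbp
  have hj := hcon m hm1 hm2
  have hn := h.nov m hm1 hm2
  rw [hj, add_zero] at hn
  have hq0 : (0 : ℤ) < q := by exact_mod_cast h.hq
  have hp0 : (0 : ℤ) < p := by exact_mod_cast h.hp.pos
  have hpq : (0 : ℤ) < (p : ℤ) * q := mul_pos hp0 hq0
  have h1 : jj p q w m * (p * q) ≤ m * w + q - 1 := by
    unfold jj
    exact Int.ediv_mul_le _ (ne_of_gt hpq)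
  rw [hn] at h1
  have h2 : (p : ℤ) * ((b * m) / p) + (b * m) % p = b * m := Int.mul_ediv_add_emod _ _
  have hm0 : (1 : ℤ) ≤ m := by exact_mod_cast hm1
  have hu := h.hu
  have hwu := h.hwu
  set K : ℤ := (b * m) / p with hK
  set R : ℤ := (b * m) % p with hRd
  have h3 : (m : ℤ) * u ≤ q * R + q - 1 := by
    have e1 : (m : ℤ) * u = m * (b * q) - m * w := by rw [← hwu]; ring
    have e2 : (q : ℤ) * R = m * (b * q) - K * (p * q) := by
      have : R = b * m - p * K := by linarith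
      rw [this]; ring
    linarith
  have h4 : (m : ℤ) * q < m * u := by
    exact mul_lt_mul_of_pos_left hu (by linarith)
  have h5 : (q : ℤ) * (R + 1) ≤ q * m := mul_le_mul_of_nonneg_left (by linarith [Int.add_one_le_iff.2 hR]) hq0.le
  have h6 : (m : ℤ) * q = q * m := mul_comm _ _
  have h7 : (q : ℤ) * (R + 1) = q * R + q := by ring
  linarith

end Pool.Agent.Helper10.TB
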