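import Pool.Agent.Helper10.TB.MNCend

set_option autoImplicit false

/-!
# The no-carry hypothesis is contradictory for `2 b < p`

Write `B m = (b m)/p`, `R m = (b m) % p`, `x m = m w - (jj m) p q`, `y m = m u - (ii m) p q`; `x m ≥ -(q-1)`, `x m ≤ p q - q`,
`0 ≤ y m < p q`, and by `nov`: `x m + y m = q R m` for `1 ≤ m`, `2 m < p`.  `jj, ii, B` are monotone in `m`, `jj m, ii m ≥ 0`.

PROOF.  Let `m1` be the least `m` with `b m ≥ p` (so `B m1 = 1`, `R m1 < b`; `m1 ≤ ⌈p/3⌉`, `2 m1 < p`).  `jj m1 + ii m1 = 1`.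

Case A: `jj m1 = 0`, `ii m1 = 1`.  `m1 w = x m1 ≤ q R m1 ≤ q (b-1)`.  By `jj_wraps` and monotonicity there is a least `m'` with `jj m' ≥ 1`, `2 m' < p`,
`m' > m1`.  `k := B (m'-1) ≥ B m1 = 1`, `B m' ≥ k + 1` (`jj` increases and `ii` does not decrease).  Let `m⁻` be the least `m` with `B m ≥ k`, i.e. the
least `m` with `b m ≥ k p`; `m1 ≤ m⁻ ≤ m' - 1`, `R m⁻ < b`, and `m' - m⁻ ≤ m1` (`b (m⁻ + m1) ≥ k p + p`, so `m⁻ + m1` is `≥` the least `m` with
`B m ≥ k+1`; and `m'` is that least `m` because `B (m'-1) = k`).  `m⁻ w = x m⁻ ≤ q R m⁻ ≤ q (b-1)`; `m' w ≥ p q - q + 1`.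
Hence `m1 w ≥ (m' - m⁻) w ≥ p q - q + 1 - q (b-1) = q (p - b) + 1`, but `m1 w ≤ q (b-1)`.  So `p - b < b - 1`, contradiction to `2 b < p`.

Case B: `jj m1 = 1`, `ii m1 = 0`.  `m1 u = y m1 = q R m1 - x m1 ≤ q (b-1) + q - 1 < q b`.  By `ii_wraps` let `m'` be least with `ii m' ≥ 1`; `m⁻` as before:
`m⁻ u = y m⁻ ≤ q (b-1) + q - 1 < q b`, `m' u ≥ p q`, so `q b > m1 u ≥ (m' - m⁻) u > p q - q b`, contradiction to `2 b < p`.
-/

namespace Pool.Agent.Helper10.TB

/-- least multiple of `b` which is at least `k p` -/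
private theorem least_MNClow (b : ℤ) (hb : 0 < b) (T : ℤ) (hT : 0 < T) :
    ∃ m : ℕ, 1 ≤ m ∧ T ≤ b * m ∧ b * m < T + b := by
  have hex : ∃ m : ℕ, T ≤ b * m := by
    refine ⟨T.toNat, ?_⟩
    have : ((T.toNat : ℕ) : ℤ) = T := Int.toNat_of_nonneg hT.le
    rw [this]
    nlinarith
  refine ⟨Nat.find hex, ?_, Nat.find_spec hex, ?_⟩
  · by_contra h0
    have h1 : Nat.find hex = 0 := by omega
    have h2 := Nat.find_spec hex
    rw [h1] at h2
    simp at h2
    omega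
  · by_contra h0
    push Not at h0
    have hpos : 1 ≤ Nat.find hex := by
      by_contra h1
      have h1 : Nat.find hex = 0 := by omega
      have h2 := Nat.find_spec hex
      rw [h1] at h2
      simp at h2
      omega
    have h3 := Nat.find_min hex (m := Nat.find hex - 1) (by omega)
    apply h3
    rw [Nat.cast_sub hpos]
    push_cast
    nlinarith

private theorem mono_MNClow (c d e : ℤ) (hc : 0 < c) (hd : 0 ≤ d) {m n : ℕ} (h : m ≤ n) :
    ((m : ℤ) * d + e) / c ≤ ((n : ℤ) * d + e) / c := by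
  apply Int.ediv_le_ediv hc
  have h1 : (m : ℤ) ≤ n := by exact_mod_cast h
  nlinarith

private theorem jj_mono_MNClow (p q : ℕ) (w : ℤ) (hc : (0 : ℤ) < p * q) (hw : 0 ≤ w) {m n : ℕ}
    (h : m ≤ n) : jj p q w m ≤ jj p q w n := by
  have := mono_MNClow (p * q) w (q - 1) hc hw h
  unfold jj
  rw [add_sub_assoc, add_sub_assoc]
  exact this

private theorem ii_mono_MNClow (p q : ℕ) (u : ℤ) (hc : (0 : ℤ) < p * q) (hu : 0 ≤ u) {m n : ℕ}
    (h : m ≤ n) : ii p q u m ≤ ii p q u n := by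
  have := mono_MNClow (p * q) u 0 hc hu h
  unfold ii
  rw [add_zero, add_zero] at this
  exact this

private theorem jj_spec_MNClow (p q : ℕ) (w : ℤ) (hc : (0 : ℤ) < p * q) (m : ℕ) :
    jj p q w m * (p * q) ≤ m * w + q - 1 ∧ m * w + q - 1 < (jj p q w m + 1) * (p * q) :=
  ⟨Int.ediv_mul_le _ hc.ne', Int.lt_ediv_add_one_mul_self _ hc⟩

private theorem ii_spec_MNClow (p q : ℕ) (u : ℤ) (hc : (0 : ℤ) < p * q) (m : ℕ) :
    ii p q u m * (p * q) ≤ m * u ∧ m * u < (ii p q u m + 1) * (p * q) :=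
  ⟨Int.ediv_mul_le _ hc.ne', Int.lt_ediv_add_one_mul_self _ hc⟩

/-- the quotient is determined -/
private theorem B_eq_MNClow (P b k : ℤ) (hP : 0 < P) (m : ℕ) (h1 : k * P ≤ b * m)
    (h2 : b * m < (k + 1) * P) : (b * m) / P = k := by
  apply le_antisymm
  · have := (Int.ediv_lt_iff_lt_mul hP).2 h2
    omega
  · exact (Int.le_ediv_iff_mul_le hP).2 h1

/-- first index with a nonzero value of a monotone function -/
private theorem first_MNClow (p : ℕ) (f : ℕ → ℤ) (m1 : ℕ) (h1 : f m1 = 0)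
    (hmono : ∀ m n, m ≤ n → f m ≤ f n) (h0 : ∀ m, 0 ≤ f m)
    (hex : ∃ m : ℕ, 1 ≤ m ∧ 2 * m < p ∧ f m ≠ 0) :
    ∃ m' : ℕ, m1 + 1 ≤ m' ∧ 2 * m' < p ∧ 1 ≤ f m' ∧ f (m' - 1) = 0 := by
  classical
  have hsp := Nat.find_spec hex
  have hlt : m1 < Nat.find hex := by
    by_contra h
    have h2 := hmono _ _ (not_lt.1 h)
    rw [h1] at h2
    exact hsp.2.2 (le_antisymm h2 (h0 _))
  refine ⟨Nat.find hex, hlt, hsp.2.1, ?_, ?_⟩
  · have := h0 (Nat.find hex)
    have := hsp.2.2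
    omega
  · by_contra h
    by_cases hm : Nat.find hex - 1 = 0
    · have h2 := hmono 0 m1 (Nat.zero_le _)
      rw [h1] at h2
      rw [hm] at h
      exact h (le_antisymm h2 (h0 _))
    · exact Nat.find_min hex (m := Nat.find hex - 1) (by omega)
        ⟨by omega, by have := hsp.2.1; omega, h⟩

theorem nc_low {p q : ℕ} {b w u : ℤ} (h : NoV p q b w u) (hlow : 2 * b < p) : False := by
  obtain ⟨hp, h11, hq, hb, hbp, hw, hu, hwu, nov⟩ := id h
  have hP : (0 : ℤ) < p := by exact_mod_cast (by omega : 0 < p)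
  have hQ : (0 : ℤ) < q := by exact_mod_cast hq
  have hc : (0 : ℤ) < p * q := mul_pos hP hQ
  have hw0 : 0 ≤ w := by omega
  have hu0 : 0 ≤ u := by omega
  have hJ0 : ∀ m, 0 ≤ jj p q w m := by
    intro m
    refine Int.ediv_nonneg ?_ hc.le
    have : (0 : ℤ) ≤ m * w := mul_nonneg (by positivity) hw0
    omega
  have hI0 : ∀ m, 0 ≤ ii p q u m := by
    intro m
    exact Int.ediv_nonneg (mul_nonneg (by positivity) hu0) hc.le
  -- the least m1
  obtain ⟨m1, hm1, hm1a, hm1b⟩ := least_MNClow b (by omega) p hP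
  have h2m1 : 2 * m1 < p := by
    have h3 : 3 * ((m1 : ℤ) - 1) ≤ b * ((m1 : ℤ) - 1) :=
      mul_le_mul_of_nonneg_right hb (by have : (1 : ℤ) ≤ m1 := by exact_mod_cast hm1
                                        omega)
    have h4 : b * ((m1 : ℤ) - 1) < p := by nlinarith
    have h5 : (11 : ℤ) ≤ p := by exact_mod_cast h11
    zify
    omega
  have hB1 : (b * m1) / (p : ℤ) = 1 := B_eq_MNClow p b 1 hP m1 (by omega) (by omega)
  have hn1 := nov m1 hm1 h2m1
  rw [hB1] at hn1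
  -- data at m'
  have data : ∀ m' : ℕ, m1 + 1 ≤ m' → 2 * m' < p → ∃ (k : ℤ) (mm : ℕ), 1 ≤ k ∧ 1 ≤ mm ∧
      mm ≤ m' - 1 ∧ (m' : ℤ) - mm ≤ m1 ∧ jj p q w (m' - 1) + ii p q u (m' - 1) = k ∧
      jj p q w mm + ii p q u mm = k ∧ k * p ≤ b * mm ∧ b * mm < k * p + b := by
    intro m' hm' h2m'
    obtain ⟨k, hk⟩ : ∃ k, k = (b * ((m' - 1 : ℕ) : ℤ)) / (p : ℤ) := ⟨_, rfl⟩
    have hk1 : 1 ≤ k := by
      rw [hk, ← hB1]
      apply Int.ediv_le_ediv hP
      have : (m1 : ℤ) ≤ ((m' - 1 : ℕ) : ℤ) := by exact_mod_cast (by omega : m1 ≤ m' - 1)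
      exact mul_le_mul_of_nonneg_left this (by omega)
    have hkP : 0 < k * p := mul_pos (by omega) hP
    obtain ⟨mm, hmm, hmma, hmmb⟩ := least_MNClow b (by omega) (k * p) hkP
    have hk2 : k * p ≤ b * ((m' - 1 : ℕ) : ℤ) := by
      rw [hk]; exact Int.ediv_mul_le _ hP.ne'
    have hk3 : b * ((m' - 1 : ℕ) : ℤ) < (k + 1) * p := by
      rw [hk]; exact Int.lt_ediv_add_one_mul_self _ hP
    have hmm2 : mm ≤ m' - 1 := by
      by_contra hcon
      have h6 : ((m' - 1 : ℕ) : ℤ) + 1 ≤ mm := by exact_mod_cast (by omega : m' - 1 + 1 ≤ mm)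
      have h7 : b * (((m' - 1 : ℕ) : ℤ) + 1) ≤ b * mm := mul_le_mul_of_nonneg_left h6 (by omega)
      rw [mul_add, mul_one] at h7
      omega
    have hB2 : (b * mm) / (p : ℤ) = k := by
      refine B_eq_MNClow p b k hP mm hmma ?_
      have h6 : (mm : ℤ) ≤ ((m' - 1 : ℕ) : ℤ) := by exact_mod_cast hmm2
      have h7 : b * mm ≤ b * ((m' - 1 : ℕ) : ℤ) := mul_le_mul_of_nonneg_left h6 (by omega)
      omega
    refine ⟨k, mm, hk1, hmm, hmm2, ?_, ?_, ?_, hmma, hmmb⟩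
    · by_contra hcon
      have h6 : (mm : ℤ) + m1 ≤ ((m' - 1 : ℕ) : ℤ) := by
        have : ((m' - 1 : ℕ) : ℤ) = (m' : ℤ) - 1 := by
          rw [Nat.cast_sub (by omega)]; push_cast; ring
        omega
      have h7 : b * ((mm : ℤ) + m1) ≤ b * ((m' - 1 : ℕ) : ℤ) :=
        mul_le_mul_of_nonneg_left h6 (by omega)
      rw [mul_add] at h7
      have h8 : (k + 1) * (p : ℤ) = k * p + p := by ring
      omega
    · rw [nov (m' - 1) (by omega) (by omega), hk]
    · rw [nov mm hmm (by omega), hB2]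
  have eA : ∀ m : ℕ, (m : ℤ) * w + m * u = (b * m) * q := by
    intro m
    rw [← mul_add, hwu]; ring
  rcases (by have := hJ0 m1; have := hI0 m1; omega :
    (jj p q w m1 = 0 ∧ ii p q u m1 = 1) ∨ (jj p q w m1 = 1 ∧ ii p q u m1 = 0)) with ⟨hj, hi⟩ | ⟨hj, hi⟩
  · -- case A
    have h1 : (m1 : ℤ) * w ≤ q * (b - 1) := by
      have h2 := (ii_spec_MNClow p q u hc m1).1
      rw [hi] at h2
      have h3 := eA m1
      have h4 : b * m1 * (q : ℤ) ≤ (p + b - 1) * q :=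
        mul_le_mul_of_nonneg_right (by omega) hQ.le
      nlinarith
    obtain ⟨m', hm', h2m', hf1, hf0⟩ := first_MNClow p (jj p q w) m1 hj
      (fun m n hmn => jj_mono_MNClow p q w hc hw0 hmn) hJ0 (jj_wraps h)
    obtain ⟨k, mm, hk, hmm, hmm2, hmd, hs1, hs2, hka, hkb⟩ := data m' hm' h2m'
    have hJmm : jj p q w mm = 0 :=
      le_antisymm (hf0 ▸ jj_mono_MNClow p q w hc hw0 hmm2) (hJ0 mm)
    rw [hJmm, zero_add] at hs2
    have h5 : (mm : ℤ) * w ≤ q * (b - 1) := by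
      have h2 := (ii_spec_MNClow p q u hc mm).1
      rw [hs2] at h2
      have h3 := eA mm
      have h4 : b * mm * (q : ℤ) ≤ (k * p + b - 1) * q :=
        mul_le_mul_of_nonneg_right (by omega) hQ.le
      nlinarith
    have h6 : (p : ℤ) * q ≤ m' * w + q - 1 := by
      have h2 := (jj_spec_MNClow p q w hc m').1
      nlinarith
    have h7 : ((m' : ℤ) - mm) * w ≤ m1 * w := mul_le_mul_of_nonneg_right hmd hw0
    have h8 : (2 * b - 1) * (q : ℤ) ≤ (p - 2) * q :=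
      mul_le_mul_of_nonneg_right (by omega) hQ.le
    nlinarith
  · -- case B
    have h1 : (m1 : ℤ) * u < q * b := by
      have h2 := (jj_spec_MNClow p q w hc m1).1
      rw [hj] at h2
      have h3 := eA m1
      have h4 : b * m1 * (q : ℤ) ≤ (p + b - 1) * q :=
        mul_le_mul_of_nonneg_right (by omega) hQ.le
      nlinarith
    obtain ⟨m', hm', h2m', hf1, hf0⟩ := first_MNClow p (ii p q u) m1 hi
      (fun m n hmn => ii_mono_MNClow p q u hc hu0 hmn) hI0 (ii_wraps h)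
    obtain ⟨k, mm, hk, hmm, hmm2, hmd, hs1, hs2, hka, hkb⟩ := data m' hm' h2m'
    have hImm : ii p q u mm = 0 :=
      le_antisymm (hf0 ▸ ii_mono_MNClow p q u hc hu0 hmm2) (hI0 mm)
    rw [hImm, add_zero] at hs2
    have h5 : (mm : ℤ) * u < q * b := by
      have h2 := (jj_spec_MNClow p q w hc mm).1
      rw [hs2] at h2
      have h3 := eA mm
      have h4 : b * mm * (q : ℤ) ≤ (k * p + b - 1) * q :=
        mul_le_mul_of_nonneg_right (by omega) hQ.le
      nlinarith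
    have h6 : (p : ℤ) * q ≤ m' * u := by
      have h2 := (ii_spec_MNClow p q u hc m').1
      nlinarith
    have h7 : ((m' : ℤ) - mm) * u ≤ m1 * u := mul_le_mul_of_nonneg_right hmd hu0
    have h8 : (2 * b) * (q : ℤ) ≤ (p - 1) * q :=
      mul_le_mul_of_nonneg_right (by omega) hQ.le
    have h9 : ((m' : ℤ) - mm) * u = m' * u - mm * u := by ring
    have h10 : (2 * b) * (q : ℤ) = 2 * (q * b) := by ring
    have h11' : ((p : ℤ) - 1) * q = p * q - q := by ring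
    rw [h9] at h7
    rw [h10, h11'] at h8
    omega

end Pool.Agent.Helper10.TB
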