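import Pool.Agent.Helper10.TB.Defs

set_option autoImplicit false

/-!
# The telescoped form of `G`

PROOF. Everything is in `Helper55/FT/Def.lean`: `av p q y = mm p q 0 y - mm p q 1 y`,
`mm p q i y = #{l < p : l q ≤ y, p ∣ y - i - l q}`, `bv p q N y = if y % (pq) ≤ N then av (y % (pq)) else 0`.

`av_eval`: `l` is the only index in `range p` with `p ∣ y - l q` (`q` is invertible modulo `p`), hence
`mm 0 y = [l q ≤ y]`; same for `mm 1`.

`av_top` : both indicators are `1` as `l q ≤ (p-1) q ≤ y`.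

`av_shift`: Let `0 ≤ y < pq`, `y' = (y + q) % (pq)`, `l, l'` the two indices of `y`.  The indices of `y'` are
`(l+1) % p`, `(l'+1) % p`.  If `y < pq - q` then `y' = y + q`; for `l < p - 1`: `[(l+1) q ≤ y + q] = [l q ≤ y]`; for `l = p-1`:
`[0 ≤ y+q] = 1` and `[(p-1) q ≤ y] = 0`.  If `y ≥ pq - q` then `y' = y - (p-1) q ∈ [0, q)`, all four indicators:
`[l q ≤ y] = 1`, `[((l+1)%p) q ≤ y'] = 1` iff `(l+1) % p = 0` iff `l = p-1`.  In all cases
`[((l+1)%p) q ≤ y'] = [l q ≤ y] + [l = p-1] - [y ≥ pq-q]`... so that the difference over `l, l'` gives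
`av y' = av y + [l = p-1] - [l' = p-1]`, and `l = p-1` iff `p ∣ y + q`, `l' = p-1` iff `p ∣ y - 1 + q`.

`tel`: `q * (-v) ≡ -q (mod pq)` since `p ∣ v - 1`, so
`G p q (-v) N k = Σ_{n<p} (bv (k + n v) - bv (k + n v + q))` (use `bv_congr`).  With `y_n = (k + n v) % (pq)`,
`y'_n = (k + n v + q) % (pq) = (y_n + q) % (pq)`:
`bv(y_n) - bv(y_n+q) = [y_n ≤ N] av y_n - [y'_n ≤ N] (av y_n + [p ∣ y_n + q] - [p ∣ y_n - 1 + q])`.
For `N < pq - q`: `([y ≤ N] - [y' ≤ N]) av y = [N - q < y ≤ N] av y` (if `y < pq - q` then `y' = y + q`; if `y ≥ pq - q`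
then `av y = 0` and `y > N`).  The only `n < p` with `p ∣ k + n v + q` is `n = A`, and the only `n < p` with
`p ∣ k + n v + q - 1` is `n = A + 1` (`v ≡ 1 (mod p)`).
-/

namespace Pool.Agent.Helper10.TB

open Finset Pool.Agent.Helper55.FT

private theorem cop_MTel {p q : ℕ} (hp : p.Prime) (hq : q.Prime) (hpq : p < q) :
    IsCoprime (p : ℤ) (q : ℤ) := by
  rw [Nat.isCoprime_iff_coprime]
  exact (Nat.coprime_primes hp hq).2 (by omega)

private theorem dvd_eq_MTel {p : ℕ} {x : ℤ} (h : (p : ℤ) ∣ x) (h1 : -(p : ℤ) < x) (h2 : x < p) :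
    x = 0 := by
  obtain ⟨c, rfl⟩ := h
  have hp : (0 : ℤ) < p := by omega
  have h3 : -1 < c := by
    by_contra hc
    have : c ≤ -1 := by omega
    nlinarith
  have h4 : c < 1 := by
    by_contra hc
    have : 1 ≤ c := by omega
    nlinarith
  have : c = 0 := by omega
  rw [this, mul_zero]

private theorem ex_MTel {p q : ℕ} (hp : p.Prime) (hq : q.Prime) (hpq : p < q) (x : ℤ) :
    ∃ l : ℤ, 0 ≤ l ∧ l < p ∧ (p : ℤ) ∣ x - l * q := by
  obtain ⟨u, v, huv⟩ := cop_MTel hp hq hpq
  have hp0 : (0 : ℤ) < p := by exact_mod_cast hp.pos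
  refine ⟨(x * v) % p, Int.emod_nonneg _ (by omega), Int.emod_lt_of_pos _ hp0, ?_⟩
  have h1 := Int.emod_add_mul_ediv (x * v) p
  have h2 : x - (x * v) % p * q = p * (x * u + (x * v) / p * q) := by
    have h3 : (x * v) % p = x * v - p * (x * v / p) := by linarith
    rw [h3]
    linear_combination (-x) * huv
  exact ⟨_, h2⟩

private theorem mm_eval_MTel {p q : ℕ} (hp : p.Prime) (hq : q.Prime) (hpq : p < q) {i y l : ℤ}
    (hl0 : 0 ≤ l) (hl1 : l < p) (hl : (p : ℤ) ∣ y - i - l * q) :
    mm p q i y = if l * q ≤ y then 1 else 0 := by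
  obtain ⟨m, rfl⟩ := Int.eq_ofNat_of_zero_le hl0
  unfold mm
  rw [sum_eq_single m]
  · by_cases h : (m : ℤ) * q ≤ y
    · rw [if_pos ⟨h, hl⟩, if_pos h]
    · rw [if_neg (fun h2 => h h2.1), if_neg h]
  · intro n hn hnm
    rw [if_neg]
    rintro ⟨_, h2⟩
    have h3 : (p : ℤ) ∣ (n - m : ℤ) * q := by
      have : ((n : ℤ) - m) * q = (y - i - m * q) - (y - i - n * q) := by ring
      rw [this]
      exact dvd_sub hl h2
    have h4 := (cop_MTel hp hq hpq).dvd_of_dvd_mul_right h3
    have h5 := mem_range.1 hn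
    have h6 := dvd_eq_MTel h4 (by omega) (by omega)
    exact hnm (by omega)
  · intro h
    exact absurd (mem_range.2 (by omega)) h

private theorem shift_MTel {p q : ℕ} (hp : p.Prime) (hq : q.Prime) (hpq : p < q) {i y : ℤ}
    (hy0 : 0 ≤ y) (hy1 : y < p * q) :
    mm p q i ((y + q) % (p * q)) = mm p q i y + (if (p : ℤ) ∣ y - i + q then 1 else 0)
      - (if (p : ℤ) * q - q ≤ y then 1 else 0) := by
  obtain ⟨l, hl0, hl1, hl⟩ := ex_MTel hp hq hpq (y - i)
  have hq0 : (0 : ℤ) < q := by exact_mod_cast hq.pos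
  have hp0 : (0 : ℤ) < p := by exact_mod_cast hp.pos
  have hmod : (p : ℤ) ∣ (y + q) - (y + q) % (p * q) := by
    have h1 := Int.emod_add_mul_ediv (y + q) ((p : ℤ) * q)
    exact ⟨q * ((y + q) / (p * q)), by linear_combination -h1⟩
  have hd : ((p : ℤ) ∣ y - i + q) ↔ l + 1 = p := by
    constructor
    · intro h
      have h3 : (p : ℤ) ∣ (l + 1) * q := by
        have : (l + 1) * q = (y - i + q) - (y - i - l * q) := by ring
        rw [this]
        exact dvd_sub h hl
      have h4 := (cop_MTel hp hq hpq).dvd_of_dvd_mul_right h3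
      have h5 : (p : ℤ) ∣ l + 1 - p := dvd_sub h4 dvd_rfl
      have := dvd_eq_MTel h5 (by omega) (by omega)
      omega
    · intro h
      have : y - i + q = (y - i - l * q) + p * q := by rw [← h]; ring
      rw [this]
      exact dvd_add hl (dvd_mul_right _ _)
  rw [mm_eval_MTel hp hq hpq hl0 hl1 hl]
  by_cases hlp : l + 1 = p
  · have e1 : mm p q i ((y + q) % (p * q)) = 1 := by
      rw [mm_eval_MTel hp hq hpq (l := 0) le_rfl hp0, if_pos]
      · rw [zero_mul]
        exact Int.emod_nonneg _ (by positivity)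
      · have h3 : (y + q) % (p * q) - i - 0 * q =
            (y - i + q) - ((y + q) - (y + q) % (p * q)) := by ring
        rw [h3]
        exact dvd_sub (hd.2 hlp) hmod
    rw [e1, if_pos (hd.2 hlp)]
    have h4 : l * q = p * q - q := by rw [← hlp]; ring
    rw [h4]
    split_ifs <;> ring
  · have e2 : mm p q i ((y + q) % (p * q)) =
        if (l + 1) * q ≤ (y + q) % (p * q) then 1 else 0 := by
      refine mm_eval_MTel hp hq hpq (by omega) (by omega) ?_
      have h3 : (y + q) % (p * q) - i - (l + 1) * q =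
          (y - i - l * q) - ((y + q) - (y + q) % (p * q)) := by ring
      rw [h3]
      exact dvd_sub hl hmod
    rw [e2, if_neg (fun h => hlp (hd.1 h)), add_zero]
    have hl2 : l + 2 ≤ p := by omega
    have h5 : (l + 2) * q ≤ p * q := mul_le_mul_of_nonneg_right hl2 hq0.le
    have h5' : (0 : ℤ) ≤ l * q := mul_nonneg hl0 hq0.le
    by_cases hy : (p : ℤ) * q - q ≤ y
    · have h6 : (y + q) % (p * q) = y + q - p * q := by
        rw [← Int.sub_mul_emod_self_left (y + q) ((p : ℤ) * q) 1, mul_one]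
        exact Int.emod_eq_of_lt (by linarith) (by linarith)
      have h8 : ¬ (l + 1) * q ≤ y + q - p * q := by
        intro h9
        linarith
      have h9 : l * q ≤ y := by linarith
      rw [h6, if_pos h9, if_neg h8, if_pos hy, sub_self]
    · have h6 : (y + q) % (p * q) = y + q := Int.emod_eq_of_lt (by linarith) (by linarith)
      rw [h6, if_neg hy, sub_zero]
      by_cases h7 : l * q ≤ y
      · rw [if_pos h7, if_pos (by linarith)]
      · rw [if_neg h7, if_neg (by intro h8; apply h7; linarith)]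

theorem av_eval {p q : ℕ} (hp : p.Prime) (hq : q.Prime) (hpq : p < q) {y l l' : ℤ}
    (hl0 : 0 ≤ l) (hl1 : l < p) (hm0 : 0 ≤ l') (hm1 : l' < p)
    (hl : (p : ℤ) ∣ y - l * q) (hl' : (p : ℤ) ∣ y - 1 - l' * q) :
    av p q y = (if l * q ≤ y then 1 else 0) - (if l' * q ≤ y then 1 else 0) := by
  unfold av
  rw [mm_eval_MTel hp hq hpq hl0 hl1 (by rwa [sub_zero]), mm_eval_MTel hp hq hpq hm0 hm1 hl']

theorem av_top {p q : ℕ} (hp : p.Prime) (hq : q.Prime) (hpq : p < q) {y : ℤ}
    (hy : (p : ℤ) * q - q ≤ y) : av p q y = 0 := by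
  obtain ⟨l, hl0, hl1, hl⟩ := ex_MTel hp hq hpq y
  obtain ⟨l', hm0, hm1, hl'⟩ := ex_MTel hp hq hpq (y - 1)
  have hq0 : (0 : ℤ) < q := by exact_mod_cast hq.pos
  rw [av_eval hp hq hpq hl0 hl1 hm0 hm1 hl hl', if_pos (by nlinarith), if_pos (by nlinarith),
    sub_self]

theorem av_shift {p q : ℕ} (hp : p.Prime) (hq : q.Prime) (hpq : p < q) {y : ℤ}
    (hy0 : 0 ≤ y) (hy1 : y < p * q) :
    av p q ((y + q) % (p * q)) = av p q y + (if (p : ℤ) ∣ y + q then 1 else 0)
      - (if (p : ℤ) ∣ y - 1 + q then 1 else 0) := by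
  unfold av
  rw [shift_MTel hp hq hpq hy0 hy1, shift_MTel hp hq hpq hy0 hy1, sub_zero]
  ring

theorem tel {p q : ℕ} {b v : ℤ} (h : H p q b v) {N k : ℤ} (hN : 0 ≤ N) (hN1 : N < p * q - q)
    {A : ℕ} (hA : A + 1 < p) (hAk : (p : ℤ) ∣ k + A * v + q) :
    G p q (-v) N k =
      (∑ n ∈ range p, if N - q < (k + n * v) % (p * q) ∧ (k + n * v) % (p * q) ≤ N
        then av p q ((k + n * v) % (p * q)) else 0)
      + (if (k + (A + 1) * v + q) % (p * q) ≤ N then 1 else 0)
      - (if (k + A * v + q) % (p * q) ≤ N then 1 else 0) := by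
  have hp := h.hp
  have hq := h.hq
  have hpq := h.hpq
  have hq0 : (0 : ℤ) < q := by exact_mod_cast hq.pos
  have hp0 : (0 : ℤ) < p := by exact_mod_cast hp.pos
  have hM : (0 : ℤ) < p * q := by positivity
  have key : ∀ n ∈ range p, bv p q N (k - n * (-v)) - bv p q N (k - n * (-v) - q * (-v)) =
      ((if N - q < (k + n * v) % (p * q) ∧ (k + n * v) % (p * q) ≤ N
        then av p q ((k + n * v) % (p * q)) else 0)
      + (if n = A + 1 then (if (k + (A + 1) * v + q) % (p * q) ≤ N then 1 else 0) else 0))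
      - (if n = A then (if (k + A * v + q) % (p * q) ≤ N then 1 else 0) else 0) := by
    intro n hn
    have hn' := mem_range.1 hn
    obtain ⟨c, hc⟩ := h.hvp
    have e1 : k - n * (-v) = k + n * v := by ring
    have e2 : bv p q N (k - n * (-v) - q * (-v)) = bv p q N (k + n * v + q) := by
      refine bv_congr ⟨c, ?_⟩
      push_cast
      linear_combination (q : ℤ) * hc
    rw [e2, e1]
    obtain ⟨y, hy⟩ : ∃ y, y = (k + n * v) % (p * q) := ⟨_, rfl⟩
    have hy0 : 0 ≤ y := hy ▸ Int.emod_nonneg _ (by positivity)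
    have hy1 : y < p * q := hy ▸ Int.emod_lt_of_pos _ hM
    have hyd : (p : ℤ) ∣ (k + n * v) - y := by
      have h1 := Int.emod_add_mul_ediv (k + n * v) ((p : ℤ) * q)
      exact ⟨q * ((k + n * v) / (p * q)), by rw [hy]; linear_combination -h1⟩
    have hy' : (k + n * v + q) % (p * q) = (y + q) % (p * q) := by
      rw [hy, Int.emod_add_emod]
    have hA1 : ((p : ℤ) ∣ y + q) ↔ n = A := by
      have h1 : y + q = (k + A * v + q) + ((n - A) * (v - 1) - ((k + n * v) - y)) + (n - A) := by
        ring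
      have h2 : (p : ℤ) ∣ (k + A * v + q) + ((n - A) * (v - 1) - ((k + n * v) - y)) :=
        dvd_add hAk (dvd_sub (Dvd.dvd.mul_left h.hvp _) hyd)
      rw [h1, dvd_add_right h2]
      constructor
      · intro h3
        have := dvd_eq_MTel h3 (by omega) (by omega)
        omega
      · rintro rfl
        rw [sub_self]
        exact dvd_zero _
    have hA2 : ((p : ℤ) ∣ y - 1 + q) ↔ n = A + 1 := by
      have h1 : y - 1 + q = (k + A * v + q) + ((n - A) * (v - 1) - ((k + n * v) - y))
          + (n - A - 1) := by ring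
      have h2 : (p : ℤ) ∣ (k + A * v + q) + ((n - A) * (v - 1) - ((k + n * v) - y)) :=
        dvd_add hAk (dvd_sub (Dvd.dvd.mul_left h.hvp _) hyd)
      rw [h1, dvd_add_right h2]
      constructor
      · intro h3
        have := dvd_eq_MTel h3 (by omega) (by omega)
        omega
      · rintro rfl
        have : ((A + 1 : ℕ) : ℤ) - A - 1 = 0 := by push_cast; ring
        rw [this]
        exact dvd_zero _
    have e3 : bv p q N (k + n * v) = if y ≤ N then av p q y else 0 := by
      unfold bv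
      rw [← hy]
    have e4 : bv p q N (k + n * v + q) = if (y + q) % (p * q) ≤ N then
        av p q y + (if n = A then 1 else 0) - (if n = A + 1 then 1 else 0) else 0 := by
      unfold bv
      rw [hy', av_shift hp hq hpq hy0 hy1]
      simp only [hA1, hA2]
    have e5 : (if n = A + 1 then (if (k + (A + 1) * v + q) % (p * q) ≤ N then (1 : ℤ) else 0)
        else 0) = if n = A + 1 then (if (y + q) % (p * q) ≤ N then 1 else 0) else 0 := by
      by_cases hn1 : n = A + 1
      · rw [if_pos hn1, if_pos hn1, ← hy', hn1]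
        push_cast
        rfl
      · rw [if_neg hn1, if_neg hn1]
    have e6 : (if n = A then (if (k + A * v + q) % (p * q) ≤ N then (1 : ℤ) else 0)
        else 0) = if n = A then (if (y + q) % (p * q) ≤ N then 1 else 0) else 0 := by
      by_cases hn1 : n = A
      · rw [if_pos hn1, if_pos hn1, ← hy', hn1]
      · rw [if_neg hn1, if_neg hn1]
    rw [e3, e4, e5, e6, ← hy]
    have e7 : (if y ≤ N then av p q y else 0) - (if (y + q) % (p * q) ≤ N then av p q y else 0)
        = if N - q < y ∧ y ≤ N then av p q y else 0 := by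
      by_cases hyt : (p : ℤ) * q - q ≤ y
      · rw [av_top hp hq hpq hyt]
        simp
      · have h6 : (y + q) % (p * q) = y + q := Int.emod_eq_of_lt (by linarith) (by linarith)
        rw [h6]
        by_cases h7 : y ≤ N
        · by_cases h8 : N - q < y
          · rw [if_pos h7, if_neg (by linarith), if_pos ⟨h8, h7⟩, sub_zero]
          · rw [if_pos h7, if_pos (by linarith), if_neg (fun h9 => h8 h9.1), sub_self]
        · rw [if_neg h7, if_neg (by intro h8; apply h7; linarith), if_neg (fun h9 => h7 h9.2),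
            sub_self]
    rw [← e7]
    by_cases h8 : (y + q) % (p * q) ≤ N
    · simp only [if_pos h8]
      ring
    · simp only [if_neg h8, ite_self]
      ring
  unfold G
  rw [sum_congr rfl key, sum_sub_distrib, sum_add_distrib, sum_ite_eq', sum_ite_eq',
    if_pos (mem_range.2 hA), if_pos (mem_range.2 (by omega))]

end Pool.Agent.Helper10.TB
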