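import Mathlib

set_option autoImplicit false

/-!
# The no-carry hypothesis

`w + u = b q`, `q < w, u`.  The phases `x m = m w - (jj m) p q ∈ (-q, p q - q]`, `y m = m u - (ii m) p q ∈ [0, p q)`.
`NoV`: for all `1 ≤ m < p/2` there is no carry: `jj m + ii m = (b m) / p`.
-/

namespace Pool.Agent.Helper10.TB

/-- number of wraps of the first phase -/
def jj (p q : ℕ) (w : ℤ) (m : ℕ) : ℤ := (m * w + q - 1) / (p * q)

/-- number of wraps of the second phase -/
def ii (p q : ℕ) (u : ℤ) (m : ℕ) : ℤ := (m * u) / (p * q)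

/-- no carry up to `p / 2` -/
structure NoV (p q : ℕ) (b w u : ℤ) : Prop where
  hp : p.Prime
  h11 : 11 ≤ p
  hq : 0 < q
  hb : 3 ≤ b
  hbp : b ≤ p - 2
  hw : (q : ℤ) < w
  hu : (q : ℤ) < u
  hwu : w + u = b * q
  nov : ∀ m : ℕ, 1 ≤ m → 2 * m < p → jj p q w m + ii p q u m = (b * m) / p

end Pool.Agent.Helper10.TB
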